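import Mathlib

/-! # Module Aff -/

namespace Th2
open Module

/-- Let `K1 = ker L1`.  If there is `k ∈ K1` with `L2 k ≠ 0`: take `x0` with `L1 x0 ≠ c1` (surjectivity, `V1` has at least two elements); one of
`x0`, `x0 + k` works.  Otherwise `ker L1 ≤ ker L2`, so `L2 = θ ∘ L1` for a linear `θ : V1 → V1`, which is onto, hence
bijective (`V1` is finite dimensional); there is `y ∈ V1` with `y ≠ c1` and `θ y ≠ c2` because `V1` has at least three elements; take
`x` with `L1 x = y`. -/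
theorem aff {F E V1 : Type*} [Field F] [AddCommGroup E] [Module F E] [AddCommGroup V1] [Module F V1]
    [FiniteDimensional F V1] (L1 L2 : E →ₗ[F] V1) (h1 : Function.Surjective L1)
    (h2 : Function.Surjective L2) (h3 : ∀ a b : V1, ∃ y : V1, y ≠ a ∧ y ≠ b) (c1 c2 : V1) :
    ∃ x, L1 x ≠ c1 ∧ L2 x ≠ c2 := by
  by_cases hk : ∃ k, L1 k = 0 ∧ L2 k ≠ 0
  · obtain ⟨k, hk1, hk2⟩ := hk
    obtain ⟨y, hy, -⟩ := h3 c1 c1
    obtain ⟨x0, rfl⟩ := h1 y
    by_cases hx : L2 x0 = c2
    · refine ⟨x0 + k, ?_, ?_⟩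
      · rw [map_add, hk1, add_zero]; exact hy
      · rw [map_add, hx]
        intro h
        exact hk2 (add_eq_left.mp h)
    · exact ⟨x0, hy, hx⟩
  · push Not at hk
    have hker : LinearMap.ker L1 ≤ LinearMap.ker L2 := fun k hk' => hk k hk'
    obtain ⟨g, hg⟩ := L1.exists_rightInverse_of_surjective (LinearMap.range_eq_top.mpr h1)
    have hL : ∀ x, L2 (g (L1 x)) = L2 x := by
      intro x
      have h4 : g (L1 x) - x ∈ LinearMap.ker L1 := by
        rw [LinearMap.mem_ker, map_sub, ← LinearMap.comp_apply, hg]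
        simp
      have h5 := hker h4
      rw [LinearMap.mem_ker, map_sub] at h5
      exact sub_eq_zero.mp h5
    have hsurj : Function.Surjective (L2 ∘ₗ g) := by
      intro z
      obtain ⟨x, rfl⟩ := h2 z
      exact ⟨L1 x, hL x⟩
    have hinj : Function.Injective (L2 ∘ₗ g) := LinearMap.injective_iff_surjective.mpr hsurj
    obtain ⟨y2, hy2⟩ := hsurj c2
    obtain ⟨y, hy1, hy3⟩ := h3 c1 y2
    obtain ⟨x, rfl⟩ := h1 y
    refine ⟨x, hy1, ?_⟩
    intro h
    apply hy3
    apply hinj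
    rw [hy2]
    show L2 (g (L1 x)) = c2
    rw [hL, h]

end Th2
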