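import Pool.Agent.Th2.Defs

/-! # Module Blk3: the 3-dimensional blocks -/

namespace Th2
open Polynomial Module

variable {W : Type*} [AddCommGroup W] [Module (ZMod 2) W]

/-- Choose a basis of `V1` (the given one in the second case) and let `T1` be the endomorphism with the matrix
`!![0, 0, 1; 1, 0, 1; 0, 1, 0]` in the first case (`a` is the identity on `V1`) and `!![1, 1, 0; 0, 0, 1; 1, 0, 1]` in the second case (the matrix of
`a` is `!![1, 1, 0; 0, 1, 1; 0, 0, 1]`); `P3 (T1) = 0` and `P3 (a T1) = 0` by `decide` for the matrices.  `a` is injective on `V1`; `V1` has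
`8` elements. -/
theorem blk3 [FiniteDimensional (ZMod 2) W] (V1 : Submodule (ZMod 2) W) (h3 : finrank (ZMod 2) V1 = 3)
    (a : Module.End (ZMod 2) W) (ha : V1 ≤ V1.comap a)
    (h : (∀ x ∈ V1, (a - 1) x = 0) ∨ ∃ b : Basis (Fin 3) (ZMod 2) V1,
      (a - 1) (b 0) = 0 ∧ (a - 1) (b 1) = b 0 ∧ (a - 1) (b 2) = b 1) :
    (∃ T1 : V1 →ₗ[ZMod 2] V1, aeval T1 P3 = 0 ∧
      aeval ((a.restrict ha : V1 →ₗ[ZMod 2] V1) ∘ₗ T1 : Module.End (ZMod 2) V1) P3 = 0) ∧
    (∀ x ∈ V1, a x = 0 → x = 0) ∧ ∀ x y : V1, ∃ z : V1, z ≠ x ∧ z ≠ y := by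
  classical
  have key : ∃ (b : Basis (Fin 3) (ZMod 2) V1) (M A A' : Matrix (Fin 3) (Fin 3) (ZMod 2)),
      (a.restrict ha : V1 →ₗ[ZMod 2] V1) = Matrix.toLinAlgEquiv b A ∧ M ^ 3 + M + 1 = 0 ∧
        (A * M) ^ 3 + A * M + 1 = 0 ∧ A' * A = 1 := by
    rcases h with h | ⟨b, hb0, hb1, hb2⟩
    · refine ⟨finBasisOfFinrankEq (ZMod 2) V1 h3, !![0, 0, 1; 1, 0, 1; 0, 1, 0], 1, 1, ?_, by decide, by decide, by decide⟩
      rw [map_one]
      apply LinearMap.ext
      intro x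
      apply Subtype.ext
      have := h x x.2
      rw [LinearMap.sub_apply, sub_eq_zero] at this
      exact this
    · refine ⟨b, !![1, 1, 0; 0, 0, 1; 1, 0, 1], !![1, 1, 0; 0, 1, 1; 0, 0, 1], !![1, 1, 1; 0, 1, 1; 0, 0, 1], ?_,
        by decide, by decide, by decide⟩
      rw [LinearMap.sub_apply, sub_eq_iff_eq_add] at hb0 hb1 hb2
      apply b.ext
      intro j
      apply Subtype.ext
      rw [Matrix.toLinAlgEquiv_self, Fin.sum_univ_three]
      fin_cases j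
      · simpa using hb0
      · simpa using hb1
      · simpa using hb2
  obtain ⟨b, M, A, A', hA, hM, hAM, hA'⟩ := key
  have hP : ∀ N : Matrix (Fin 3) (Fin 3) (ZMod 2), N ^ 3 + N + 1 = 0 → aeval (Matrix.toLinAlgEquiv b N : Module.End (ZMod 2) V1) P3 = 0 := by
    intro N hN
    have e : aeval (Matrix.toLinAlgEquiv b N : Module.End (ZMod 2) V1) P3 = Matrix.toLinAlgEquiv b (N ^ 3 + N + 1) := by
      rw [P3]
      simp only [map_add, map_pow, aeval_X, map_one]
    rw [e, hN, map_zero]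
  refine ⟨⟨Matrix.toLinAlgEquiv b M, hP M hM, ?_⟩, ?_, ?_⟩
  · have e : ((a.restrict ha : V1 →ₗ[ZMod 2] V1) ∘ₗ (Matrix.toLinAlgEquiv b M : V1 →ₗ[ZMod 2] V1) : Module.End (ZMod 2) V1)
        = Matrix.toLinAlgEquiv b (A * M) := by
      rw [hA, map_mul]; rfl
    rw [e]
    exact hP _ hAM
  · intro x hx hax
    have e1 : (Matrix.toLinAlgEquiv b A : V1 →ₗ[ZMod 2] V1) ⟨x, hx⟩ = 0 := by
      rw [← hA]
      apply Subtype.ext
      exact hax
    have e2 : (Matrix.toLinAlgEquiv b A' : Module.End (ZMod 2) V1) ((Matrix.toLinAlgEquiv b A : Module.End (ZMod 2) V1) ⟨x, hx⟩) = ⟨x, hx⟩ := by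
      rw [← Module.End.mul_apply, ← map_mul, hA', map_one]; rfl
    have e3 : (⟨x, hx⟩ : V1) = 0 := by
      rw [← e2]
      have : (Matrix.toLinAlgEquiv b A : Module.End (ZMod 2) V1) ⟨x, hx⟩ = 0 := e1
      rw [this, map_zero]
    exact congrArg Subtype.val e3
  · intro x y
    have h0 : b 0 ≠ 0 := b.ne_zero 0
    have h1 : b 1 ≠ 0 := b.ne_zero 1
    have h01 : b 0 ≠ b 1 := fun h => by
      have := b.injective h
      exact absurd this (by decide)
    by_cases hx : (0 : V1) ≠ x ∧ (0 : V1) ≠ y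
    · exact ⟨0, hx⟩
    · by_cases hx0 : b 0 ≠ x ∧ b 0 ≠ y
      · exact ⟨b 0, hx0⟩
      · refine ⟨b 1, ?_, ?_⟩
        · rintro rfl
          apply hx
          refine ⟨h1.symm, ?_⟩
          rintro rfl
          exact hx0 ⟨h01, h0⟩
        · rintro rfl
          apply hx
          refine ⟨?_, h1.symm⟩
          rintro rfl
          exact hx0 ⟨h0, h01⟩

end Th2
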