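import Pool.Agent.Th2.CycB

/-! # Module Sd: disjointness of `B` and the transpose of `B⁻¹` -/

namespace Th2
open Polynomial Module Matrix

variable {K : Type*} [Field K] {k : ℕ}

/-- what we need to know about a block `B` for the conjugacy of `l * mL B`, `l ∈ Nm` -/
structure Sd (B : (Matrix (Fin k) (Fin k) K)ˣ) : Prop where
  /-- `1` is not an eigenvalue -/
  n1 : ∀ v : Fin k → K, (B : Matrix (Fin k) (Fin k) K) *ᵥ v = v → v = 0
  /-- `B` and the transpose of `B⁻¹` are disjoint -/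
  syl : ∀ Z : Matrix (Fin k) (Fin k) K,
    (B : Matrix (Fin k) (Fin k) K)ᵀ * Z * (B : Matrix (Fin k) (Fin k) K) = Z → Z = 0

/-- the transposed inverse -/
def ti (B : (Matrix (Fin k) (Fin k) K)ˣ) : (Matrix (Fin k) (Fin k) K)ˣ where
  val := ((B⁻¹ : (Matrix (Fin k) (Fin k) K)ˣ) : Matrix (Fin k) (Fin k) K)ᵀ
  inv := (B : Matrix (Fin k) (Fin k) K)ᵀ
  val_inv := by rw [← transpose_mul, Units.mul_inv, transpose_one]
  inv_val := by rw [← transpose_mul, Units.inv_mul, transpose_one]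

private theorem Sd_ti {B : (Matrix (Fin k) (Fin k) K)ˣ} {f : K[X]}
    (h : CycM (B : Matrix (Fin k) (Fin k) K) f) (h0 : f.coeff 0 ≠ 0) :
    CycM ((ti B : (Matrix (Fin k) (Fin k) K)ˣ) : Matrix (Fin k) (Fin k) K) (rv f) :=
  (h.inv h0 (N' := ((B⁻¹ : (Matrix (Fin k) (Fin k) K)ˣ) : Matrix (Fin k) (Fin k) K))
    (Units.mul_inv B)).transpose

private theorem Sd_aeval (N : Matrix (Fin k) (Fin k) K) (f : K[X]) :
    aeval (Matrix.toLin' N) f = Matrix.toLin' (aeval N f) :=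
  aeval_algHom_apply ((Matrix.toLinAlgEquiv' : Matrix (Fin k) (Fin k) K ≃ₐ[K] _) :
    Matrix (Fin k) (Fin k) K →ₐ[K] ((Fin k → K) →ₗ[K] (Fin k → K))) N f

private theorem Sd_kill {N : Matrix (Fin k) (Fin k) K} {f : K[X]} (h : CycM N f) :
    aeval N f = 0 := by
  have h1 : aeval (Matrix.toLin' N) f = 0 := Cyc.kill h
  rw [Sd_aeval] at h1
  exact (LinearEquiv.map_eq_zero_iff Matrix.toLin').1 h1

private theorem Sd_int {M N Z : Matrix (Fin k) (Fin k) K} (h : Z * M = N * Z) (p : K[X]) :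
    Z * aeval M p = aeval N p * Z := by
  have hpow : ∀ i : ℕ, Z * M ^ i = N ^ i * Z := by
    intro i
    induction i with
    | zero => rw [pow_zero, pow_zero, mul_one, one_mul]
    | succ i ih => rw [pow_succ, ← mul_assoc, ih, mul_assoc, h, ← mul_assoc, pow_succ]
  induction p using Polynomial.induction_on' with
  | add p q hp hq => rw [map_add, map_add, mul_add, add_mul, hp, hq]
  | monomial i a =>
    rw [aeval_monomial, aeval_monomial, Algebra.algebraMap_eq_smul_one, smul_mul_assoc, one_mul,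
      smul_mul_assoc, one_mul, mul_smul_comm, hpow, smul_mul_assoc]

/-- `f (B) = 0` (`Cyc.kill`, `Matrix.toLin'` is an algebra isomorphism).
* `n1`: `u f + w (X - 1) = 1`, so `v = w (B) (B v - v) = 0`.
* `syl`: `Bᵀ Z B = Z` gives `Z B = (Bᵀ)⁻¹ Z` and `Z q (B) = q ((Bᵀ)⁻¹) Z` for all `q`; for `q = f`: `f ((Bᵀ)⁻¹) Z = 0`.
  `(Bᵀ)⁻¹` is killed by `rv f` (`CycM.inv`, `CycM.transpose`), which is coprime to `f`, so `f ((Bᵀ)⁻¹)` is invertible and `Z = 0`. -/
theorem sd_of_cyc {B : (Matrix (Fin k) (Fin k) K)ˣ} {f : K[X]}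
    (h : CycM (B : Matrix (Fin k) (Fin k) K) f) (h0 : f.coeff 0 ≠ 0) (h1 : IsCoprime f (X - 1))
    (h2 : IsCoprime f (rv f)) : Sd B := by
  have hk := Sd_kill h
  refine ⟨fun v hv => ?_, fun Z hZ => ?_⟩
  · obtain ⟨u, w, huw⟩ := h1
    have h3 : aeval (B : Matrix (Fin k) (Fin k) K) (u * f + w * (X - 1)) *ᵥ v = v := by
      rw [huw, map_one, one_mulVec]
    rw [← h3, map_add, map_mul, map_mul, hk, mul_zero, zero_add, map_sub, aeval_X, map_one,
      ← mulVec_mulVec, sub_mulVec, one_mulVec, hv, sub_self, mulVec_zero]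
  · have h3 : Z * (B : Matrix (Fin k) (Fin k) K) =
        ((ti B : (Matrix (Fin k) (Fin k) K)ˣ) : Matrix (Fin k) (Fin k) K) * Z := by
      have h4 : ((ti B : (Matrix (Fin k) (Fin k) K)ˣ) : Matrix (Fin k) (Fin k) K) *
          (B : Matrix (Fin k) (Fin k) K)ᵀ = 1 := (ti B).val_inv
      conv_rhs => rw [← hZ]
      rw [← Matrix.mul_assoc, ← Matrix.mul_assoc, h4, Matrix.one_mul]
    have h5 := Sd_int h3 f
    rw [hk, mul_zero] at h5
    have h6 := Sd_kill (Sd_ti h h0)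
    obtain ⟨u, w, huw⟩ := h2
    have h7 : aeval ((ti B : (Matrix (Fin k) (Fin k) K)ˣ) : Matrix (Fin k) (Fin k) K)
        (u * f + w * rv f) * Z = Z := by
      rw [huw, map_one, Matrix.one_mul]
    rw [← h7, map_add, map_mul, map_mul, h6, mul_zero, add_zero, Matrix.mul_assoc, ← h5, mul_zero]

/-- `ti B` is cyclic with the polynomial `rv f` -/
theorem cyc_ti {B : (Matrix (Fin k) (Fin k) K)ˣ} {f : K[X]}
    (h : CycM (B : Matrix (Fin k) (Fin k) K) f) (h0 : f.coeff 0 ≠ 0) :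
    CycM ((ti B : (Matrix (Fin k) (Fin k) K)ˣ) : Matrix (Fin k) (Fin k) K) (rv f) :=
  Sd_ti h h0

end Th2
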