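import Pool.Agent.ThQ.Ldu
import Pool.Agent.Th2.Sd

/-! # Module ConjU: the unipotent factors -/

namespace Th2
open Matrix Module ThQ

variable {K D : Type*} [Field K] [AddCommGroup D] [Module K D] {k : ℕ}

/-- the proof of `ThQ.cent_Nm` uses only `n1` and `syl` -/
theorem cent_Nm2 (qD : QF K D) {B : (Matrix (Fin k) (Fin k) K)ˣ} (hB : Sd B) {u : IG (q0 qD k)}
    (hu : u ∈ Nm qD k) (hc : u * mL qD k B = mL qD k B * u) : u = 1 := by
  classical
  obtain ⟨h1, h2, h3⟩ := mem_Nm.1 hu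
  set U : V0 K D k ≃ₗ[K] V0 K D k := (u : V0 K D k ≃ₗ[K] V0 K D k) with hU
  have hcom : ∀ v, U ((mL qD k B : V0 K D k ≃ₗ[K] V0 K D k) v) =
      (mL qD k B : V0 K D k ≃ₗ[K] V0 K D k) (U v) := fun v =>
    congrArg (fun g : IG (q0 qD k) => (g : V0 K D k ≃ₗ[K] V0 K D k) v) hc
  let ι : (Fin k → K) →ₗ[K] V0 K D k := LinearMap.inl K (Fin k → K) (D × (Fin k → K))
  have hι : ∀ x, ι x = (x, 0, 0) := fun x => rfl
  let α : (Fin k → K) →ₗ[K] D := LinearMap.fst K D (Fin k → K) ∘ₗ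
    LinearMap.snd K (Fin k → K) (D × (Fin k → K)) ∘ₗ (U : V0 K D k →ₗ[K] V0 K D k) ∘ₗ ι
  let Z : (Fin k → K) →ₗ[K] (Fin k → K) := LinearMap.snd K D (Fin k → K) ∘ₗ
    LinearMap.snd K (Fin k → K) (D × (Fin k → K)) ∘ₗ (U : V0 K D k →ₗ[K] V0 K D k) ∘ₗ ι
  have hUx : ∀ x, U (x, 0, 0) = (x, α x, Z x) := fun x => Prod.ext (h1 _) rfl
  have hmx : ∀ x : Fin k → K, (mL qD k B : V0 K D k ≃ₗ[K] V0 K D k) (x, 0, 0) =
      ((B : Matrix (Fin k) (Fin k) K) *ᵥ x, 0, 0) := by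
    intro x
    rw [mL_apply]
    simp
  have key : ∀ x, α ((B : Matrix (Fin k) (Fin k) K) *ᵥ x) = α x ∧
      Z ((B : Matrix (Fin k) (Fin k) K) *ᵥ x) =
        ((B⁻¹ : (Matrix (Fin k) (Fin k) K)ˣ) : Matrix (Fin k) (Fin k) K)ᵀ *ᵥ Z x := by
    intro x
    have h4 := hcom (x, 0, 0)
    rw [hmx, hUx, hUx, mL_apply] at h4
    have h5 := congrArg (fun v : V0 K D k => v.2.1) h4
    have h6 := congrArg (fun v : V0 K D k => v.2.2) h4
    exact ⟨h5, h6⟩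
  -- `α = 0`
  have hα : ∀ x, α x = 0 := by
    let L : (Fin k → K) →ₗ[K] (Fin k → K) :=
      Matrix.toLin' (B : Matrix (Fin k) (Fin k) K) - LinearMap.id
    have hL : Function.Injective L := by
      rw [← LinearMap.ker_eq_bot, LinearMap.ker_eq_bot']
      intro x hx
      refine hB.n1 x ?_
      have h5 : (B : Matrix (Fin k) (Fin k) K) *ᵥ x - x = 0 := hx
      exact sub_eq_zero.1 h5
    have hLs : Function.Surjective L := LinearMap.injective_iff_surjective.1 hL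
    intro x
    obtain ⟨y, rfl⟩ := hLs x
    have h6 : L y = (B : Matrix (Fin k) (Fin k) K) *ᵥ y - y := rfl
    rw [h6, map_sub, (key y).1, sub_self]
  -- `Z = 0`
  have hZ : ∀ x, Z x = 0 := by
    let M : Matrix (Fin k) (Fin k) K := LinearMap.toMatrix' Z
    have hM : ∀ x, M *ᵥ x = Z x := fun x => by
      rw [← Matrix.toLin'_apply, Matrix.toLin'_toMatrix']
    have h7 : M * (B : Matrix (Fin k) (Fin k) K) =
        ((B⁻¹ : (Matrix (Fin k) (Fin k) K)ˣ) : Matrix (Fin k) (Fin k) K)ᵀ * M := by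
      apply Matrix.toLin'.injective
      apply LinearMap.ext
      intro x
      rw [Matrix.toLin'_apply, Matrix.toLin'_apply, ← Matrix.mulVec_mulVec,
        ← Matrix.mulVec_mulVec, hM, hM]
      exact (key x).2
    have h8 : (B : Matrix (Fin k) (Fin k) K)ᵀ * M * (B : Matrix (Fin k) (Fin k) K) = M := by
      rw [Matrix.mul_assoc, h7, ← Matrix.mul_assoc, ← Matrix.transpose_mul, Units.inv_mul,
        Matrix.transpose_one, Matrix.one_mul]
    have h9 := hB.syl M h8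
    intro x
    rw [← hM, h9, Matrix.zero_mulVec]
  have hβ : ∀ y, U (0, y, 0) = (0, y, 0) := by
    intro y
    refine Prod.ext (h1 _) (Prod.ext (h2 y 0) ?_)
    have h10 : (q0 qD k).Iso ⊤ (U : V0 K D k →ₗ[K] V0 K D k) :=
      ⟨fun _ _ => trivial, fun x _ => u.2 x⟩
    funext i
    have h11 : (q0 qD k).h (U (0, y, 0)) (U (Pi.single i 1, 0, 0)) =
        (q0 qD k).h (0, y, 0) (Pi.single i 1, 0, 0) :=
      h10.h (x := (0, y, 0)) (y := (Pi.single i 1, 0, 0)) trivial trivial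
    rw [hUx, hα, hZ, q0_h, q0_h] at h11
    simpa using h11
  apply Subtype.ext
  apply LinearEquiv.ext
  intro v
  show U v = v
  have h12 : v = (v.1, 0, 0) + ((0, v.2.1, 0) + (0, 0, v.2.2)) := by
    obtain ⟨a, b, c⟩ := v
    simp
  rw [h12, map_add, map_add, hUx, hα, hZ, hβ, h3]

/-- as `ThQ.conj_low` -/
theorem conj_low2 [Finite K] [Finite D] (qD : QF K D) {B : (Matrix (Fin k) (Fin k) K)ˣ}
    (hB : Sd B) {l : IG (q0 qD k)} (hl : l ∈ Nm qD k) :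
    ∃ u ∈ Nm qD k, l * mL qD k B = u * mL qD k B * u⁻¹ := by
  set x := mL qD k B with hx
  have hfinE : Finite (V0 K D k ≃ₗ[K] V0 K D k) := DFunLike.finite _
  have hN : ∀ u ∈ Nm qD k, u * x * u⁻¹ * x⁻¹ ∈ Nm qD k := by
    intro u hu
    have h1 := mL_Nm qD B ((Nm qD k).inv_mem hu)
    have h2 := (Nm qD k).mul_mem hu h1
    rw [← hx] at h2
    have h3 : u * x * u⁻¹ * x⁻¹ = u * (x * u⁻¹ * x⁻¹) := by group
    rw [h3]
    exact h2
  let φ : Nm qD k → Nm qD k := fun u => ⟨u * x * (u : IG (q0 qD k))⁻¹ * x⁻¹, hN _ u.2⟩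
  have hφ : Function.Injective φ := by
    intro u v huv
    have h4 : (u : IG (q0 qD k)) * x * (u : IG (q0 qD k))⁻¹ * x⁻¹ =
        v * x * (v : IG (q0 qD k))⁻¹ * x⁻¹ := congrArg Subtype.val huv
    have h5 : (u : IG (q0 qD k)) * x * (u : IG (q0 qD k))⁻¹ = v * x * (v : IG (q0 qD k))⁻¹ :=
      mul_right_cancel h4
    have h6 : ((v : IG (q0 qD k))⁻¹ * u) * x = x * ((v : IG (q0 qD k))⁻¹ * u) := by
      have h7 : (v : IG (q0 qD k))⁻¹ * (u * x * (u : IG (q0 qD k))⁻¹) * u =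
          (v : IG (q0 qD k))⁻¹ * (v * x * (v : IG (q0 qD k))⁻¹) * u := by rw [h5]
      calc ((v : IG (q0 qD k))⁻¹ * u) * x
          = (v : IG (q0 qD k))⁻¹ * (u * x * (u : IG (q0 qD k))⁻¹) * u := by group
        _ = (v : IG (q0 qD k))⁻¹ * (v * x * (v : IG (q0 qD k))⁻¹) * u := h7
        _ = x * ((v : IG (q0 qD k))⁻¹ * u) := by group
    have h8 := cent_Nm2 qD hB ((Nm qD k).mul_mem ((Nm qD k).inv_mem v.2) u.2) h6
    apply Subtype.ext
    rw [inv_mul_eq_one] at h8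
    exact h8.symm
  have hsurj : Function.Surjective φ := Finite.injective_iff_surjective.1 hφ
  obtain ⟨u, hu⟩ := hsurj ⟨l, hl⟩
  refine ⟨u, u.2, ?_⟩
  have h9 : (u : IG (q0 qD k)) * x * (u : IG (q0 qD k))⁻¹ * x⁻¹ = l := congrArg Subtype.val hu
  rw [← h9, inv_mul_cancel_right]

/-- `sw (mL B * v) sw⁻¹ = mL (ti B) * v'` with `v' = sw v sw⁻¹ ∈ Nm` (`sw_mL`), and `mL (ti B) * v' = (mL (ti B) v' (mL (ti B))⁻¹) * mL (ti B)` is
conjugate to `mL (ti B)` by `conj_low2` (`mL_Nm`); conjugate back with `sw` (`mem_Np`: `sw⁻¹ u sw ∈ Np`). -/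
theorem conj_up2 [Finite K] [Finite D] (qD : QF K D) {B : (Matrix (Fin k) (Fin k) K)ˣ}
    (hB : Sd (ti B)) {v : IG (q0 qD k)} (hv : v ∈ Np qD k) :
    ∃ u : IG (q0 qD k), mL qD k B * v = u * mL qD k B * u⁻¹ := by
  have h1 : sw qD k * mL qD k B * (sw qD k)⁻¹ = mL qD k (ti B) := sw_mL qD B (ti B) rfl
  have h2 := mL_Nm qD (ti B) (mem_Np.1 hv)
  obtain ⟨u, -, hu⟩ := conj_low2 qD hB h2
  refine ⟨(sw qD k)⁻¹ * u * sw qD k, ?_⟩
  rw [inv_mul_cancel_right, ← h1] at hu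
  calc mL qD k B * v = (sw qD k)⁻¹ * (sw qD k * mL qD k B * (sw qD k)⁻¹ *
        (sw qD k * v * (sw qD k)⁻¹)) * sw qD k := by group
    _ = (sw qD k)⁻¹ * (u * (sw qD k * mL qD k B * (sw qD k)⁻¹) * u⁻¹) * sw qD k := by rw [hu]
    _ = _ := by group

end Th2
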