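import Pool.Agent.Th2.Defs

/-! # Module CycA: cyclic endomorphisms -/

namespace Th2
open Polynomial Module Matrix

variable {F W W' : Type*} [Field F] [AddCommGroup W] [Module F W] [AddCommGroup W'] [Module F W']

private theorem cycA_inter {T : Module.End F W} {T' : Module.End F W'} (φ : W →ₗ[F] W')
    (hφ : ∀ w, φ (T w) = T' (φ w)) (q : F[X]) (w : W) :
    φ (aeval T q w) = aeval T' q (φ w) := by
  have hpow : ∀ n : ℕ, ∀ w, φ ((T ^ n) w) = (T' ^ n) (φ w) := by
    intro n
    induction n with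
    | zero => intro w; simp
    | succ n ih =>
      intro w
      rw [pow_succ, pow_succ, Module.End.mul_apply, Module.End.mul_apply, ih, hφ]
  induction q using Polynomial.induction_on' with
  | add p q hp hq => rw [map_add, map_add, LinearMap.add_apply, LinearMap.add_apply, map_add, hp, hq]
  | monomial n a =>
    rw [aeval_monomial, aeval_monomial, Module.End.mul_apply, Module.End.mul_apply,
      Module.algebraMap_end_apply, Module.algebraMap_end_apply, map_smul, hpow]

private theorem cycA_charpoly [FiniteDimensional F W] {T : Module.End F W} {f : F[X]}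
    (h : Cyc T f) : f = LinearMap.charpoly T := by
  obtain ⟨h1, h2, v, hv⟩ := h
  have h3 : f ∣ LinearMap.charpoly T := by
    apply hv
    rw [LinearMap.aeval_self_charpoly]
    rfl
  refine (eq_of_monic_of_dvd_of_natDegree_le h1 (LinearMap.charpoly_monic T) h3 ?_).symm
  rw [LinearMap.charpoly_natDegree, h2]

/-- Let `v` be the cyclic vector, `n = f.natDegree = finrank F W`.  The vectors `T ^ i v`, `i < n`, are linearly independent (a relation is a
polynomial `q` of degree `< n` with `q (T) v = 0`, so `f ∣ q` and `q = 0`), so they are a basis and `T ^ n v` is a combination of them: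
`q (T) v = 0` for a monic `q` of degree `n`, `f ∣ q`, so `q = f`.  Now `f (T) T ^ i v = T ^ i f (T) v = 0` for all `i`. -/
theorem Cyc.kill [FiniteDimensional F W] {T : Module.End F W} {f : F[X]} (h : Cyc T f) :
    aeval T f = 0 := by
  rw [cycA_charpoly h]
  exact LinearMap.aeval_self_charpoly T

/-- evaluation at the cyclic vector -/
private noncomputable def cycA_psi (T : Module.End F W) (v : W) : F[X] →ₗ[F] W :=
  (LinearMap.applyₗ v) ∘ₗ (aeval T).toLinearMap

private theorem cycA_psi_apply (T : Module.End F W) (v : W) (q : F[X]) :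
    cycA_psi T v q = aeval T q v := rfl

private theorem cycA_ker [FiniteDimensional F W] {T : Module.End F W} {f : F[X]} (h : Cyc T f)
    {v : W} (hv : ∀ q : F[X], aeval T q v = 0 → f ∣ q) :
    LinearMap.ker (cycA_psi T v) = (Ideal.span {f} : Ideal F[X]).restrictScalars F := by
  ext q
  rw [LinearMap.mem_ker, cycA_psi_apply, Submodule.restrictScalars_mem, Ideal.mem_span_singleton]
  constructor
  · exact hv q
  · rintro ⟨g, rfl⟩
    rw [mul_comm, map_mul, Module.End.mul_apply, Cyc.kill h]
    simp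

private theorem cycA_surj [FiniteDimensional F W] {T : Module.End F W} {f : F[X]} (h : Cyc T f)
    {v : W} (hv : ∀ q : F[X], aeval T q v = 0 → f ∣ q) :
    Function.Surjective (cycA_psi T v) := by
  set n := f.natDegree with hn
  set g : degreeLT F n →ₗ[F] W := (cycA_psi T v) ∘ₗ (degreeLT F n).subtype with hg
  have hinj : Function.Injective g := by
    rw [← LinearMap.ker_eq_bot, LinearMap.ker_eq_bot']
    rintro ⟨q, hq⟩ hq0
    have h1 : f ∣ q := hv q hq0
    rw [Subtype.ext_iff]
    by_contra hne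
    have h2 := natDegree_le_of_dvd h1 hne
    have h3 : q.natDegree < n := by
      rw [mem_degreeLT] at hq
      exact (natDegree_lt_iff_degree_lt hne).mpr hq
    omega
  have hfin : finrank F (degreeLT F n) = finrank F W := by
    rw [(degreeLTEquiv F n).finrank_eq, finrank_fin_fun, hn, h.2.1]
  have : FiniteDimensional F (degreeLT F n) := (degreeLTEquiv F n).symm.finiteDimensional
  have hsurj : Function.Surjective g :=
    (LinearMap.injective_iff_surjective_of_finrank_eq_finrank hfin).mp hinj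
  intro w
  obtain ⟨q, hq⟩ := hsurj w
  exact ⟨q, hq⟩

/-- `q (T) v ↦ q (T') v'` is a well defined isomorphism: both modules are `F[X] / (f)` (`Cyc.kill`: `q (T) v = 0` iff `f ∣ q`).
For example use the bases `T ^ i v`, `T' ^ i v'`, `i < n`. -/
theorem Cyc.conj [FiniteDimensional F W] [FiniteDimensional F W'] {T : Module.End F W}
    {T' : Module.End F W'} {f : F[X]} (h : Cyc T f) (h' : Cyc T' f) :
    ∃ φ : W ≃ₗ[F] W', ∀ w, φ (T w) = T' (φ w) := by
  obtain ⟨v, hv⟩ := h.2.2
  obtain ⟨v', hv'⟩ := h'.2.2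
  have hs := cycA_surj h hv
  have hs' := cycA_surj h' hv'
  have hk : LinearMap.ker (cycA_psi T v) = LinearMap.ker (cycA_psi T' v') := by
    rw [cycA_ker h hv, cycA_ker h' hv']
  set φ : W ≃ₗ[F] W' := ((cycA_psi T v).quotKerEquivOfSurjective hs).symm ≪≫ₗ
    Submodule.quotEquivOfEq _ _ hk ≪≫ₗ (cycA_psi T' v').quotKerEquivOfSurjective hs' with hφ
  have key : ∀ q, φ (cycA_psi T v q) = cycA_psi T' v' q := by
    intro q
    have h1 : ((cycA_psi T v).quotKerEquivOfSurjective hs).symm (cycA_psi T v q) =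
        Submodule.Quotient.mk q := by
      rw [LinearEquiv.symm_apply_eq]
      rfl
    rw [hφ, LinearEquiv.trans_apply, LinearEquiv.trans_apply, h1]
    rfl
  refine ⟨φ, fun w => ?_⟩
  obtain ⟨q, rfl⟩ := hs w
  have h1 : T (cycA_psi T v q) = cycA_psi T v (X * q) := by
    rw [cycA_psi_apply, cycA_psi_apply, map_mul, aeval_X, Module.End.mul_apply]
  have h2 : T' (cycA_psi T' v' q) = cycA_psi T' v' (X * q) := by
    rw [cycA_psi_apply, cycA_psi_apply, map_mul, aeval_X, Module.End.mul_apply]
  rw [h1, key, key, h2]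

/-- transport -/
theorem Cyc.map {T : Module.End F W} {T' : Module.End F W'} {f : F[X]} (h : Cyc T f) (φ : W ≃ₗ[F] W')
    (hφ : ∀ w, φ (T w) = T' (φ w)) : Cyc T' f := by
  obtain ⟨h1, h2, v, hv⟩ := h
  refine ⟨h1, h2.trans φ.finrank_eq, φ v, fun q hq => hv q ?_⟩
  have h3 := cycA_inter (T := T) (T' := T') (φ : W →ₗ[F] W') (fun w => hφ w) q v
  apply φ.injective
  rw [map_zero]
  exact h3.trans hq

/-- the matrix version of `Cyc.conj` -/
theorem CycM.conj {ι : Type*} [Fintype ι] [DecidableEq ι] {N N' : Matrix ι ι F} {f : F[X]}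
    (h : CycM N f) (h' : CycM N' f) : ∃ P : (Matrix ι ι F)ˣ,
      N' = (P : Matrix ι ι F) * N * ((P⁻¹ : (Matrix ι ι F)ˣ) : Matrix ι ι F) := by
  obtain ⟨φ, hφ⟩ := Cyc.conj h h'
  let P : (Matrix ι ι F)ˣ :=
    { val := LinearMap.toMatrix' (φ : (ι → F) →ₗ[F] (ι → F))
      inv := LinearMap.toMatrix' (φ.symm : (ι → F) →ₗ[F] (ι → F))
      val_inv := by
        rw [← LinearMap.toMatrix'_comp]
        simp
      inv_val := by
        rw [← LinearMap.toMatrix'_comp]
        simp }
  refine ⟨P, ?_⟩
  have h1 : (P : Matrix ι ι F) * N = N' * P := by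
    apply Matrix.toLin'.injective
    rw [Matrix.toLin'_mul, Matrix.toLin'_mul]
    have h2 : Matrix.toLin' (P : Matrix ι ι F) = (φ : (ι → F) →ₗ[F] (ι → F)) :=
      Matrix.toLin'_toMatrix' _
    rw [h2]
    exact LinearMap.ext fun w => hφ w
  rw [h1, mul_assoc, Units.mul_inv, mul_one]

/-- the matrix version of `Cyc.map` (also for a change of the index type) -/
theorem CycM.map {ι : Type*} [Fintype ι] [DecidableEq ι] {N : Matrix ι ι F} {f : F[X]} (h : CycM N f)
    (P : (Matrix ι ι F)ˣ) :
    CycM ((P : Matrix ι ι F) * N * ((P⁻¹ : (Matrix ι ι F)ˣ) : Matrix ι ι F)) f := by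
  refine Cyc.map h (Matrix.toLin'OfInv (M' := (P : Matrix ι ι F))
    (M := ((P⁻¹ : (Matrix ι ι F)ˣ) : Matrix ι ι F)) (by simp) (by simp)) fun w => ?_
  show (P : Matrix ι ι F).mulVec (N.mulVec w) =
    ((P : Matrix ι ι F) * N * ((P⁻¹ : (Matrix ι ι F)ˣ) : Matrix ι ι F)).mulVec
      ((P : Matrix ι ι F).mulVec w)
  rw [Matrix.mulVec_mulVec, Matrix.mulVec_mulVec, mul_assoc, Units.inv_mul, mul_one]

theorem CycM.reindex {ι κ : Type*} [Fintype ι] [DecidableEq ι] [Fintype κ] [DecidableEq κ]
    {N : Matrix ι ι F} {f : F[X]} (h : CycM N f) (e : ι ≃ κ) : CycM (Matrix.reindex e e N) f := by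
  refine Cyc.map h (LinearEquiv.funCongrLeft F F e.symm) fun w => ?_
  show (N.mulVec w) ∘ e.symm = (Matrix.reindex e e N).mulVec (w ∘ e.symm)
  have hw : (w ∘ e.symm) ∘ e.symm.symm = w := by
    ext i
    simp
  rw [Matrix.reindex_apply, Matrix.submatrix_mulVec_equiv, hw]

end Th2
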