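import Pool.Agent.Th2.CycA

/-! # Module CycB: inverse and transpose -/

namespace Th2
open Polynomial Module Matrix

variable {F W : Type*} [Field F] [AddCommGroup W] [Module F W]

private theorem cycB_reflect {T T' : Module.End F W} (h1 : T * T' = 1) (h2 : T' * T = 1) (N : ℕ) :
    ∀ q : F[X], q.natDegree ≤ N → aeval T (reflect N q) = T ^ N * aeval T' q := by
  apply Polynomial.induction_with_natDegree_le
  · simp
  · intro n r _ hn
    rw [reflect_C_mul_X_pow, revAt_le hn, map_mul, map_mul, aeval_C, aeval_C, map_pow, map_pow,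
      aeval_X, aeval_X, ← mul_assoc, ← Algebra.commutes r (T ^ N), mul_assoc]
    congr 1
    have h3 : T ^ N = T ^ (N - n) * T ^ n := by rw [← pow_add]; congr 1; omega
    have h4 : T ^ n * T' ^ n = 1 := by
      have hc : Commute T T' := h1.trans h2.symm
      rw [← hc.mul_pow, h1, one_pow]
    rw [h3, mul_assoc, h4, mul_one]
  · intro f g _ _ hf hg
    rw [reflect_add, map_add, map_add, mul_add, hf, hg]

/-- Let `n = f.natDegree`, `v` the cyclic vector of `T` and `T' = T⁻¹`.  `rv f` is monic of degree `n` (as `f.coeff 0 ≠ 0`).  Cyclic vector of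
`T'`: the same `v`.  If `q (T') v = 0` with `m = q.natDegree` then `q.reverse (T) v = T ^ m q (T') v = 0`
(`q.reverse (T) = T ^ m * q (T')`), so `f ∣ q.reverse`; taking the reverse again, `f.reverse ∣ q.reverse.reverse`, and `q = X ^ r *
q.reverse.reverse` (`r` the order of `q` at `0`).  (Alternatively: `q ≠ 0` of minimal degree with `q (T') v = 0` etc.) -/
theorem Cyc.inv [FiniteDimensional F W] {T T' : Module.End F W} {f : F[X]} (h : Cyc T f)
    (h0 : f.coeff 0 ≠ 0) (h1 : T * T' = 1) : Cyc T' (rv f) := by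
  obtain ⟨hm, hd, v, hv⟩ := h
  have h2 : T' * T = 1 := mul_eq_one_comm.mp h1
  have htd : f.natTrailingDegree = 0 := natTrailingDegree_eq_zero.mpr (Or.inr h0)
  have hinv : (f.coeff 0)⁻¹ ≠ 0 := inv_ne_zero h0
  refine ⟨?_, ?_, v, fun q hq => ?_⟩
  · unfold rv Monic
    rw [leadingCoeff_mul, leadingCoeff_C, reverse_leadingCoeff, trailingCoeff, htd]
    exact inv_mul_cancel₀ h0
  · unfold rv
    rw [natDegree_C_mul hinv, reverse_natDegree, htd, Nat.sub_zero, hd]
  · rcases eq_or_ne q 0 with hq0 | hq0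
    · rw [hq0]; exact dvd_zero _
    set m := q.natDegree with hmdef
    have h3 : aeval T (reflect m q) v = 0 := by
      rw [cycB_reflect h1 h2 m q le_rfl, Module.End.mul_apply, hq, map_zero]
    obtain ⟨g, hg⟩ := hv _ h3
    have hne : reflect m q ≠ 0 := by
      intro h4
      apply hq0
      rw [← reflect_reflect (N := m) (p := q), h4, reflect_zero]
    have hg0 : g ≠ 0 := by
      rintro rfl
      rw [mul_zero] at hg
      exact hne hg
    have hdeg : (reflect m q).natDegree ≤ m := reverse_natDegree_le q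
    rw [hg, natDegree_mul hm.ne_zero hg0] at hdeg
    have h5 : q = reflect f.natDegree f * reflect (m - f.natDegree) g := by
      rw [← reflect_mul f g le_rfl (by omega), ← hg]
      have : f.natDegree + (m - f.natDegree) = m := by omega
      rw [this, reflect_reflect]
    have h6 : reflect f.natDegree f = rv f * C (f.coeff 0) := by
      unfold rv
      have : C (f.coeff 0)⁻¹ * f.reverse * C (f.coeff 0) =
          C ((f.coeff 0)⁻¹ * f.coeff 0) * f.reverse := by
        rw [C_mul]; ring
      rw [this, inv_mul_cancel₀ h0, C_1, one_mul]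
      rfl
    rw [h5, h6, mul_assoc]
    exact dvd_mul_right _ _

theorem CycM.inv {ι : Type*} [Fintype ι] [DecidableEq ι] {N N' : Matrix ι ι F} {f : F[X]}
    (h : CycM N f) (h0 : f.coeff 0 ≠ 0) (h1 : N * N' = 1) : CycM N' (rv f) := by
  refine Cyc.inv h h0 ?_
  have h2 := Matrix.toLin'_mul N N'
  rw [h1, Matrix.toLin'_one] at h2
  exact h2.symm

private theorem cycB_dot {ι : Type*} [Fintype ι] [DecidableEq ι] (N : Matrix ι ι F) (q : F[X])
    (φ w : ι → F) :
    (aeval (Matrix.toLin' Nᵀ) q φ) ⬝ᵥ w = φ ⬝ᵥ (aeval (Matrix.toLin' N) q w) := by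
  have hstep : ∀ φ w : ι → F, (Matrix.toLin' Nᵀ φ) ⬝ᵥ w = φ ⬝ᵥ (Matrix.toLin' N w) := by
    intro φ w
    rw [Matrix.toLin'_apply, Matrix.toLin'_apply, Matrix.mulVec_transpose, Matrix.dotProduct_mulVec]
  have hpow : ∀ (n : ℕ) (φ w : ι → F), ((Matrix.toLin' Nᵀ ^ n) φ) ⬝ᵥ w =
      φ ⬝ᵥ ((Matrix.toLin' N ^ n) w) := by
    intro n
    induction n with
    | zero => intro φ w; simp
    | succ n ih =>
      intro φ w
      rw [pow_succ, pow_succ', Module.End.mul_apply, Module.End.mul_apply, ih, hstep]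
  induction q using Polynomial.induction_on' with
  | add p q hp hq =>
    rw [map_add, map_add, LinearMap.add_apply, LinearMap.add_apply, add_dotProduct,
      dotProduct_add, hp, hq]
  | monomial n a =>
    rw [aeval_monomial, aeval_monomial, Module.End.mul_apply, Module.End.mul_apply,
      Module.algebraMap_end_apply, Module.algebraMap_end_apply, smul_dotProduct, dotProduct_smul,
      hpow]

/-- The transpose of a cyclic matrix is cyclic.  Let `v` be the cyclic vector of `N`, `n = f.natDegree`; the vectors `N ^ i v`, `i < n`, are a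
basis; let `φ` be the vector with `φ ⬝ᵥ N ^ i v = 0` for `i < n - 1` and `= 1` for `i = n - 1`.  If `q (Nᵀ) φ = 0` then
`φ ⬝ᵥ q (N) N ^ j v = 0` for all `j`.  Let `r` be the remainder of `q` modulo `f`; the same holds for `r`, as `f (N) = 0`.  If `r ≠ 0` has
degree `d < n`, take `j = n - 1 - d`: the value is the leading coefficient of `r`, a contradiction.  So `f ∣ q`. -/
theorem CycM.transpose {ι : Type*} [Fintype ι] [DecidableEq ι] {N : Matrix ι ι F} {f : F[X]}
    (h : CycM N f) : CycM Nᵀ f := by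
  have hkill : aeval (Matrix.toLin' N) f = 0 := Cyc.kill h
  obtain ⟨hm, hd, v, hv⟩ := h
  set n := f.natDegree with hn
  set T : Module.End F (ι → F) := Matrix.toLin' N with hT
  set ψ : F[X] →ₗ[F] (ι → F) := (LinearMap.applyₗ v) ∘ₗ (aeval T).toLinearMap with hψ
  have hψa : ∀ q, ψ q = aeval T q v := fun q => rfl
  set g : degreeLT F n →ₗ[F] (ι → F) := ψ ∘ₗ (degreeLT F n).subtype with hg
  have hinj : Function.Injective g := by
    rw [← LinearMap.ker_eq_bot, LinearMap.ker_eq_bot']
    rintro ⟨q, hq⟩ hq0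
    have h1 : f ∣ q := hv q hq0
    rw [Subtype.ext_iff]
    by_contra hne
    have h2 := natDegree_le_of_dvd h1 hne
    have h3 : q.natDegree < n := by
      rw [mem_degreeLT] at hq
      exact (natDegree_lt_iff_degree_lt hne).mpr hq
    omega
  have hfin : finrank F (degreeLT F n) = finrank F (ι → F) := by
    rw [(degreeLTEquiv F n).finrank_eq, finrank_fin_fun, hd]
  have : FiniteDimensional F (degreeLT F n) := (degreeLTEquiv F n).symm.finiteDimensional
  let G : degreeLT F n ≃ₗ[F] (ι → F) :=
    LinearEquiv.ofBijective g ⟨hinj, (LinearMap.injective_iff_surjective_of_finrank_eq_finrank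
      hfin).mp hinj⟩
  set ℓ : (ι → F) →ₗ[F] F :=
    (lcoeff F (n - 1)) ∘ₗ (degreeLT F n).subtype ∘ₗ (G.symm : (ι → F) →ₗ[F] degreeLT F n) with hℓ
  have hℓa : ∀ r (_ : r ∈ degreeLT F n), ℓ (aeval T r v) = r.coeff (n - 1) := by
    intro r hr
    have h1 : G ⟨r, hr⟩ = aeval T r v := rfl
    rw [← h1]
    simp [hℓ]
  refine ⟨hm, hd, fun j => ℓ (fun k => if j = k then 1 else 0), fun q hq => ?_⟩
  have hrep : ∀ w, (fun j => ℓ (fun k => if j = k then 1 else 0)) ⬝ᵥ w = ℓ w := by
    intro w
    rw [LinearMap.pi_apply_eq_sum_univ ℓ w]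
    simp only [dotProduct, smul_eq_mul]
    exact Finset.sum_congr rfl fun j _ => mul_comm _ _
  have h1 : ∀ w, ℓ (aeval T q w) = 0 := by
    intro w
    rw [← hrep, ← cycB_dot, hq, zero_dotProduct]
  set r := q %ₘ f with hr
  have h2 : aeval T q = aeval T r := by
    conv_lhs => rw [← modByMonic_add_div q f]
    rw [map_add, map_mul, hkill, zero_mul, add_zero]
  rw [← modByMonic_eq_zero_iff_dvd hm]
  by_contra hr0
  have hdeg : r.degree < f.degree := degree_modByMonic_lt q hm
  have hnat : r.natDegree < n := natDegree_lt_natDegree hr0 hdeg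
  set d := r.natDegree with hdd
  have h3 := h1 (aeval T ((X : F[X]) ^ (n - 1 - d)) v)
  rw [h2, ← Module.End.mul_apply, ← map_mul, hℓa] at h3
  · have e : n - 1 = d + (n - 1 - d) := by omega
    rw [e, coeff_mul_X_pow'] at h3
    rw [if_pos (by omega)] at h3
    have e2 : d + (n - 1 - d) - (d + (n - 1 - d) - d) = d := by omega
    rw [e2] at h3
    exact hr0 (leadingCoeff_eq_zero.mp h3)
  · rw [mem_degreeLT]
    rw [degree_mul, degree_X_pow, degree_eq_natDegree hr0, ← hdd]
    have h4 : d + (n - 1 - d) < n := by omega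
    exact_mod_cast h4

end Th2
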