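import Pool.Agent.Th2.CycA

/-! # Module CycC: existence, block diagonal matrices -/

namespace Th2
open Polynomial Module Matrix

variable {F : Type*} [Field F]

/-- The companion matrix: cyclic vector `v = e_0`.  `C ^ i e_0 = e_i` for `i < n`.  If `q (C) e_0 = 0`, then the same holds for the
remainder `r` of `q` modulo `f` (`f (C) e_0 = 0`: `C ^ n e_0 = C e_{n-1} = - ∑ f_i e_i`), and `r (C) e_0 = ∑ r_i e_i`, so `r = 0`. -/
theorem cmp_cyc {f : F[X]} (hf : f.Monic) {n : ℕ} (hn : f.natDegree = n) : CycM (cmp f n) f := by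
  refine ⟨hf, by rw [hn, finrank_fin_fun], ?_⟩
  rcases Nat.eq_zero_or_pos n with h0 | h0
  · subst h0
    refine ⟨0, fun q _ => ?_⟩
    have : f = 1 := hf.natDegree_eq_zero.mp hn
    rw [this]
    exact one_dvd q
  set T : Module.End F (Fin n → F) := Matrix.toLin' (cmp f n) with hT
  set v : Fin n → F := Pi.single ⟨0, h0⟩ 1 with hv
  have hcol : ∀ j : Fin n, ∀ i : Fin n, T (Pi.single j 1) i = cmp f n i j := by
    intro j i
    rw [hT, Matrix.toLin'_apply, Matrix.mulVec_single_one]
    rfl
  have hpow : ∀ i (hi : i < n), (T ^ i) v = Pi.single ⟨i, hi⟩ 1 := by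
    intro i
    induction i with
    | zero => intro hi; simp [hv]
    | succ i ih =>
      intro hi
      rw [pow_succ', Module.End.mul_apply, ih (by omega)]
      ext k
      rw [hcol]
      simp only [cmp, Matrix.of_apply]
      rw [if_neg (by show ¬ (i + 1 = n); omega)]
      by_cases hk : (k : ℕ) = i + 1
      · rw [if_pos hk]
        have : k = ⟨i + 1, hi⟩ := Fin.ext hk
        rw [this, Pi.single_eq_same]
      · rw [if_neg hk, Pi.single_eq_of_ne]
        intro h
        exact hk (by rw [h])
  have hsmall : ∀ r : F[X], r.natDegree < n → ∀ k : Fin n, (aeval T r v) k = r.coeff k := by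
    intro r hr k
    rw [aeval_eq_sum_range' hr, LinearMap.sum_apply, Finset.sum_apply,
      Finset.sum_eq_single (k : ℕ)]
    · rw [LinearMap.smul_apply, hpow k k.2, Pi.smul_apply, Pi.single_eq_same, smul_eq_mul, mul_one]
    · intro b hb hbk
      have hbn := Finset.mem_range.mp hb
      rw [LinearMap.smul_apply, hpow b hbn, Pi.smul_apply, Pi.single_eq_of_ne, smul_zero]
      intro h
      exact hbk (by rw [h])
    · intro h
      exact absurd (Finset.mem_range.mpr k.2) h
  have hkill : aeval T f v = 0 := by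
    have e1 : f = X ^ n + ∑ i ∈ Finset.range n, C (f.coeff i) * X ^ i := by
      conv_lhs => rw [hf.as_sum, hn]
    have e2 : (T ^ n) v = fun i : Fin n => - f.coeff i := by
      obtain ⟨m, rfl⟩ : ∃ m, n = m + 1 := ⟨n - 1, by omega⟩
      rw [pow_succ', Module.End.mul_apply, hpow m (by omega)]
      ext k
      rw [hcol]
      simp [cmp]
    have e3 : aeval T (∑ i ∈ Finset.range n, C (f.coeff i) * X ^ i) v =
        fun i : Fin n => f.coeff i := by
      ext k
      rw [map_sum, LinearMap.sum_apply, Finset.sum_apply, Finset.sum_eq_single (k : ℕ)]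
      · rw [map_mul, aeval_C, map_pow, aeval_X, Module.End.mul_apply,
          Module.algebraMap_end_apply, hpow k k.2, Pi.smul_apply, Pi.single_eq_same, smul_eq_mul,
          mul_one]
      · intro b hb hbk
        have hbn := Finset.mem_range.mp hb
        rw [map_mul, aeval_C, map_pow, aeval_X, Module.End.mul_apply,
          Module.algebraMap_end_apply, hpow b hbn, Pi.smul_apply, Pi.single_eq_of_ne, smul_zero]
        intro h
        exact hbk (by rw [h])
      · intro h
        exact absurd (Finset.mem_range.mpr k.2) h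
    rw [e1, map_add, LinearMap.add_apply, e3, map_pow, aeval_X, e2]
    ext k
    simp
  refine ⟨v, fun q hq => ?_⟩
  rw [← modByMonic_eq_zero_iff_dvd hf]
  have hne : f ≠ 1 := by
    rintro rfl
    rw [natDegree_one] at hn
    omega
  have hr : (q %ₘ f).natDegree < n := by
    rw [← hn]
    exact natDegree_modByMonic_lt q hf hne
  have h1 : aeval T (q %ₘ f) v = 0 := by
    have h2 : aeval T q v = aeval T (q %ₘ f) v + aeval T (q /ₘ f) (aeval T f v) := by
      rw [← Module.End.mul_apply, ← map_mul, ← LinearMap.add_apply, ← map_add, mul_comm (q /ₘ f) f,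
        modByMonic_add_div q f]
    rw [hkill, map_zero, add_zero] at h2
    rw [← h2, hq]
  ext k
  rw [coeff_zero]
  by_cases hk : k < n
  · have := hsmall _ hr ⟨k, hk⟩
    rw [h1] at this
    exact this.symm
  · exact coeff_eq_zero_of_natDegree_lt (by omega)

/-- certificate for cyclic matrices: `K` is the matrix of the vectors `T ^ i v`, `i < n` (`cmp_cyc` and `Cyc.map`) -/
theorem cyc_of_cert {f : F[X]} (hf : f.Monic) {n : ℕ} (hn : f.natDegree = n)
    {T K K' : Matrix (Fin n) (Fin n) F} (h1 : K * K' = 1) (h2 : T * K = K * cmp f n) : CycM T f := by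
  have h3 : K' * K = 1 := mul_eq_one_comm.mp h1
  let P : (Matrix (Fin n) (Fin n) F)ˣ := ⟨K, K', h1, h3⟩
  have h4 := (cmp_cyc hf hn).map P
  have h5 : (P : Matrix (Fin n) (Fin n) F) * cmp f n *
      ((P⁻¹ : (Matrix (Fin n) (Fin n) F)ˣ) : Matrix (Fin n) (Fin n) F) = T := by
    show K * cmp f n * K' = T
    rw [← h2, mul_assoc, h1, mul_one]
  rwa [h5] at h4

private theorem cycC_inter {W W' : Type*} [AddCommGroup W] [Module F W] [AddCommGroup W']
    [Module F W'] {T : Module.End F W} {T' : Module.End F W'} (φ : W →ₗ[F] W')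
    (hφ : ∀ w, φ (T w) = T' (φ w)) (q : F[X]) (w : W) :
    φ (aeval T q w) = aeval T' q (φ w) := by
  have hpow : ∀ n : ℕ, ∀ w, φ ((T ^ n) w) = (T' ^ n) (φ w) := by
    intro n
    induction n with
    | zero => intro w; simp
    | succ n ih =>
      intro w
      rw [pow_succ, pow_succ, Module.End.mul_apply, Module.End.mul_apply, ih, hφ]
  induction q using Polynomial.induction_on' with
  | add p q hp hq => rw [map_add, map_add, LinearMap.add_apply, LinearMap.add_apply, map_add, hp, hq]
  | monomial n a =>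
    rw [aeval_monomial, aeval_monomial, Module.End.mul_apply, Module.End.mul_apply,
      Module.algebraMap_end_apply, Module.algebraMap_end_apply, map_smul, hpow]

/-- Direct sums.  Cyclic vectors `v1`, `v2`; `v = (v1, v2)`.  `q (T) v = (q (N1) v1, q (N2) v2) = 0` implies `f1 ∣ q` and `f2 ∣ q`, hence
`f1 * f2 ∣ q` as they are coprime. -/
theorem cyc_blocks {ι κ : Type*} [Fintype ι] [DecidableEq ι] [Fintype κ] [DecidableEq κ]
    {N1 : Matrix ι ι F} {N2 : Matrix κ κ F} {f1 f2 : F[X]} (h1 : CycM N1 f1) (h2 : CycM N2 f2)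
    (hc : IsCoprime f1 f2) : CycM (fromBlocks N1 0 0 N2 : Matrix (ι ⊕ κ) (ι ⊕ κ) F) (f1 * f2) := by
  obtain ⟨m1, d1, v1, hv1⟩ := h1
  obtain ⟨m2, d2, v2, hv2⟩ := h2
  refine ⟨m1.mul m2, ?_, Sum.elim v1 v2, fun q hq => ?_⟩
  · rw [natDegree_mul m1.ne_zero m2.ne_zero, d1, d2]
    simp
  · apply hc.mul_dvd
    · apply hv1
      have h3 := cycC_inter (T := Matrix.toLin' (fromBlocks N1 0 0 N2 : Matrix (ι ⊕ κ) (ι ⊕ κ) F))
        (T' := Matrix.toLin' N1) (LinearMap.funLeft F F (Sum.inl : ι → ι ⊕ κ)) (fun w => by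
          ext i
          simp [LinearMap.funLeft, Matrix.mulVec, dotProduct, Fintype.sum_sum_type]) q
        (Sum.elim v1 v2)
      rw [hq, map_zero] at h3
      exact h3.symm
    · apply hv2
      have h3 := cycC_inter (T := Matrix.toLin' (fromBlocks N1 0 0 N2 : Matrix (ι ⊕ κ) (ι ⊕ κ) F))
        (T' := Matrix.toLin' N2) (LinearMap.funLeft F F (Sum.inr : κ → ι ⊕ κ)) (fun w => by
          ext i
          simp [LinearMap.funLeft, Matrix.mulVec, dotProduct, Fintype.sum_sum_type]) q
        (Sum.elim v1 v2)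
      rw [hq, map_zero] at h3
      exact h3.symm

end Th2
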