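import Mathlib

/-!
# Thompson's conjecture over the field with two elements: cyclic matrices

The modules of this folder complete `Pool/Agent/ThQ` (orthogonal groups over fields with at least three elements) by
the field with two elements.
-/

namespace Th2
open Polynomial Module Matrix

section

variable {F W : Type*} [Field F] [AddCommGroup W] [Module F W]

/-- `T` is cyclic (there is a vector `v` whose order ideal is contained in `(f)`) with characteristic polynomial `f`:
`W` is `F[X] / (f)` as a module over `F[X]`. -/
def Cyc (T : Module.End F W) (f : F[X]) : Prop :=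
  f.Monic ∧ f.natDegree = finrank F W ∧ ∃ v : W, ∀ q : F[X], aeval T q v = 0 → f ∣ q

end

section

variable {F ι : Type*} [Field F] [Fintype ι] [DecidableEq ι]

/-- the matrix `N` is cyclic with characteristic polynomial `f` -/
def CycM (N : Matrix ι ι F) (f : F[X]) : Prop := Cyc (Matrix.toLin' N) f

/-- the reciprocal polynomial, made monic -/
noncomputable def rv (f : F[X]) : F[X] := C (f.coeff 0)⁻¹ * f.reverse

end

/-- companion matrix of `f` (for `f` monic of degree `n`): `e_j ↦ e_{j+1}`, `e_{n-1} ↦ - ∑ f_i e_i` -/
def cmp {F : Type*} [Field F] (f : F[X]) (n : ℕ) : Matrix (Fin n) (Fin n) F :=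
  Matrix.of fun i j => if (j : ℕ) + 1 = n then - f.coeff i else if (i : ℕ) = j + 1 then 1 else 0

/-- the matrix of a unipotent endomorphism in a Jordan basis: `1` on the diagonal, and in the column `j ≥ 1` another `1` directly
above the diagonal if `I j` -/
def Jm (F : Type*) [Field F] (n : ℕ) (I : Fin n → Bool) : Matrix (Fin n) (Fin n) F :=
  fun i j => if i = j then 1 else if (i : ℕ) + 1 = j ∧ I j = true then 1 else 0

/-- `x ^ 3 + x + 1` -/
noncomputable def P3 : (ZMod 2)[X] := X ^ 3 + X + 1

/-- `x ^ 3 + x ^ 2 + 1` -/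
noncomputable def P3r : (ZMod 2)[X] := X ^ 3 + X ^ 2 + 1

/-- the polynomials of degree `e = 3, 4, 5, 6` -/
noncomputable def Fe (e : ℕ) : (ZMod 2)[X] :=
  if e = 5 then X ^ 5 + X ^ 2 + 1 else X ^ e + X + 1

/-- their reciprocal polynomials -/
noncomputable def Fer (e : ℕ) : (ZMod 2)[X] :=
  if e = 5 then X ^ 5 + X ^ 3 + 1 else X ^ e + X ^ (e - 1) + 1

end Th2
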