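import Pool.Agent.Th2.Defs

/-! # Module ExtA: extension of an endomorphism of a quotient -/

namespace Th2
open Polynomial Module

variable {F W : Type*} [Field F] [AddCommGroup W] [Module F W]

/-- the endomorphism of `W` with the restriction `T1` to `V1` and the induced endomorphism `Tb` of `W / V1` (`σ` is a linear section of the
quotient map), with the off diagonal part `X` -/
noncomputable def ext (V1 : Submodule F W) (σ : (W ⧸ V1) →ₗ[F] W) (hσ : ∀ z, V1.mkQ (σ z) = z)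
    (T1 : V1 →ₗ[F] V1) (Tb : Module.End F (W ⧸ V1)) (X : (W ⧸ V1) →ₗ[F] V1) : Module.End F W :=
  V1.subtype ∘ₗ T1 ∘ₗ (LinearMap.codRestrict V1 (LinearMap.id - σ ∘ₗ V1.mkQ) (fun w => by
    rw [← Submodule.Quotient.mk_eq_zero]
    show V1.mkQ (w - σ (V1.mkQ w)) = 0
    rw [map_sub, hσ, sub_self])) + V1.subtype ∘ₗ X ∘ₗ V1.mkQ + σ ∘ₗ Tb ∘ₗ V1.mkQ

private theorem ExtA_aux (V1 : Submodule F W) (σ : (W ⧸ V1) →ₗ[F] W) (hσ : ∀ z, V1.mkQ (σ z) = z) (w : W) :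
    (LinearMap.id - σ ∘ₗ V1.mkQ : W →ₗ[F] W) w ∈ V1 := by
  rw [← Submodule.Quotient.mk_eq_zero]
  show V1.mkQ (w - σ (V1.mkQ w)) = 0
  rw [map_sub, hσ, sub_self]

section

variable (V1 : Submodule F W) (σ : (W ⧸ V1) →ₗ[F] W) (hσ : ∀ z, V1.mkQ (σ z) = z)
  (T1 : V1 →ₗ[F] V1) (Tb : Module.End F (W ⧸ V1)) (X : (W ⧸ V1) →ₗ[F] V1)

theorem ext_sub (x : V1) : ext V1 σ hσ T1 Tb X x = T1 x := by
  have h0 : V1.mkQ (x : W) = 0 := by simp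
  have h1 : (LinearMap.codRestrict V1 (LinearMap.id - σ ∘ₗ V1.mkQ) (ExtA_aux V1 σ hσ)) (x : W) = x := by
    apply Subtype.ext
    show (x : W) - σ (V1.mkQ (x : W)) = x
    rw [h0, map_zero, sub_zero]
  have h2 : ext V1 σ hσ T1 Tb X x = (T1 ((LinearMap.codRestrict V1 (LinearMap.id - σ ∘ₗ V1.mkQ) (ExtA_aux V1 σ hσ)) (x : W)) : W)
      + (X (V1.mkQ (x : W)) : W) + σ (Tb (V1.mkQ (x : W))) := rfl
  rw [h2, h1, h0]; simp

theorem ext_mk (w : W) : V1.mkQ (ext V1 σ hσ T1 Tb X w) = Tb (V1.mkQ w) := by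
  have h2 : ext V1 σ hσ T1 Tb X w = (T1 ((LinearMap.codRestrict V1 (LinearMap.id - σ ∘ₗ V1.mkQ) (ExtA_aux V1 σ hσ)) w) : W)
      + (X (V1.mkQ w) : W) + σ (Tb (V1.mkQ w)) := rfl
  have h3 : ∀ y : V1, V1.mkQ (y : W) = 0 := fun y => by simp
  rw [h2, map_add, map_add, h3, h3, hσ]; simp

theorem ext_sec (z : W ⧸ V1) : ext V1 σ hσ T1 Tb X (σ z) = X z + σ (Tb z) := by
  have h1 : (LinearMap.codRestrict V1 (LinearMap.id - σ ∘ₗ V1.mkQ) (ExtA_aux V1 σ hσ)) (σ z) = 0 := by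
    apply Subtype.ext
    show σ z - σ (V1.mkQ (σ z)) = 0
    rw [hσ, sub_self]
  have h2 : ext V1 σ hσ T1 Tb X (σ z) = (T1 ((LinearMap.codRestrict V1 (LinearMap.id - σ ∘ₗ V1.mkQ) (ExtA_aux V1 σ hσ)) (σ z)) : W)
      + (X (V1.mkQ (σ z)) : W) + σ (Tb (V1.mkQ (σ z))) := rfl
  rw [h2, h1, hσ]; simp

theorem ext_add (w : W) : ext V1 σ hσ T1 Tb X w = ext V1 σ hσ T1 Tb 0 w + X (V1.mkQ w) := by
  have h2 : ∀ Y : (W ⧸ V1) →ₗ[F] V1, ext V1 σ hσ T1 Tb Y w = (T1 ((LinearMap.codRestrict V1 (LinearMap.id - σ ∘ₗ V1.mkQ) (ExtA_aux V1 σ hσ)) w) : W)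
      + (Y (V1.mkQ w) : W) + σ (Tb (V1.mkQ w)) := fun _ => rfl
  rw [h2, h2]; simp; abel

end

end Th2
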