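import Pool.Agent.Th2.Defs

/-! # Module ExtB: dependence of `h (T)` on the off diagonal part -/

namespace Th2
open Polynomial Module

variable {F W : Type*} [Field F] [AddCommGroup W] [Module F W]

private noncomputable def ExtB_S (V1 : Submodule F W) (T1 : V1 →ₗ[F] V1) (Tb : Module.End F (W ⧸ V1)) (z : W ⧸ V1) :
    ℕ → (((W ⧸ V1) →ₗ[F] V1) →ₗ[F] V1)
  | 0 => 0
  | (j + 1) => T1 ∘ₗ ExtB_S V1 T1 Tb z j + LinearMap.applyₗ ((Tb ^ j) z)

private theorem ExtB_S_succ (V1 : Submodule F W) (T1 : V1 →ₗ[F] V1) (Tb : Module.End F (W ⧸ V1)) (z : W ⧸ V1) (j : ℕ)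
    (X : (W ⧸ V1) →ₗ[F] V1) : ExtB_S V1 T1 Tb z (j + 1) X = T1 (ExtB_S V1 T1 Tb z j X) + X ((Tb ^ j) z) := rfl

private theorem ExtB_pow_mk (V1 : Submodule F W) (T0 : Module.End F W) (Tb : Module.End F (W ⧸ V1))
    (h2 : ∀ w, V1.mkQ (T0 w) = Tb (V1.mkQ w)) (v : W) (j : ℕ) : V1.mkQ ((T0 ^ j) v) = (Tb ^ j) (V1.mkQ v) := by
  induction j with
  | zero => rfl
  | succ j ih => rw [pow_succ', pow_succ', Module.End.mul_apply, Module.End.mul_apply, h2, ih]

private theorem ExtB_pow (V1 : Submodule F W) (T0 : Module.End F W) (T1 : V1 →ₗ[F] V1)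
    (Tb : Module.End F (W ⧸ V1)) (h1 : ∀ x : V1, T0 x = T1 x) (h2 : ∀ w, V1.mkQ (T0 w) = Tb (V1.mkQ w)) (v : W)
    (X : (W ⧸ V1) →ₗ[F] V1) (j : ℕ) :
    ((T0 + V1.subtype ∘ₗ X ∘ₗ V1.mkQ : Module.End F W) ^ j) v = (T0 ^ j) v + ExtB_S V1 T1 Tb (V1.mkQ v) j X := by
  induction j with
  | zero => simp [ExtB_S]
  | succ j ih =>
    rw [pow_succ', pow_succ', Module.End.mul_apply, Module.End.mul_apply, ih, ExtB_S_succ]
    have e : ∀ w, (T0 + V1.subtype ∘ₗ X ∘ₗ V1.mkQ : Module.End F W) w = T0 w + X (V1.mkQ w) := fun _ => rfl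
    have e3 : ∀ y : V1, V1.mkQ (y : W) = 0 := fun y => by simp
    rw [e, map_add, map_add, e3, add_zero, h1, ExtB_pow_mk V1 T0 Tb h2]
    push_cast
    abel

private theorem ExtB_li (V1 : Submodule F W) (Tb : Module.End F (W ⧸ V1)) (h : F[X]) (z : W ⧸ V1)
    (hv : ∀ q : F[X], aeval Tb q z = 0 → h ∣ q) (d : ℕ) (hd : h.natDegree = d) :
    LinearIndependent F (fun i : Fin d => (Tb ^ (i : ℕ)) z) := by
  rw [Fintype.linearIndependent_iff]
  intro g hg i
  have h1 : aeval Tb (∑ i : Fin d, C (g i) * X ^ (i : ℕ) : F[X]) z = 0 := by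
    rw [map_sum, LinearMap.sum_apply, ← hg]
    apply Finset.sum_congr rfl
    intro i _
    simp [Algebra.algebraMap_eq_smul_one]
  have h2 := hv _ h1
  have h3 : (∑ i : Fin d, C (g i) * X ^ (i : ℕ) : F[X]) = 0 := by
    apply Polynomial.eq_zero_of_dvd_of_degree_lt h2
    have hd0 : 0 < d := i.pos
    have hh : h ≠ 0 := by
      rintro rfl
      simp at hd
      omega
    rw [Polynomial.degree_eq_natDegree hh, hd]
    exact Polynomial.degree_sum_fin_lt g
  have h4 := congrArg (fun p => Polynomial.coeff p (i : ℕ)) h3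
  simp only [Polynomial.finsetSum_coeff, Polynomial.coeff_C_mul, Polynomial.coeff_X_pow, Polynomial.coeff_zero] at h4
  rw [Finset.sum_eq_single i] at h4
  · simpa using h4
  · intro b _ hb
    have : ¬ ((i : ℕ) = (b : ℕ)) := fun h => hb (Fin.ext h.symm)
    simp [this]
  · simp

/-- Let `T` (depending linearly on `X`) be an endomorphism of `W` of the form `T = T0 + ι ∘ X ∘ π` where `T0` maps `V1` to `V1` with the
restriction `T1` and induces `Tb` on `W / V1`; `z` a cyclic vector of `Tb`, `v = σ z` any lift, `h` monic of degree `d = dim W / V1`.  Then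
`h (T) v = h (T0) v + ι (D X)` with a linear map `D` from `Hom (W / V1, V1)` ONTO `V1`.
Proof: by induction on `j`: `T ^ j v = T0 ^ j v + ι (∑_{l < j} T1 ^ (j - 1 - l) X (Tb ^ l z))`; so
`D X = ∑_j h_j ∑_{l < j} T1 ^ (j - 1 - l) X (Tb ^ l z)`.  Onto: the vectors `Tb ^ l z`, `l < d`, are linearly independent; if `d ≥ 1`
let `φ` be a functional with `φ (Tb ^ l z) = 0` for `l < d - 1` and `= 1` for `l = d - 1`; for `X = φ ⊗ x` only `j = d`, `l = d - 1` contributes and
`D X = x` (`h` is monic). -/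
theorem dmap [FiniteDimensional F W] (V1 : Submodule F W) (hne : V1 ≠ ⊤) (T0 : Module.End F W) (T1 : V1 →ₗ[F] V1)
    (Tb : Module.End F (W ⧸ V1)) (h1 : ∀ x : V1, T0 x = T1 x) (h2 : ∀ w, V1.mkQ (T0 w) = Tb (V1.mkQ w))
    (h : F[X]) (hm : h.Monic) (hd : h.natDegree = finrank F (W ⧸ V1)) (v : W)
    (hv : ∀ q : F[X], aeval Tb q (V1.mkQ v) = 0 → h ∣ q) :
    ∃ D : ((W ⧸ V1) →ₗ[F] V1) →ₗ[F] V1, Function.Surjective D ∧ ∀ X : (W ⧸ V1) →ₗ[F] V1,
      aeval (T0 + V1.subtype ∘ₗ X ∘ₗ V1.mkQ : Module.End F W) h v = aeval T0 h v + D X := by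
  classical
  have hd0 : 0 < h.natDegree := by
    rw [hd]
    have : Nontrivial (W ⧸ V1) := Submodule.Quotient.nontrivial_iff.2 hne
    exact Module.finrank_pos
  have hli := ExtB_li V1 Tb h (V1.mkQ v) hv h.natDegree rfl
  refine ⟨∑ j ∈ Finset.range (h.natDegree + 1), h.coeff j • ExtB_S V1 T1 Tb (V1.mkQ v) j, ?_, ?_⟩
  · intro x
    have : Nonempty (Fin h.natDegree) := ⟨⟨0, hd0⟩⟩
    set b := basisOfLinearIndependentOfCardEqFinrank hli (by simp [hd]) with hb
    have hbi : ∀ i : Fin h.natDegree, b i = (Tb ^ (i : ℕ)) (V1.mkQ v) := fun i => by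
      rw [hb, coe_basisOfLinearIndependentOfCardEqFinrank]
    set X0 : (W ⧸ V1) →ₗ[F] V1 := (b.coord ⟨h.natDegree - 1, by omega⟩).smulRight x with hX0
    have hX : ∀ j : ℕ, j < h.natDegree → X0 ((Tb ^ j) (V1.mkQ v)) = if j = h.natDegree - 1 then x else 0 := by
      intro j hj
      have e1 := hbi ⟨j, hj⟩
      simp only at e1
      rw [hX0, ← e1, LinearMap.smulRight_apply, Basis.coord_apply, Basis.repr_self, Finsupp.single_apply]
      by_cases hj2 : j = h.natDegree - 1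
      · subst hj2; simp
      · rw [if_neg hj2, if_neg (fun h => hj2 (by simpa using congrArg Fin.val h)), zero_smul]
    have hS : ∀ j : ℕ, j < h.natDegree → ExtB_S V1 T1 Tb (V1.mkQ v) j X0 = 0 := by
      intro j
      induction j with
      | zero => intro _; rfl
      | succ j ih =>
        intro hj
        rw [ExtB_S_succ, ih (by omega), hX j (by omega), if_neg (by omega), map_zero, add_zero]
    refine ⟨X0, ?_⟩
    rw [LinearMap.sum_apply, Finset.sum_range_succ, Finset.sum_eq_zero, zero_add]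
    · rw [LinearMap.smul_apply, Polynomial.Monic.coeff_natDegree hm, one_smul]
      obtain ⟨m, hm'⟩ : ∃ m, h.natDegree = m + 1 := ⟨h.natDegree - 1, by omega⟩
      rw [hm', ExtB_S_succ, hS m (by omega), hX m (by omega), if_pos (by omega), map_zero, zero_add]
    · intro j hj
      rw [LinearMap.smul_apply, hS j (by simpa using hj), smul_zero]
  · intro X
    rw [Polynomial.aeval_eq_sum_range, Polynomial.aeval_eq_sum_range, LinearMap.sum_apply, LinearMap.sum_apply, LinearMap.sum_apply]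
    push_cast
    rw [← Finset.sum_add_distrib]
    apply Finset.sum_congr rfl
    intro j _
    rw [LinearMap.smul_apply, LinearMap.smul_apply, LinearMap.smul_apply, ExtB_pow V1 T0 T1 Tb h1 h2, smul_add]
    rfl

end Th2
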