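import Pool.Agent.Th2.Glue
import Pool.Agent.Th2.CycA

/-! # Module ExtC: extension in the coprime case -/

namespace Th2
open Polynomial Module

variable {F W : Type*} [Field F] [AddCommGroup W] [Module F W]

/-- `p` does not divide `h`: every `T` works.  `h (T)` maps `V1` to `V1` bijectively (`p (T) = 0` on `V1`, `p`, `h` coprime), so there is
`x ∈ V1` with `h (T) (σ z + x) ≠ 0` (`V1 ≠ 0` since `p` has positive degree); now `glue` with `v = σ z + x`. -/
theorem glue_coprime [FiniteDimensional F W] {p h : F[X]} (hp : Irreducible p) (hpm : p.Monic)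
    (hph : ¬ p ∣ h) (T : Module.End F W) (V1 : Submodule F W) (hT : V1 ≤ V1.comap T)
    (hd : finrank F V1 = p.natDegree) (hk : ∀ x ∈ V1, aeval T p x = 0)
    (hb : Cyc (V1.mapQ V1 T hT : Module.End F (W ⧸ V1)) h) : Cyc T (p * h) := by
  have hkill := hb.kill
  obtain ⟨hhm, hdeg, z, hz⟩ := hb
  obtain ⟨w, rfl⟩ := V1.mkQ_surjective z
  have hcop : IsCoprime p h := (hp.coprime_iff_not_dvd).2 hph
  obtain ⟨a, b, hab⟩ := hcop
  have hpos : 0 < finrank F V1 := by
    rw [hd]
    exact hp.natDegree_pos
  have : Nontrivial V1 := Module.finrank_pos_iff.1 hpos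
  obtain ⟨x, hx⟩ := exists_ne (0 : V1)
  have hx0 : (x : W) ≠ 0 := fun h => hx (Subtype.ext h)
  have hhx : aeval T h (x : W) ≠ 0 := by
    intro h0
    apply hx0
    have h1 : aeval T (a * p + b * h) (x : W) = x := by
      rw [hab, map_one, Module.End.one_apply]
    rw [map_add, map_mul, map_mul, LinearMap.add_apply, Module.End.mul_apply, Module.End.mul_apply,
      hk x x.2, h0, map_zero, map_zero, add_zero] at h1
    exact h1.symm
  have key : ∀ v : W, V1.mkQ v = V1.mkQ w → aeval T h v ≠ 0 → Cyc T (p * h) := by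
    intro v hv h1
    refine glue hp hpm hhm T V1 hT hd hk hdeg v ?_ ?_ h1
    · intro q hq
      rw [hv] at hq
      exact hz q hq
    · rw [hkill, LinearMap.zero_apply]
  by_cases h0 : aeval T h w = 0
  · refine key (w + x) ?_ ?_
    · rw [map_add, add_eq_left, Submodule.mkQ_apply, Submodule.Quotient.mk_eq_zero]
      exact x.2
    · rw [map_add, h0, zero_add]
      exact hhx
  · exact key w rfl h0

end Th2
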