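import Pool.Agent.Th2.Aff
import Pool.Agent.Th2.ExtA
import Pool.Agent.Th2.ExtB
import Pool.Agent.Th2.ExtC

/-! # Module Ext: simultaneous extension of two cyclic endomorphisms -/

namespace Th2
open Polynomial Module

variable {F W : Type*} [Field F] [AddCommGroup W] [Module F W]

private theorem Ext_aeval {V1 : Submodule F W} {T : Module.End F W} {S : V1 →ₗ[F] V1}
    (h : ∀ x : V1, T x = S x) (q : F[X]) (x : V1) :
    aeval T q (x : W) = ((aeval (S : Module.End F V1) q x : V1) : W) := by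
  have hpow : ∀ (n : ℕ) (x : V1), (T ^ n) (x : W) = (((S : Module.End F V1) ^ n) x : V1) := by
    intro n
    induction n with
    | zero => intro x; simp
    | succ n ih =>
      intro x
      rw [pow_succ, pow_succ]
      show (T ^ n) (T x) = (((S : Module.End F V1) ^ n) (S x) : V1)
      rw [h x]
      exact ih (S x)
  induction q using Polynomial.induction_on' with
  | add f g hf hg =>
    rw [map_add, map_add, LinearMap.add_apply, LinearMap.add_apply, hf, hg]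
    rfl
  | monomial n c =>
    rw [aeval_monomial, aeval_monomial]
    show algebraMap F (Module.End F W) c ((T ^ n) x) =
      (((algebraMap F (Module.End F V1) c) (((S : Module.End F V1) ^ n) x) : V1) : W)
    rw [hpow]
    rfl

private theorem Ext_glue [FiniteDimensional F W] {p h : F[X]} (hp : Irreducible p) (hpm : p.Monic)
    (T : Module.End F W) (V1 : Submodule F W) (S : V1 →ₗ[F] V1) (Tb : Module.End F (W ⧸ V1))
    (hS : ∀ x : V1, T x = S x) (hTb : ∀ w, V1.mkQ (T w) = Tb (V1.mkQ w))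
    (hd : finrank F V1 = p.natDegree) (hk : aeval (S : Module.End F V1) p = 0) (hb : Cyc Tb h) :
    (¬ p ∣ h → Cyc T (p * h)) ∧
    ∀ v : W, (∀ q : F[X], aeval Tb q (V1.mkQ v) = 0 → h ∣ q) → aeval T h v ≠ 0 →
      Cyc T (p * h) := by
  have hT : V1 ≤ V1.comap T := fun x hx => by
    rw [Submodule.mem_comap]
    have := hS ⟨x, hx⟩
    simp only at this
    rw [this]
    exact (S ⟨x, hx⟩).2
  have hk' : ∀ x ∈ V1, aeval T p x = 0 := fun x hx => by
    have := Ext_aeval hS p ⟨x, hx⟩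
    simp only at this
    rw [this, hk]
    rfl
  have hQ : (V1.mapQ V1 T hT : Module.End F (W ⧸ V1)) = Tb := by
    apply LinearMap.ext
    intro z
    obtain ⟨w, rfl⟩ := V1.mkQ_surjective z
    rw [← hTb]
    rfl
  refine ⟨fun hph => glue_coprime hp hpm hph T V1 hT hd hk' (by rw [hQ]; exact hb), ?_⟩
  intro v hv hv1
  refine glue hp hpm hb.1 T V1 hT hd hk' hb.2.1 v ?_ ?_ hv1
  · rw [hQ]
    exact hv
  · rw [hQ, Cyc.kill hb]
    rfl

/-- The step of the induction.  `a` maps `V1` to `V1` (injectively on `V1`), `a1` is the restriction; `T1` and `a1 T1` are killed by `p`; `Tb` and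
`ab Tb` are cyclic with `h1`, `h2` (`ab = V1.mapQ V1 a ha`).  Then there is `T` with `Cyc T (p * h1)`, `Cyc (a * T) (p * h2)`.
Choose a linear section `σ` of the quotient map and put `T = ext V1 σ hσ T1 Tb X`; `a * T` preserves `V1`, its restriction is `a1 T1` and it induces
`ab Tb`.  If `p` divides neither `h1` nor `h2`, take `X = 0` and `glue_coprime` twice.  If `p` divides both: `V1 ≠ ⊤` (otherwise `h1 = 1`);
`T = T0 + ι X π` and `a T = a T0 + ι (a1 X) π`; let `D`, `D'` be the maps of `dmap` for `T` and `a T` (with cyclic vectors `z`, `z'` and the lifts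
`σ z`, `σ z'`); `X ↦ D X` and `X ↦ D' (a1 ∘ X)` are onto `V1` (`a1` is bijective), so by `aff` (a finite field extension of degree at least
... : `h3`) there is `X` with `h1 (T) (σ z) ≠ 0` and `h2 (a T) (σ z') ≠ 0`; `glue` twice (`hv0` is `Cyc.kill`). -/
theorem step [FiniteDimensional F W] {p h1 h2 : F[X]} (hp : Irreducible p) (hpm : p.Monic)
    (a : Module.End F W) (V1 : Submodule F W) (ha : V1 ≤ V1.comap a) (hai : ∀ x ∈ V1, a x = 0 → x = 0)
    (hd : finrank F V1 = p.natDegree) (h3 : ∀ x y : V1, ∃ z : V1, z ≠ x ∧ z ≠ y)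
    (T1 : V1 →ₗ[F] V1) (hT1 : aeval T1 p = 0)
    (hN1 : aeval ((a.restrict ha : V1 →ₗ[F] V1) ∘ₗ T1 : Module.End F V1) p = 0)
    (Tb : Module.End F (W ⧸ V1)) (hb1 : Cyc Tb h1)
    (hb2 : Cyc ((V1.mapQ V1 a ha : Module.End F (W ⧸ V1)) * Tb) h2) (hc : p ∣ h1 ↔ p ∣ h2) :
    ∃ T : Module.End F W, Cyc T (p * h1) ∧ Cyc (a * T) (p * h2) := by
  obtain ⟨σ, hσ0⟩ := LinearMap.exists_rightInverse_of_surjective V1.mkQ
    (LinearMap.range_eq_top.2 V1.mkQ_surjective)
  have hσ : ∀ z, V1.mkQ (σ z) = z := fun z => by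
    have := congrArg (fun f => f z) hσ0
    exact this
  set a1 : V1 →ₗ[F] V1 := a.restrict ha with ha1
  set ab : Module.End F (W ⧸ V1) := V1.mapQ V1 a ha with hab
  have ha1v : ∀ x : V1, a (x : W) = (a1 x : W) := fun x => rfl
  have habv : ∀ w : W, V1.mkQ (a w) = ab (V1.mkQ w) := fun w => rfl
  -- the two families
  have hS1 : ∀ (X : (W ⧸ V1) →ₗ[F] V1) (x : V1), ext V1 σ hσ T1 Tb X x = T1 x := fun X x =>
    ext_sub V1 σ hσ T1 Tb X x
  have hQ1 : ∀ (X : (W ⧸ V1) →ₗ[F] V1) (w : W),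
      V1.mkQ (ext V1 σ hσ T1 Tb X w) = Tb (V1.mkQ w) := fun X w => ext_mk V1 σ hσ T1 Tb X w
  have hS2 : ∀ (X : (W ⧸ V1) →ₗ[F] V1) (x : V1),
      (a * ext V1 σ hσ T1 Tb X : Module.End F W) x = (a1 ∘ₗ T1) x := fun X x => by
    show a (ext V1 σ hσ T1 Tb X x) = (a1 (T1 x) : W)
    rw [hS1]
    rfl
  have hQ2 : ∀ (X : (W ⧸ V1) →ₗ[F] V1) (w : W),
      V1.mkQ ((a * ext V1 σ hσ T1 Tb X : Module.End F W) w) = (ab * Tb) (V1.mkQ w) := fun X w => by
    show V1.mkQ (a (ext V1 σ hσ T1 Tb X w)) = ab (Tb (V1.mkQ w))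
    rw [habv, hQ1]
  by_cases hdiv : p ∣ h1
  · have hdiv2 : p ∣ h2 := hc.1 hdiv
    have hne : V1 ≠ ⊤ := by
      intro htop
      have hfr : finrank F (W ⧸ V1) = 0 := by
        have := Submodule.finrank_quotient_add_finrank V1
        rw [htop, finrank_top] at this
        rw [htop]
        omega
      have hdeg : h1.natDegree = 0 := by rw [hb1.2.1, hfr]
      have h1one : h1 = 1 := hb1.1.natDegree_eq_zero.1 hdeg
      rw [h1one] at hdiv
      exact hp.not_isUnit (isUnit_of_dvd_one hdiv)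
    obtain ⟨z, hz⟩ := hb1.2.2
    obtain ⟨z', hz'⟩ := hb2.2.2
    obtain ⟨D, hD, hDX⟩ := dmap V1 hne (ext V1 σ hσ T1 Tb 0) T1 Tb (hS1 0) (hQ1 0) h1 hb1.1 hb1.2.1
      (σ z) (by rw [hσ]; exact hz)
    obtain ⟨D', hD', hDX'⟩ := dmap V1 hne (a * ext V1 σ hσ T1 Tb 0) (a1 ∘ₗ T1) (ab * Tb) (hS2 0)
      (hQ2 0) h2 hb2.1 hb2.2.1 (σ z') (by rw [hσ]; exact hz')
    have hTX : ∀ X : (W ⧸ V1) →ₗ[F] V1, ext V1 σ hσ T1 Tb X =
        ext V1 σ hσ T1 Tb 0 + V1.subtype ∘ₗ X ∘ₗ V1.mkQ := fun X => by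
      apply LinearMap.ext
      intro w
      exact ext_add V1 σ hσ T1 Tb X w
    have hNX : ∀ X : (W ⧸ V1) →ₗ[F] V1, (a * ext V1 σ hσ T1 Tb X : Module.End F W) =
        a * ext V1 σ hσ T1 Tb 0 + V1.subtype ∘ₗ (a1 ∘ₗ X) ∘ₗ V1.mkQ := fun X => by
      apply LinearMap.ext
      intro w
      show a (ext V1 σ hσ T1 Tb X w) = a (ext V1 σ hσ T1 Tb 0 w) + (a1 (X (V1.mkQ w)) : W)
      rw [ext_add V1 σ hσ T1 Tb X w, map_add]
      rfl
    -- the values in `V1`
    have hmem : aeval (ext V1 σ hσ T1 Tb 0) h1 (σ z) ∈ V1 := by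
      have hT : V1 ≤ V1.comap (ext V1 σ hσ T1 Tb 0) := fun x hx => by
        rw [Submodule.mem_comap]
        have := hS1 0 ⟨x, hx⟩
        simp only at this
        rw [this]
        exact (T1 ⟨x, hx⟩).2
      have hQ : (V1.mapQ V1 (ext V1 σ hσ T1 Tb 0) hT : Module.End F (W ⧸ V1)) = Tb := by
        apply LinearMap.ext
        intro y
        obtain ⟨w, rfl⟩ := V1.mkQ_surjective y
        rw [← hQ1 0]
        rfl
      have h5 := mkQ_aeval V1 (ext V1 σ hσ T1 Tb 0) hT h1 (σ z)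
      rw [hQ, Cyc.kill hb1] at h5
      exact (Submodule.Quotient.mk_eq_zero V1).1 h5
    have hmem' : aeval (a * ext V1 σ hσ T1 Tb 0) h2 (σ z') ∈ V1 := by
      have hT : V1 ≤ V1.comap (a * ext V1 σ hσ T1 Tb 0) := fun x hx => by
        rw [Submodule.mem_comap]
        have := hS2 0 ⟨x, hx⟩
        simp only at this
        rw [this]
        exact ((a1 ∘ₗ T1) ⟨x, hx⟩).2
      have hQ : (V1.mapQ V1 (a * ext V1 σ hσ T1 Tb 0) hT : Module.End F (W ⧸ V1)) = ab * Tb := by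
        apply LinearMap.ext
        intro y
        obtain ⟨w, rfl⟩ := V1.mkQ_surjective y
        rw [← hQ2 0]
        rfl
      have h5 := mkQ_aeval V1 (a * ext V1 σ hσ T1 Tb 0) hT h2 (σ z')
      rw [hQ, Cyc.kill hb2] at h5
      exact (Submodule.Quotient.mk_eq_zero V1).1 h5
    -- the second map is onto
    have ha1i : Function.Injective a1 := by
      rw [injective_iff_map_eq_zero]
      intro x hx
      have h6 : a (x : W) = 0 := by
        rw [ha1v, hx]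
        rfl
      exact Subtype.ext (hai x x.2 h6)
    set e : V1 ≃ₗ[F] V1 := LinearEquiv.ofInjectiveEndo a1 ha1i with he
    have hev : ∀ x, e x = a1 x := fun x => by
      rw [he]
      rfl
    let L2 : ((W ⧸ V1) →ₗ[F] V1) →ₗ[F] V1 :=
      D' ∘ₗ (LinearMap.compRight F a1 : ((W ⧸ V1) →ₗ[F] V1) →ₗ[F] ((W ⧸ V1) →ₗ[F] V1))
    have hL2 : ∀ X, L2 X = D' (a1 ∘ₗ X) := fun X => rfl
    have hL2s : Function.Surjective L2 := by
      intro y
      obtain ⟨Y, hY⟩ := hD' y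
      refine ⟨(e.symm : V1 →ₗ[F] V1) ∘ₗ Y, ?_⟩
      rw [hL2, ← hY]
      congr 1
      apply LinearMap.ext
      intro w
      show a1 (e.symm (Y w)) = Y w
      rw [← hev, LinearEquiv.apply_symm_apply]
    obtain ⟨X, hX1, hX2⟩ := aff D L2 hD hL2s h3
      (-⟨aeval (ext V1 σ hσ T1 Tb 0) h1 (σ z), hmem⟩)
      (-⟨aeval (a * ext V1 σ hσ T1 Tb 0) h2 (σ z'), hmem'⟩)
    refine ⟨ext V1 σ hσ T1 Tb X, ?_, ?_⟩
    · refine (Ext_glue hp hpm _ V1 T1 Tb (hS1 X) (hQ1 X) hd hT1 hb1).2 (σ z)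
        (by rw [hσ]; exact hz) ?_
      rw [hTX X, hDX X]
      intro h0
      apply hX1
      apply Subtype.ext
      rw [Submodule.coe_neg]
      exact eq_neg_of_add_eq_zero_right h0
    · refine (Ext_glue hp hpm _ V1 (a1 ∘ₗ T1) (ab * Tb) (hS2 X) (hQ2 X) hd hN1 hb2).2 (σ z')
        (by rw [hσ]; exact hz') ?_
      rw [hNX X, hDX' (a1 ∘ₗ X)]
      intro h0
      apply hX2
      apply Subtype.ext
      rw [Submodule.coe_neg, hL2]
      exact eq_neg_of_add_eq_zero_right h0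
  · have hdiv2 : ¬ p ∣ h2 := fun h => hdiv (hc.2 h)
    exact ⟨ext V1 σ hσ T1 Tb 0,
      (Ext_glue hp hpm _ V1 T1 Tb (hS1 0) (hQ1 0) hd hT1 hb1).1 hdiv,
      (Ext_glue hp hpm _ V1 (a1 ∘ₗ T1) (ab * Tb) (hS2 0) (hQ2 0) hd hN1 hb2).1 hdiv2⟩

end Th2
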