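import Pool.Agent.Th2.TabDefs

/-! # Tables: certificates -/

namespace Th2
open Polynomial Module Matrix

/-- the matrix with the rows `l` (binary) -/
def bm (e : ℕ) (l : List ℕ) : Matrix (Fin e) (Fin e) (ZMod 2) :=
  fun i j => if (l.getD i 0).testBit j then 1 else 0

/-- the exponents of `Fe e` and `Fer e` between `0` and `e` -/
def xp (e : ℕ) (b : Bool) : ℕ := if b then (if e = 5 then 2 else 1) else (if e = 5 then 3 else e - 1)

/-- the companion matrix in a computable form -/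
def cmb (e : ℕ) (b : Bool) : Matrix (Fin e) (Fin e) (ZMod 2) :=
  fun i j => if (j : ℕ) + 1 = e then (if (i : ℕ) = 0 ∨ (i : ℕ) = xp e b then 1 else 0)
    else if (i : ℕ) = j + 1 then 1 else 0

/-- the check of a certificate -/
def chk (e : ℕ) (a : Matrix (Fin e) (Fin e) (ZMod 2))
    (c : Bool × List ℕ × List ℕ × List ℕ × List ℕ × List ℕ) : Bool :=
  decide (bm e c.2.2.1 * bm e c.2.2.2.1 = 1) &&
  decide (bm e c.2.1 * bm e c.2.2.1 = bm e c.2.2.1 * cmb e c.1) &&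
  decide (bm e c.2.2.2.2.1 * bm e c.2.2.2.2.2 = 1) &&
  decide ((a * bm e c.2.1) * bm e c.2.2.2.2.1 = bm e c.2.2.2.2.1 * cmb e true)

theorem cmp_Fe {e : ℕ} (he : 3 ≤ e ∧ e ≤ 6) : cmp (Fe e) e = cmb e true := by
  have h : e = 3 ∨ e = 4 ∨ e = 5 ∨ e = 6 := by omega
  rcases h with rfl | rfl | rfl | rfl <;>
  · ext i j
    fin_cases i <;> fin_cases j <;> simp [cmp, cmb, xp, Fe, coeff_X, coeff_one, coeff_X_pow]

theorem cmp_Fer {e : ℕ} (he : 3 ≤ e ∧ e ≤ 6) : cmp (Fer e) e = cmb e false := by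
  have h : e = 3 ∨ e = 4 ∨ e = 5 ∨ e = 6 := by omega
  rcases h with rfl | rfl | rfl | rfl <;>
  · ext i j
    fin_cases i <;> fin_cases j <;> simp [cmp, cmb, xp, Fer, coeff_one, coeff_X_pow]

theorem tabl_chk {e : ℕ} (he : 3 ≤ e ∧ e ≤ 6) {a : Matrix (Fin e) (Fin e) (ZMod 2)}
    {c : Bool × List ℕ × List ℕ × List ℕ × List ℕ × List ℕ} (h : chk e a c = true) : Tabl e a := by
  unfold chk at h
  simp only [Bool.and_eq_true, decide_eq_true_eq] at h
  obtain ⟨⟨⟨h1, h2⟩, h3⟩, h4⟩ := h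
  refine ⟨bm e c.2.1, ?_, ?_⟩
  · exact cyc_of_cert (Fe_monic he).1 (Fe_monic he).2.1 h3 (by rw [cmp_Fe he]; exact h4)
  · rcases hc : c.1 with _ | _
    · right
      exact cyc_of_cert (Fer_monic he).1 (Fer_monic he).2.1 h1 (by rw [cmp_Fer he, ← hc]; exact h2)
    · left
      exact cyc_of_cert (Fe_monic he).1 (Fe_monic he).2.1 h1 (by rw [cmp_Fe he, ← hc]; exact h2)

theorem Jm_congr {F : Type*} [Field F] {n : ℕ} {I I' : Fin n → Bool} (h : ∀ j : Fin n, 0 < (j : ℕ) → I j = I' j) :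
    Jm F n I = Jm F n I' := by
  funext i j
  unfold Jm
  by_cases hij : (i : ℕ) + 1 = j
  · rw [h j (by omega)]
  · simp [hij]

end Th2
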