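import Pool.Agent.Th2.TabDefs
import Pool.Agent.Th2.TabB

/-! # Table for `e = 4` (certificates found by computer, checked by the kernel) -/

namespace Th2
open Polynomial Module Matrix

/-- certificates: `T` is of type `Fe e` (`true`) or `Fer e` (`false`); rows of `T`, `K`, `K⁻¹`, `L`, `L⁻¹` -/
def dat4 : List (Bool × List ℕ × List ℕ × List ℕ × List ℕ × List ℕ) := [
  (true, [5, 4, 14, 3], [7, 8, 4, 14], [11, 14, 4, 2], [7, 8, 4, 14], [11, 14, 4, 2]),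
  (false, [13, 11, 15, 5], [15, 6, 2, 10], [15, 4, 6, 12], [9, 10, 6, 14], [13, 14, 10, 12]),
  (false, [15, 1, 6, 12], [3, 6, 4, 8], [7, 6, 4, 8], [11, 10, 12, 8], [3, 10, 12, 8]),
  (true, [10, 15, 6, 2], [5, 6, 4, 12], [5, 6, 4, 12], [7, 6, 4, 12], [3, 6, 4, 12]),
  (false, [9, 3, 7, 5], [3, 2, 14, 10], [3, 2, 12, 10], [11, 2, 4, 14], [13, 2, 4, 14]),
  (true, [2, 14, 5, 3], [1, 8, 14, 2], [1, 8, 14, 2], [5, 12, 8, 2], [7, 8, 6, 4]),
  (true, [4, 1, 13, 10], [13, 10, 14, 12], [9, 12, 6, 14], [13, 12, 14, 8], [3, 6, 10, 8]),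
  (false, [2, 6, 14, 9], [1, 8, 4, 14], [1, 14, 4, 2], [13, 12, 14, 6], [3, 6, 14, 12])]

theorem chk4 : ∀ b1 b2 b3 : Bool, chk 4 (Jm (ZMod 2) 4 ![false, b1, b2, b3]) (dat4.getD ((if b1 then 1 else 0) + (if b2 then 2 else 0) + (if b3 then 4 else 0)) default) = true := by
  decide +kernel

theorem tab_uni4 (I : Fin 4 → Bool) : Tabl 4 (Jm (ZMod 2) 4 I) := by
  have h : Jm (ZMod 2) 4 I = Jm (ZMod 2) 4 ![false, I 1, I 2, I 3] := by
    apply Jm_congr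
    intro j hj
    fin_cases j <;> first | exact absurd hj (by decide) | rfl
  rw [h]
  exact tabl_chk (by decide) (chk4 (I 1) (I 2) (I 3))

theorem tab_o3_4 : Tabl 4 (O3 4) :=
  tabl_chk (c := (false, [6, 10, 14, 11], [1, 4, 12, 6], [1, 10, 2, 6], [5, 4, 12, 14], [3, 12, 2, 6])) (by decide) (by decide +kernel)

end Th2
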