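import Pool.Agent.Th2.TabDefs
import Pool.Agent.Th2.TabB

/-! # Table for `e = 5` (certificates found by computer, checked by the kernel) -/

namespace Th2
open Polynomial Module Matrix

/-- certificates: `T` is of type `Fe e` (`true`) or `Fer e` (`false`); rows of `T`, `K`, `K⁻¹`, `L`, `L⁻¹` -/
def dat5 : List (Bool × List ℕ × List ℕ × List ℕ × List ℕ × List ℕ) := [
  (true, [31, 3, 19, 14, 21], [3, 2, 14, 8, 22], [3, 2, 14, 8, 28], [3, 2, 14, 8, 22], [3, 2, 14, 8, 28]),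
  (false, [26, 14, 10, 11, 3], [1, 28, 20, 22, 26], [1, 12, 30, 6, 26], [13, 12, 4, 30, 2], [3, 16, 4, 6, 26]),
  (false, [20, 21, 8, 18, 2], [25, 10, 24, 28, 20], [5, 26, 12, 24, 28], [25, 18, 24, 12, 4], [5, 30, 16, 24, 28]),
  (true, [29, 15, 14, 21, 24], [19, 22, 16, 14, 20], [23, 18, 20, 14, 4], [13, 26, 16, 2, 28], [21, 8, 26, 14, 4]),
  (false, [13, 18, 11, 1, 4], [23, 24, 2, 14, 4], [11, 4, 16, 28, 30], [19, 16, 12, 6, 24], [29, 30, 22, 18, 2]),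
  (false, [15, 27, 14, 7, 23], [15, 2, 16, 26, 22], [27, 2, 22, 14, 4], [17, 22, 6, 2, 30], [7, 8, 12, 18, 6]),
  (true, [3, 26, 29, 1, 22], [23, 28, 6, 14, 12], [23, 24, 28, 12, 18], [19, 10, 28, 6, 4], [23, 24, 16, 26, 14]),
  (false, [2, 23, 19, 25, 13], [13, 6, 2, 26, 10], [19, 4, 6, 20, 24], [11, 24, 12, 14, 18], [19, 12, 26, 30, 28]),
  (false, [9, 4, 20, 10, 21], [31, 24, 28, 16, 2], [21, 16, 6, 10, 8], [27, 24, 12, 6, 26], [17, 18, 26, 30, 28]),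
  (false, [29, 14, 11, 31, 18], [7, 24, 18, 22, 16], [25, 20, 12, 18, 16], [15, 24, 2, 22, 16], [11, 4, 28, 18, 16]),
  (false, [12, 19, 11, 30, 15], [5, 10, 22, 4, 26], [9, 30, 8, 28, 18], [17, 8, 30, 6, 2], [15, 16, 24, 2, 14]),
  (true, [9, 31, 2, 25, 21], [11, 18, 4, 30, 10], [17, 30, 4, 14, 28], [25, 22, 12, 8, 6], [27, 28, 12, 8, 18]),
  (false, [19, 13, 26, 29, 15], [7, 10, 4, 22, 30], [31, 26, 4, 24, 22], [7, 18, 6, 8, 22], [5, 22, 18, 8, 20]),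
  (true, [2, 8, 25, 20, 9], [1, 16, 22, 8, 18], [1, 18, 20, 8, 2], [5, 28, 18, 30, 22], [21, 10, 20, 24, 14]),
  (true, [28, 26, 7, 23, 3], [29, 16, 22, 2, 26], [23, 8, 14, 26, 2], [29, 6, 12, 20, 22], [23, 24, 26, 30, 18]),
  (true, [21, 18, 10, 11, 27], [19, 4, 28, 26, 22], [19, 14, 2, 26, 28], [19, 12, 6, 4, 18], [17, 12, 8, 10, 28])]

theorem chk5 : ∀ b1 b2 b3 b4 : Bool, chk 5 (Jm (ZMod 2) 5 ![false, b1, b2, b3, b4]) (dat5.getD ((if b1 then 1 else 0) + (if b2 then 2 else 0) + (if b3 then 4 else 0) + (if b4 then 8 else 0)) default) = true := by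
  decide +kernel

theorem tab_uni5 (I : Fin 5 → Bool) : Tabl 5 (Jm (ZMod 2) 5 I) := by
  have h : Jm (ZMod 2) 5 I = Jm (ZMod 2) 5 ![false, I 1, I 2, I 3, I 4] := by
    apply Jm_congr
    intro j hj
    fin_cases j <;> first | exact absurd hj (by decide) | rfl
  rw [h]
  exact tabl_chk (by decide) (chk5 (I 1) (I 2) (I 3) (I 4))

theorem tab_o3_5 : Tabl 5 (O3 5) :=
  tabl_chk (c := (true, [15, 18, 16, 25, 19], [27, 12, 20, 30, 26], [17, 22, 24, 26, 28], [17, 10, 4, 2, 18], [25, 8, 4, 10, 24])) (by decide) (by decide +kernel)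

end Th2
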