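import Pool.Agent.Th2.TabDefs
import Pool.Agent.Th2.TabB

/-! # Table for `e = 6` (certificates found by computer, checked by the kernel) -/

namespace Th2
open Polynomial Module Matrix

/-- certificates: `T` is of type `Fe e` (`true`) or `Fer e` (`false`); rows of `T`, `K`, `K⁻¹`, `L`, `L⁻¹` -/
def dat6 : List (Bool × List ℕ × List ℕ × List ℕ × List ℕ × List ℕ) := [
  (true, [18, 7, 61, 60, 37, 53], [49, 42, 46, 12, 18, 54], [29, 58, 6, 14, 42, 54], [49, 42, 46, 12, 18, 54], [29, 58, 6, 14, 42, 54]),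
  (false, [51, 61, 56, 30, 46, 42], [11, 30, 56, 12, 44, 28], [23, 34, 60, 52, 40, 24], [61, 34, 8, 20, 52, 36], [21, 26, 56, 4, 48, 24]),
  (false, [43, 16, 11, 9, 62, 20], [27, 48, 50, 18, 56, 20], [27, 6, 46, 18, 14, 12], [31, 30, 22, 42, 4, 36], [3, 62, 16, 6, 42, 48]),
  (false, [22, 63, 36, 6, 8, 35], [61, 42, 44, 12, 24, 26], [43, 48, 54, 62, 46, 12], [35, 58, 52, 28, 56, 46], [53, 18, 62, 42, 28, 38]),
  (false, [34, 10, 28, 54, 37, 55], [53, 32, 4, 16, 22, 58], [15, 28, 4, 54, 8, 2], [53, 32, 20, 48, 54, 26], [7, 22, 14, 60, 10, 2]),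
  (false, [28, 27, 54, 57, 52, 55], [13, 2, 40, 34, 44, 50], [27, 2, 20, 14, 40, 10], [39, 30, 42, 38, 48, 2], [9, 32, 22, 26, 46, 62]),
  (false, [32, 29, 35, 51, 11, 55], [37, 54, 2, 22, 10, 18], [35, 4, 40, 20, 36, 10], [5, 28, 12, 58, 6, 34], [43, 58, 42, 46, 6, 26]),
  (false, [42, 1, 30, 23, 7, 12], [57, 50, 52, 2, 62, 44], [23, 8, 14, 28, 56, 50], [39, 30, 26, 10, 6, 32], [49, 22, 6, 30, 12, 32]),
  (false, [29, 46, 33, 2, 61, 9], [31, 8, 2, 16, 34, 30], [33, 4, 46, 2, 8, 20], [19, 4, 18, 46, 38, 58], [5, 46, 2, 24, 42, 60]),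
  (true, [60, 48, 28, 54, 17, 24], [21, 4, 28, 52, 38, 36], [43, 48, 2, 46, 40, 34], [21, 28, 24, 50, 38, 40], [25, 44, 6, 26, 30, 58]),
  (true, [30, 22, 52, 20, 36, 21], [49, 16, 20, 48, 12, 18], [9, 34, 6, 22, 2, 10], [49, 28, 20, 60, 12, 18], [25, 50, 22, 6, 18, 10]),
  (false, [48, 37, 55, 52, 13, 15], [9, 50, 42, 28, 62, 26], [29, 38, 14, 28, 26, 62], [55, 20, 50, 42, 30, 54], [33, 56, 36, 42, 38, 26]),
  (true, [45, 47, 35, 63, 41, 60], [15, 58, 34, 46, 10, 4], [49, 60, 32, 44, 42, 56], [15, 58, 36, 48, 6, 28], [61, 38, 54, 44, 58, 50]),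
  (false, [17, 30, 27, 63, 6, 16], [39, 32, 26, 62, 52, 40], [55, 58, 14, 34, 28, 2], [11, 44, 32, 2, 24, 48], [61, 8, 50, 52, 36, 4]),
  (true, [43, 53, 62, 38, 54, 34], [27, 46, 28, 12, 4, 52], [35, 54, 16, 24, 12, 60], [27, 34, 24, 8, 4, 60], [51, 54, 16, 8, 12, 52]),
  (false, [29, 57, 14, 5, 51, 2], [15, 54, 48, 62, 38, 44], [13, 58, 60, 10, 18, 22], [37, 22, 30, 28, 42, 44], [39, 12, 60, 6, 50, 26]),
  (false, [34, 15, 28, 44, 24, 54], [37, 54, 48, 24, 16, 36], [33, 50, 52, 24, 16, 20], [21, 6, 8, 56, 52, 44], [41, 30, 28, 4, 52, 56]),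
  (true, [4, 52, 28, 32, 63, 2], [41, 4, 52, 16, 62, 8], [47, 52, 2, 32, 8, 14], [45, 4, 52, 16, 62, 8], [45, 52, 2, 32, 8, 14]),
  (true, [22, 4, 5, 56, 31, 44], [49, 60, 30, 36, 26, 44], [63, 26, 20, 40, 34, 28], [61, 58, 22, 52, 18, 60], [33, 54, 20, 40, 38, 58]),
  (false, [17, 56, 40, 35, 19, 60], [35, 40, 12, 54, 50, 48], [47, 48, 24, 28, 62, 30], [11, 52, 28, 30, 26, 16], [49, 12, 24, 60, 32, 58]),
  (true, [40, 29, 22, 21, 34, 51], [1, 46, 4, 26, 40, 58], [1, 22, 4, 56, 38, 40], [25, 54, 30, 18, 46, 62], [19, 56, 46, 34, 48, 36]),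
  (false, [59, 18, 60, 29, 55, 6], [31, 60, 8, 38, 2, 40], [55, 16, 60, 4, 30, 36], [11, 12, 30, 42, 10, 36], [17, 42, 56, 58, 44, 24]),
  (true, [15, 59, 30, 44, 43, 12], [27, 30, 56, 48, 10, 16], [49, 28, 50, 12, 32, 40], [11, 6, 56, 48, 10, 16], [17, 28, 30, 12, 32, 40]),
  (true, [25, 61, 33, 11, 26, 52], [27, 14, 30, 38, 48, 52], [53, 46, 48, 28, 6, 22], [9, 28, 20, 38, 60, 48], [7, 44, 54, 6, 50, 18]),
  (false, [58, 33, 34, 53, 9, 41], [49, 6, 40, 58, 22, 50], [63, 30, 28, 40, 18, 44], [49, 14, 48, 12, 44, 22], [5, 10, 54, 62, 28, 24]),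
  (true, [52, 30, 43, 2, 32, 39], [17, 28, 46, 56, 4, 2], [61, 32, 16, 46, 60, 26], [29, 24, 38, 52, 6, 2], [51, 32, 48, 46, 44, 20]),
  (false, [11, 59, 47, 23, 19, 37], [39, 38, 54, 18, 62, 30], [3, 14, 60, 20, 6, 48], [31, 44, 30, 60, 8, 62], [5, 40, 54, 16, 10, 36]),
  (true, [18, 33, 3, 53, 22, 47], [61, 14, 38, 34, 48, 26], [37, 54, 12, 56, 46, 62], [55, 12, 54, 34, 42, 10], [5, 56, 26, 24, 22, 48]),
  (false, [11, 34, 57, 48, 20, 26], [15, 16, 22, 56, 36, 24], [37, 62, 56, 34, 2, 40], [55, 32, 54, 12, 52, 48], [5, 20, 48, 56, 34, 2]),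
  (true, [16, 30, 57, 38, 59, 10], [61, 8, 46, 28, 62, 40], [43, 58, 30, 2, 20, 34], [57, 20, 38, 14, 54, 52], [25, 48, 22, 46, 20, 34]),
  (false, [41, 18, 43, 10, 27, 54], [47, 28, 22, 40, 18, 16], [45, 48, 20, 54, 32, 62], [11, 38, 62, 58, 54, 52], [37, 48, 12, 20, 18, 62]),
  (true, [14, 63, 2, 44, 55, 62], [61, 18, 36, 8, 2, 40], [31, 16, 44, 8, 18, 40], [59, 14, 32, 26, 2, 36], [13, 16, 36, 54, 46, 4])]

theorem chk6 : ∀ b1 b2 b3 b4 b5 : Bool, chk 6 (Jm (ZMod 2) 6 ![false, b1, b2, b3, b4, b5]) (dat6.getD ((if b1 then 1 else 0) + (if b2 then 2 else 0) + (if b3 then 4 else 0) + (if b4 then 8 else 0) + (if b5 then 16 else 0)) default) = true := by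
  decide +kernel

theorem tab_uni6 (I : Fin 6 → Bool) : Tabl 6 (Jm (ZMod 2) 6 I) := by
  have h : Jm (ZMod 2) 6 I = Jm (ZMod 2) 6 ![false, I 1, I 2, I 3, I 4, I 5] := by
    apply Jm_congr
    intro j hj
    fin_cases j <;> first | exact absurd hj (by decide) | rfl
  rw [h]
  exact tabl_chk (by decide) (chk6 (I 1) (I 2) (I 3) (I 4) (I 5))

theorem tab_o3_6 : Tabl 6 (O3 6) :=
  tabl_chk (c := (false, [12, 37, 8, 10, 42, 30], [41, 10, 24, 12, 36, 52], [25, 54, 60, 52, 48, 44], [39, 30, 40, 20, 44, 28], [27, 34, 20, 40, 28, 44])) (by decide) (by decide +kernel)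

end Th2
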