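import Pool.Agent.Th2.Tab3
import Pool.Agent.Th2.Tab4
import Pool.Agent.Th2.Tab5
import Pool.Agent.Th2.Tab6

/-! # Tables -/

namespace Th2
open Polynomial Module Matrix

theorem tab_uni {e : ℕ} (he : 3 ≤ e ∧ e ≤ 6) (I : Fin e → Bool) : Tabl e (Jm (ZMod 2) e I) := by
  have h : e = 3 ∨ e = 4 ∨ e = 5 ∨ e = 6 := by omega
  rcases h with rfl | rfl | rfl | rfl
  · exact tab_uni3 I
  · exact tab_uni4 I
  · exact tab_uni5 I
  · exact tab_uni6 I

theorem tab_o3 {e : ℕ} (he : 4 ≤ e ∧ e ≤ 6) : Tabl e (O3 e) := by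
  have h : e = 4 ∨ e = 5 ∨ e = 6 := by omega
  rcases h with rfl | rfl | rfl
  · exact tab_o3_4
  · exact tab_o3_5
  · exact tab_o3_6

end Th2
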