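import Pool.Agent.Th2.Ext
import Pool.Agent.Th2.Blk3
import Pool.Agent.Th2.CycB
import Pool.Agent.Th2.Tab

/-! # T1o: blocks `a` with an element of order three on a plane, and the identity on a complement -/

namespace Th2
open Polynomial Module Matrix

universe u

variable {W : Type u} [AddCommGroup W] [Module (ZMod 2) W]

/-- `a` has order three on the plane spanned by `x`, `y`, and `W` is the sum of this plane and of the fixed vectors -/
def Ord3 (a : Module.End (ZMod 2) W) : Prop :=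
  ∃ x y : W, LinearIndependent (ZMod 2) ![x, y] ∧ a x = y ∧ a y = x + y ∧
    ∀ w, ∃ s t : ZMod 2, a (w - s • x - t • y) = w - s • x - t • y

private theorem T1o_cyc {n : ℕ} (b : Basis (Fin n) (ZMod 2) W) {g : Module.End (ZMod 2) W}
    {N : Matrix (Fin n) (Fin n) (ZMod 2)} {f : (ZMod 2)[X]} (h : CycM N f)
    (hN : LinearMap.toMatrix b b g = N) : Cyc g f := by
  refine Cyc.map (T := Matrix.toLin' N) h b.equivFun.symm fun w => ?_
  apply b.equivFun.injective
  rw [LinearEquiv.apply_symm_apply, Matrix.toLin'_apply, ← hN]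
  have h1 := LinearMap.toMatrix_mulVec_repr b b g (b.equivFun.symm w)
  have h2 : ⇑(b.repr (b.equivFun.symm w)) = w := by
    have h3 := b.equivFun.apply_symm_apply w
    exact h3
  rw [h2] at h1
  rw [h1]
  rfl

private theorem T1o_tab {n : ℕ} (b : Basis (Fin n) (ZMod 2) W) {a : Module.End (ZMod 2) W}
    (h : Tabl n (LinearMap.toMatrix b b a)) :
    ∃ T : Module.End (ZMod 2) W, Cyc (a * T) (Fe n) ∧ (Cyc T (Fe n) ∨ Cyc T (Fer n)) := by
  obtain ⟨T, h1, h2⟩ := h
  have e1 : LinearMap.toMatrix b b (Matrix.toLin b b T) = T := LinearMap.toMatrix_toLin b b T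
  refine ⟨Matrix.toLin b b T, ?_, ?_⟩
  · refine T1o_cyc b h1 ?_
    have h3 : LinearMap.toMatrix b b (a * Matrix.toLin b b T) =
        LinearMap.toMatrix b b a * LinearMap.toMatrix b b (Matrix.toLin b b T) :=
      LinearMap.toMatrix_mul b a (Matrix.toLin b b T)
    rw [h3, e1]
  · rcases h2 with h2 | h2
    · exact Or.inl (T1o_cyc b h2 e1)
    · exact Or.inr (T1o_cyc b h2 e1)

private theorem T1o_step [FiniteDimensional (ZMod 2) W] (j : ℕ) {e : ℕ} (he : 4 ≤ e ∧ e ≤ 6)
    (a : Module.End (ZMod 2) W) (V1 : Submodule (ZMod 2) W) (ha : V1 ≤ V1.comap a)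
    (hai : ∀ x ∈ V1, a x = 0 → x = 0) (hd : finrank (ZMod 2) V1 = 3)
    (h3 : ∀ x y : V1, ∃ z : V1, z ≠ x ∧ z ≠ y)
    (T1 : V1 →ₗ[ZMod 2] V1) (hT1 : aeval T1 P3 = 0)
    (hN1 : aeval ((a.restrict ha : V1 →ₗ[ZMod 2] V1) ∘ₗ T1 : Module.End (ZMod 2) V1) P3 = 0)
    (hb : ∃ Tb : Module.End (ZMod 2) (W ⧸ V1),
      Cyc ((V1.mapQ V1 a ha : Module.End (ZMod 2) (W ⧸ V1)) * Tb) (P3 ^ j * Fe e) ∧
      (Cyc Tb (P3 ^ j * Fe e) ∨ Cyc Tb (P3 ^ j * Fer e))) :
    ∃ T : Module.End (ZMod 2) W, Cyc (a * T) (P3 ^ (j + 1) * Fe e) ∧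
      (Cyc T (P3 ^ (j + 1) * Fe e) ∨ Cyc T (P3 ^ (j + 1) * Fer e)) := by
  obtain ⟨Tb, hb1, hb2⟩ := hb
  have hP := P3_irr
  have hcop := cop_P3_Fe he
  have hn1 : ¬ P3 ∣ Fe e := fun h => hP.not_isUnit (hcop.1.isUnit_of_dvd' dvd_rfl h)
  have hn2 : ¬ P3 ∣ Fer e := fun h => hP.not_isUnit (hcop.2.1.isUnit_of_dvd' dvd_rfl h)
  have hdv : ∀ g g' : (ZMod 2)[X], ¬ P3 ∣ g → ¬ P3 ∣ g' → (P3 ∣ P3 ^ j * g ↔ P3 ∣ P3 ^ j * g') := by
    intro g g' hg hg'
    rcases Nat.eq_zero_or_pos j with hj | hj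
    · rw [hj, pow_zero, one_mul, one_mul]
      exact ⟨fun h => absurd h hg, fun h => absurd h hg'⟩
    · have h4 : P3 ∣ P3 ^ j := dvd_pow_self _ hj.ne'
      exact ⟨fun _ => h4.mul_right _, fun _ => h4.mul_right _⟩
  have hpow : ∀ g : (ZMod 2)[X], P3 ^ (j + 1) * g = P3 * (P3 ^ j * g) := fun g => by
    rw [pow_succ', mul_assoc]
  rw [hpow, hpow]
  have hd' : finrank (ZMod 2) V1 = P3.natDegree := by rw [hd, P3_monic.2.1]
  rcases hb2 with hb2 | hb2
  · obtain ⟨T, hT, haT⟩ := step hP P3_monic.1 a V1 ha hai hd' h3 T1 hT1 hN1 Tb hb2 hb1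
      (hdv _ _ hn1 hn1)
    exact ⟨T, haT, Or.inl hT⟩
  · obtain ⟨T, hT, haT⟩ := step hP P3_monic.1 a V1 ha hai hd' h3 T1 hT1 hN1 Tb hb2 hb1
      (hdv _ _ hn2 hn1)
    exact ⟨T, haT, Or.inr hT⟩

/-- no fixed vectors in the plane -/
private theorem T1o_pl {a : Module.End (ZMod 2) W} {x y : W}
    (hxy : LinearIndependent (ZMod 2) ![x, y]) (hx : a x = y) (hy : a y = x + y) {s t : ZMod 2}
    (h : a (s • x + t • y) = s • x + t • y) : s = 0 ∧ t = 0 := by
  rw [map_add, map_smul, map_smul, hx, hy, smul_add] at h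
  have h1 : (t - s) • x + s • y = 0 := by
    have h2 : s • y + (t • x + t • y) - (s • x + t • y) = 0 := sub_eq_zero.2 h
    rw [← h2, sub_smul]
    abel
  obtain ⟨h3, h4⟩ := LinearIndependent.pair_iff.1 hxy _ _ h1
  rw [h4, sub_zero] at h3
  exact ⟨h4, h3⟩

/-- the space of fixed vectors and the plane -/
private theorem T1o_dim [FiniteDimensional (ZMod 2) W] {a : Module.End (ZMod 2) W} {x y : W}
    (hxy : LinearIndependent (ZMod 2) ![x, y]) (hx : a x = y) (hy : a y = x + y)
    (hw : ∀ w, ∃ s t : ZMod 2, a (w - s • x - t • y) = w - s • x - t • y) :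
    IsCompl (LinearMap.ker (a - 1)) (Submodule.span (ZMod 2) (Set.range ![x, y])) := by
  have hspan : ∀ v, v ∈ Submodule.span (ZMod 2) (Set.range ![x, y]) ↔
      ∃ s t : ZMod 2, s • x + t • y = v := by
    intro v
    have h1 : Set.range ![x, y] = {x, y} := by
      ext z
      simp only [Set.mem_range, Fin.exists_fin_two, Matrix.cons_val_zero, Matrix.cons_val_one,
        Set.mem_insert_iff, Set.mem_singleton_iff, eq_comm]
    rw [h1, Submodule.mem_span_pair]
  have hker : ∀ v, v ∈ LinearMap.ker (a - 1) ↔ a v = v := by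
    intro v
    rw [LinearMap.mem_ker, LinearMap.sub_apply, Module.End.one_apply, sub_eq_zero]
  refine isCompl_iff.2 ⟨?_, ?_⟩
  · rw [Submodule.disjoint_def]
    intro v hv1 hv2
    obtain ⟨s, t, rfl⟩ := (hspan v).1 hv2
    obtain ⟨h1, h2⟩ := T1o_pl hxy hx hy ((hker _).1 hv1)
    rw [h1, h2, zero_smul, zero_smul, add_zero]
  · rw [codisjoint_iff, eq_top_iff]
    intro v _
    obtain ⟨s, t, h⟩ := hw v
    rw [Submodule.mem_sup]
    refine ⟨v - s • x - t • y, (hker _).2 h, s • x + t • y, (hspan _).2 ⟨s, t, rfl⟩, ?_⟩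
    abel

/-- the base of the induction: `x`, `y` and a basis of the fixed vectors (the sum is direct: `a (s x + t y) = s x + t y` implies `s = t = 0`) form a
basis in which the matrix of `a` is `O3 e`; `tab_o3` -/
theorem t1o_base [FiniteDimensional (ZMod 2) W] {e : ℕ} (he : 4 ≤ e ∧ e ≤ 6)
    (hW : finrank (ZMod 2) W = e) (a : Module.End (ZMod 2) W) (ha : Ord3 a) :
    ∃ T : Module.End (ZMod 2) W, Cyc (a * T) (Fe e) ∧ (Cyc T (Fe e) ∨ Cyc T (Fer e)) := by
  obtain ⟨x, y, hxy, hx, hy, hw⟩ := ha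
  have hc := T1o_dim hxy hx hy hw
  have hP : finrank (ZMod 2) (Submodule.span (ZMod 2) (Set.range ![x, y])) = 2 := by
    rw [finrank_span_eq_card hxy, Fintype.card_fin]
  have hF : finrank (ZMod 2) (LinearMap.ker (a - 1)) + 2 = e := by
    have h1 := Submodule.finrank_add_eq_of_isCompl hc
    omega
  obtain ⟨n, hn⟩ : ∃ n, finrank (ZMod 2) (LinearMap.ker (a - 1)) = n := ⟨_, rfl⟩
  rw [hn] at hF
  have c : Basis (Fin n) (ZMod 2) (LinearMap.ker (a - 1)) := finBasisOfFinrankEq _ _ hn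
  have hli : LinearIndependent (ZMod 2)
      (Sum.elim (![x, y] : Fin 2 → W) (fun i : Fin n => ((c i : LinearMap.ker (a - 1)) : W))) := by
    have h1 : LinearIndependent (ZMod 2) (fun i : Fin n => ((c i : LinearMap.ker (a - 1)) : W)) :=
      c.linearIndependent.map' (LinearMap.ker (a - 1)).subtype (Submodule.ker_subtype _)
    refine hxy.sum_type h1 ?_
    refine hc.disjoint.symm.mono_right ?_
    rw [Submodule.span_le]
    rintro _ ⟨i, rfl⟩
    exact (c i).2
  have hcard : Fintype.card (Fin 2 ⊕ Fin n) = finrank (ZMod 2) W := by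
    rw [Fintype.card_sum, Fintype.card_fin, Fintype.card_fin, hW]
    omega
  obtain ⟨b0, hb0⟩ : ∃ b0 : Basis (Fin 2 ⊕ Fin n) (ZMod 2) W, ∀ i, b0 i =
      Sum.elim (![x, y] : Fin 2 → W) (fun i : Fin n => ((c i : LinearMap.ker (a - 1)) : W)) i := by
    have : Nonempty (Fin 2 ⊕ Fin n) := ⟨Sum.inl 0⟩
    exact ⟨basisOfLinearIndependentOfCardEqFinrank hli hcard, fun i => by simp⟩
  have he2 : 2 + n = e := by omega
  subst he2
  obtain ⟨b, hb⟩ : ∃ b : Basis (Fin (2 + n)) (ZMod 2) W, b = b0.reindex finSumFinEquiv := ⟨_, rfl⟩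
  refine T1o_tab b ?_
  have hmat : LinearMap.toMatrix b b a = O3 (2 + n) := by
    have e1 : a = Matrix.toLin b b (O3 (2 + n)) := by
      refine b.ext fun j => ?_
      rw [Matrix.toLin_self]
      obtain ⟨z, rfl⟩ : ∃ z, finSumFinEquiv z = j := ⟨finSumFinEquiv.symm j, by simp⟩
      have hbz : ∀ z, b (finSumFinEquiv z) = b0 z := fun z => by
        rw [hb, Basis.reindex_apply, Equiv.symm_apply_apply]
      have hsum : ∑ i, O3 (2 + n) i (finSumFinEquiv z) • b i =
          ∑ i : Fin 2 ⊕ Fin n, O3 (2 + n) (finSumFinEquiv i) (finSumFinEquiv z) • b0 i := by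
        rw [← Equiv.sum_comp finSumFinEquiv]
        refine Finset.sum_congr rfl fun i _ => ?_
        rw [hbz]
      rw [hsum, hbz, Fintype.sum_sum_type, Fin.sum_univ_two]
      simp only [hb0, Sum.elim_inl, Sum.elim_inr, Matrix.cons_val_zero, Matrix.cons_val_one]
      rcases z with i | i
      · have h2 : ∑ i' : Fin n, O3 (2 + n) (finSumFinEquiv (Sum.inr i')) (finSumFinEquiv (Sum.inl i)) •
            ((c i' : LinearMap.ker (a - 1)) : W) = 0 := by
          refine Finset.sum_eq_zero fun i' _ => ?_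
          have h3 : O3 (2 + n) (finSumFinEquiv (Sum.inr i')) (finSumFinEquiv (Sum.inl i)) = 0 := by
            have := i.2
            simp only [O3, finSumFinEquiv_apply_right, finSumFinEquiv_apply_left, Fin.val_natAdd,
              Fin.val_castAdd, Fin.ext_iff]
            rw [if_neg (by omega), if_neg (by omega), if_neg (by omega)]
          rw [h3, zero_smul]
        rw [h2, add_zero]
        fin_cases i
        · simp [O3, hx]
        · simp [O3, hy]
      · have h3 : ∀ i' : Fin 2, O3 (2 + n) (finSumFinEquiv (Sum.inl i')) (finSumFinEquiv (Sum.inr i)) =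
            0 := by
          intro i'
          have := i'.2
          simp only [O3, finSumFinEquiv_apply_right, finSumFinEquiv_apply_left, Fin.val_natAdd,
            Fin.val_castAdd, Fin.ext_iff]
          rw [if_neg (by omega), if_neg (by omega), if_neg (by omega)]
        have h4 : ∀ i' : Fin n, O3 (2 + n) (finSumFinEquiv (Sum.inr i')) (finSumFinEquiv (Sum.inr i)) =
            if i' = i then 1 else 0 := by
          intro i'
          simp only [O3, finSumFinEquiv_apply_right, Fin.val_natAdd, Fin.ext_iff]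
          rw [if_neg (by omega), if_neg (by omega)]
          simp
        rw [h3, h3]
        simp only [h4, zero_smul, zero_add, ite_smul, one_smul, Finset.sum_ite_eq',
          Finset.mem_univ, if_true]
        have h5 := (c i).2
        rw [LinearMap.mem_ker, LinearMap.sub_apply, Module.End.one_apply, sub_eq_zero] at h5
        exact h5
    rw [e1, LinearMap.toMatrix_toLin]
  rw [hmat]
  exact tab_o3 he

/-- Induction on `j`, as `t1u`, with `V1` a 3-dimensional space of fixed vectors of `a` (the fixed vectors have dimension `3 j + e - 2 ≥ 3`); `x`, `y` remain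
independent in `W / V1` since the plane contains no fixed vector `≠ 0`. -/
theorem t1o (j : ℕ) {e : ℕ} (he : 4 ≤ e ∧ e ≤ 6) [FiniteDimensional (ZMod 2) W]
    (hW : finrank (ZMod 2) W = 3 * j + e) (a : Module.End (ZMod 2) W) (ha : Ord3 a) :
    ∃ T : Module.End (ZMod 2) W, Cyc (a * T) (P3 ^ j * Fe e) ∧
      (Cyc T (P3 ^ j * Fe e) ∨ Cyc T (P3 ^ j * Fer e)) := by
  induction j generalizing W with
  | zero =>
    rw [pow_zero, one_mul, one_mul]
    exact t1o_base he (by omega) a ha
  | succ j ih =>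
    obtain ⟨x, y, hxy, hx, hy, hw⟩ := ha
    have hc := T1o_dim hxy hx hy hw
    have hP : finrank (ZMod 2) (Submodule.span (ZMod 2) (Set.range ![x, y])) = 2 := by
      rw [finrank_span_eq_card hxy, Fintype.card_fin]
    have hF : finrank (ZMod 2) (LinearMap.ker (a - 1)) + 2 = 3 * (j + 1) + e := by
      have h1 := Submodule.finrank_add_eq_of_isCompl hc
      omega
    obtain ⟨g, hg⟩ := exists_linearIndependent_of_le_finrank
      (show 3 ≤ finrank (ZMod 2) (LinearMap.ker (a - 1)) by omega)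
    have hg' : LinearIndependent (ZMod 2) (fun i : Fin 3 => ((g i : LinearMap.ker (a - 1)) : W)) :=
      hg.map' (LinearMap.ker (a - 1)).subtype (Submodule.ker_subtype _)
    obtain ⟨V1, hV1⟩ : ∃ V1, V1 = Submodule.span (ZMod 2)
      (Set.range (fun i : Fin 3 => ((g i : LinearMap.ker (a - 1)) : W))) := ⟨_, rfl⟩
    have hd : finrank (ZMod 2) V1 = 3 := by
      rw [hV1, finrank_span_eq_card hg', Fintype.card_fin]
    have hle : V1 ≤ LinearMap.ker (a - 1) := by
      rw [hV1, Submodule.span_le]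
      rintro _ ⟨i, rfl⟩
      exact (g i).2
    have hfix : ∀ v ∈ V1, a v = v := by
      intro v hv
      have h1 := hle hv
      rw [LinearMap.mem_ker, LinearMap.sub_apply, Module.End.one_apply, sub_eq_zero] at h1
      exact h1
    have haV : V1 ≤ V1.comap a := by
      intro v hv
      show a v ∈ V1
      rw [hfix v hv]
      exact hv
    obtain ⟨⟨T1, hT1, hN1⟩, hai, h3⟩ := blk3 V1 hd a haV (Or.inl fun v hv => hle hv)
    have hq : finrank (ZMod 2) (W ⧸ V1) = 3 * j + e := by
      have h4 := V1.finrank_quotient_add_finrank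
      omega
    have hmk : ∀ v, (V1.mapQ V1 a haV : Module.End (ZMod 2) (W ⧸ V1)) (V1.mkQ v) = V1.mkQ (a v) :=
      fun v => rfl
    have hord : Ord3 (V1.mapQ V1 a haV : Module.End (ZMod 2) (W ⧸ V1)) := by
      refine ⟨V1.mkQ x, V1.mkQ y, ?_, ?_, ?_, ?_⟩
      · rw [LinearIndependent.pair_iff]
        intro s t hst
        rw [← map_smul, ← map_smul, ← map_add] at hst
        have h4 : s • x + t • y ∈ V1 := (Submodule.Quotient.mk_eq_zero V1).1 hst
        exact T1o_pl hxy hx hy (hfix _ h4)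
      · rw [hmk, hx]
      · rw [hmk, hy, map_add]
      · intro z
        obtain ⟨w, rfl⟩ := V1.mkQ_surjective z
        obtain ⟨s, t, h4⟩ := hw w
        refine ⟨s, t, ?_⟩
        rw [← map_smul, ← map_smul, ← map_sub, ← map_sub, hmk, h4]
    exact T1o_step j he a V1 haV hai hd h3 T1 hT1 hN1 (ih hq _ hord)

end Th2
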