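import Pool.Agent.Th2.T1u
import Pool.Agent.Th2.T1o

/-! # FacM: the factorization for matrices -/

namespace Th2
open Polynomial Module Matrix

/-- the factorization property of a block -/
def Fc (k j e : ℕ) (a : Matrix (Fin k) (Fin k) (ZMod 2)) : Prop :=
  ∃ N S : (Matrix (Fin k) (Fin k) (ZMod 2))ˣ, a = (N : Matrix (Fin k) (Fin k) (ZMod 2)) * S ∧
    CycM (N : Matrix (Fin k) (Fin k) (ZMod 2)) (P3 ^ j * Fe e) ∧
    (CycM (S : Matrix (Fin k) (Fin k) (ZMod 2)) (P3r ^ j * Fer e) ∨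
      CycM (S : Matrix (Fin k) (Fin k) (ZMod 2)) (P3r ^ j * Fe e))

private theorem FacM_unit {n : ℕ} {N : Matrix (Fin n) (Fin n) (ZMod 2)} {f : (ZMod 2)[X]}
    (h : CycM N f) (h0 : f.coeff 0 ≠ 0) :
    ∃ U : (Matrix (Fin n) (Fin n) (ZMod 2))ˣ, (U : Matrix (Fin n) (Fin n) (ZMod 2)) = N := by
  have hk : aeval (Matrix.toLin' N) f = 0 := Cyc.kill h
  have hinj : Function.Injective N.mulVec := by
    have h1 : Function.Injective (Matrix.toLin' N) := by
      rw [← LinearMap.ker_eq_bot, LinearMap.ker_eq_bot']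
      intro v hv
      have h2 : aeval (Matrix.toLin' N) f v = 0 := by rw [hk, LinearMap.zero_apply]
      rw [← Polynomial.divX_mul_X_add f, map_add, map_mul, aeval_X, aeval_C,
        LinearMap.add_apply] at h2
      have h3 : (aeval (Matrix.toLin' N) f.divX * Matrix.toLin' N) v = 0 := by
        show aeval (Matrix.toLin' N) f.divX (Matrix.toLin' N v) = 0
        rw [hv, map_zero]
      rw [h3, zero_add, Module.algebraMap_end_apply] at h2
      exact (smul_eq_zero.1 h2).resolve_left h0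
    intro x y hxy
    apply h1
    rw [Matrix.toLin'_apply, Matrix.toLin'_apply]
    exact hxy
  exact (Matrix.mulVec_injective_iff_isUnit.1 hinj)

private theorem FacM_coeff (j : ℕ) {p q : (ZMod 2)[X]} (hp : p.coeff 0 = 1) (hq : q.coeff 0 = 1) :
    (p ^ j * q).coeff 0 ≠ 0 := by
  rw [coeff_zero_eq_eval_zero] at hp hq ⊢
  rw [eval_mul, eval_pow, hp, hq, one_pow, mul_one]
  exact one_ne_zero

private theorem FacM_rv_pow (j : ℕ) {p q : (ZMod 2)[X]} : rv (p ^ j * q) = rv p ^ j * rv q := by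
  rw [rv_mul]
  congr 1
  induction j with
  | zero =>
    rw [pow_zero, pow_zero]
    have h1 : (1 : (ZMod 2)[X]).reverse = 1 := by
      rw [← map_one (C : ZMod 2 →+* (ZMod 2)[X]), reverse_C]
    simp [rv, h1]
  | succ j ih => rw [pow_succ, rv_mul, ih, pow_succ]

/-- from the endomorphism to the matrices: `a = (a T) T⁻¹`, `CycM.inv`, `rv_mul` etc.; cyclic matrices whose polynomial has a constant
coefficient are invertible -/
theorem fc_of_end {k j e : ℕ} (he : 3 ≤ e ∧ e ≤ 6) {a : Matrix (Fin k) (Fin k) (ZMod 2)}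
    (h : ∃ T : Module.End (ZMod 2) (Fin k → ZMod 2), Cyc (toLin' a * T) (P3 ^ j * Fe e) ∧
      (Cyc T (P3 ^ j * Fe e) ∨ Cyc T (P3 ^ j * Fer e))) : Fc k j e a := by
  obtain ⟨T, h1, h2⟩ := h
  obtain ⟨t, rfl⟩ : ∃ t : Matrix (Fin k) (Fin k) (ZMod 2), Matrix.toLin' t = T :=
    ⟨LinearMap.toMatrix' T, Matrix.toLin'_toMatrix' T⟩
  have c1 : CycM (a * t) (P3 ^ j * Fe e) := by
    have h3 : Matrix.toLin' (a * t) = Matrix.toLin' a * Matrix.toLin' t := Matrix.toLin'_mul a t
    show Cyc (Matrix.toLin' (a * t)) _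
    rw [h3]
    exact h1
  have z1 : (P3 ^ j * Fe e).coeff 0 ≠ 0 := FacM_coeff j P3_monic.2.2 (Fe_monic he).2.2
  have z2 : (P3 ^ j * Fer e).coeff 0 ≠ 0 := FacM_coeff j P3_monic.2.2 (Fer_monic he).2.2
  obtain ⟨N, hN⟩ := FacM_unit c1 z1
  have c2 : CycM t (P3 ^ j * Fe e) ∨ CycM t (P3 ^ j * Fer e) := h2
  obtain ⟨U, hU⟩ : ∃ U : (Matrix (Fin k) (Fin k) (ZMod 2))ˣ,
      (U : Matrix (Fin k) (Fin k) (ZMod 2)) = t := by
    rcases c2 with c2 | c2
    · exact FacM_unit c2 z1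
    · exact FacM_unit c2 z2
  refine ⟨N, U⁻¹, ?_, ?_, ?_⟩
  · rw [hN, ← hU, mul_assoc, Units.mul_inv, mul_one]
  · rw [hN]
    exact c1
  · rcases c2 with c2 | c2
    · left
      have h3 := c2.inv z1 (N' := ((U⁻¹ : (Matrix (Fin k) (Fin k) (ZMod 2))ˣ) :
        Matrix (Fin k) (Fin k) (ZMod 2))) (by rw [← hU, Units.mul_inv])
      rw [FacM_rv_pow, rv_P3, rv_Fe he] at h3
      exact h3
    · right
      have h3 := c2.inv z2 (N' := ((U⁻¹ : (Matrix (Fin k) (Fin k) (ZMod 2))ˣ) :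
        Matrix (Fin k) (Fin k) (ZMod 2))) (by rw [← hU, Units.mul_inv])
      rw [FacM_rv_pow, rv_P3, rv_Fer he] at h3
      exact h3

/-- upper unitriangular matrices: `a - 1` is nilpotent (strictly upper triangular) -/
theorem fc_uni {k j e : ℕ} (he : (4 ≤ e ∧ e ≤ 6) ∨ (e = 3 ∧ j = 0)) (hk : k = 3 * j + e)
    {a : Matrix (Fin k) (Fin k) (ZMod 2)} (h1 : ∀ i j, j < i → a i j = 0) (h2 : ∀ i, a i i = 1) :
    Fc k j e a := by
  apply fc_of_end (by omega)
  have hn : IsNilpotent (a - 1) := by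
    have h3 : ∀ i j, j ≤ i → (a - 1) i j = 0 := by
      intro i j hij
      rw [Matrix.sub_apply]
      rcases eq_or_lt_of_le hij with h | h
      · rw [h, h2, Matrix.one_apply_eq, sub_self]
      · rw [h1 i j h, Matrix.one_apply_ne (ne_of_gt h), sub_zero]
    have h4 : ∀ m : ℕ, ∀ i j : Fin k, (j : ℕ) < (i : ℕ) + m → ((a - 1) ^ m) i j = 0 := by
      intro m
      induction m with
      | zero =>
        intro i j hij
        rw [pow_zero, Matrix.one_apply_ne]
        intro h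
        rw [h] at hij
        omega
      | succ m ih =>
        intro i j hij
        rw [pow_succ, Matrix.mul_apply]
        refine Finset.sum_eq_zero fun l _ => ?_
        rcases Nat.lt_or_ge (l : ℕ) ((i : ℕ) + m) with h | h
        · rw [ih i l h, zero_mul]
        · rw [h3 l j (by rw [Fin.le_def]; omega), mul_zero]
    refine ⟨k, ?_⟩
    ext i j
    rw [h4 k i j (by have := j.2; omega), Matrix.zero_apply]
  have hn' : IsNilpotent (Matrix.toLin' a - 1) := by
    obtain ⟨m, hm⟩ := hn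
    refine ⟨m, ?_⟩
    have h5 : Matrix.toLin' a - 1 = Matrix.toLin' (a - 1) := by
      rw [map_sub, Matrix.toLin'_one]
      rfl
    rw [h5, ← Matrix.toLin'_pow, hm, map_zero]
  exact t1u j he (by rw [Module.finrank_fin_fun, hk]) _ hn'

private theorem FacM_mv {k n : ℕ} (r : Fin 2 ⊕ Fin n ≃ Fin k) (M : Matrix (Fin 2) (Fin 2) (ZMod 2))
    (x : Fin k → ZMod 2) (z : Fin 2 ⊕ Fin n) :
    Matrix.toLin' (Matrix.reindex r r (fromBlocks M 0 0 1)) x (r z) =
      Sum.elim (M *ᵥ fun i => x (r (Sum.inl i))) (fun i => x (r (Sum.inr i))) z := by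
  rw [Matrix.toLin'_apply, Matrix.reindex_apply, Matrix.submatrix_mulVec_equiv, fromBlocks_mulVec]
  simp only [zero_mulVec, add_zero, zero_add, Function.comp_apply, one_mulVec, Equiv.symm_symm,
    Equiv.symm_apply_apply]
  rfl

private theorem FacM_single {k n : ℕ} (r : Fin 2 ⊕ Fin n ≃ Fin k) (z z' : Fin 2 ⊕ Fin n) :
    (Pi.single (r z) 1 : Fin k → ZMod 2) (r z') = if z' = z then 1 else 0 := by
  simp [Pi.single_apply]

/-- `x`, `y` are the images of the first two basis vectors -/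
theorem fc_o3 {k j e n : ℕ} (he : 4 ≤ e ∧ e ≤ 6) (hk : k = 3 * j + e) (r : Fin 2 ⊕ Fin n ≃ Fin k) :
    Fc k j e (Matrix.reindex r r (fromBlocks !![0, 1; 1, 1] 0 0 1)) := by
  apply fc_of_end (by omega)
  refine t1o j he (by rw [Module.finrank_fin_fun, hk]) _ ?_
  have hz : ∀ j, ∃ z, j = r z := fun j => ⟨r.symm j, (r.apply_symm_apply j).symm⟩
  refine ⟨Pi.single (r (Sum.inl 0)) 1, Pi.single (r (Sum.inl 1)) 1, ?_, ?_, ?_, ?_⟩
  · rw [LinearIndependent.pair_iff]
    intro s t hst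
    have h0 := congrFun hst (r (Sum.inl 0))
    have h1 := congrFun hst (r (Sum.inl 1))
    rw [Pi.add_apply, Pi.smul_apply, Pi.smul_apply, FacM_single, FacM_single] at h0 h1
    simp at h0 h1
    exact ⟨h0, h1⟩
  · funext j
    obtain ⟨z, rfl⟩ := hz j
    rw [FacM_mv]
    simp only [FacM_single]
    rcases z with i | i
    · fin_cases i <;> simp [vecHead, vecTail]
    · simp
  · funext j
    obtain ⟨z, rfl⟩ := hz j
    rw [FacM_mv, Pi.add_apply]
    simp only [FacM_single]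
    rcases z with i | i
    · fin_cases i <;> simp [vecHead, vecTail]
    · simp
  · intro w
    refine ⟨w (r (Sum.inl 0)), w (r (Sum.inl 1)), ?_⟩
    obtain ⟨w', hw'⟩ : ∃ w', w' = w - w (r (Sum.inl 0)) • (Pi.single (r (Sum.inl 0)) 1 : Fin k → ZMod 2) -
      w (r (Sum.inl 1)) • (Pi.single (r (Sum.inl 1)) 1 : Fin k → ZMod 2) := ⟨_, rfl⟩
    rw [← hw']
    have h0 : ∀ i : Fin 2, w' (r (Sum.inl i)) = 0 := by
      intro i
      rw [hw', Pi.sub_apply, Pi.sub_apply, Pi.smul_apply, Pi.smul_apply, FacM_single, FacM_single]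
      fin_cases i <;> simp
    funext j
    obtain ⟨z, rfl⟩ := hz j
    rw [FacM_mv]
    simp only [h0]
    rcases z with i | i
    · rw [Sum.elim_inl, h0]
      have h5 : (fun _ : Fin 2 => (0 : ZMod 2)) = 0 := rfl
      rw [h5, mulVec_zero]
      rfl
    · rfl

end Th2
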