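import Pool.Agent.Th2.Main2
import Pool.Agent.ThQ.Orth

/-! # All finite fields -/

namespace Th2
open Module Matrix ThQ

/-- The main theorem for quadratic forms over `ZMod 2`. -/
theorem main_Q2 {V : Type*} [AddCommGroup V] [Module (ZMod 2) V] [Finite V] (q : QF (ZMod 2) V)
    (hq : q.ND ⊤) {m : ℕ} (hm : 4 ≤ m) (hV : finrank (ZMod 2) V = 2 * m) : TP (IG q) := by
  have : FiniteDimensional (ZMod 2) V := Module.Finite.of_finite
  obtain ⟨k, rfl⟩ : ∃ k, m = k + 1 := ⟨m - 1, by omega⟩
  have hf : finrank (ZMod 2) (⊤ : Submodule (ZMod 2) V) = 2 * k + 2 := by rw [finrank_top, hV]; ring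
  obtain ⟨w, w', h⟩ := hyp_ex q hq hf
  obtain ⟨Φ, hΦ⟩ := to_V0 q h
  have hD : (q.restr (q.Dp ⊤ w w')).ND ⊤ := by
    intro x _ hx
    have h1 := Dp_ND q hq h x.1 x.2 (fun y hy => hx ⟨y, hy⟩ trivial)
    exact Subtype.ext h1
  have hD2 : finrank (ZMod 2) (q.Dp ⊤ w w') = 2 := by
    have := Dp_finrank q h
    rw [hf, Fintype.card_fin] at this
    omega
  have h1 : TP (IG (q0 (q.restr (q.Dp ⊤ w w')) k)) := by
    obtain ⟨x, hx, h⟩ := main_two (k := k) (by omega) (q.restr (q.Dp ⊤ w w')) hD hD2
    refine ⟨x, hx, fun g hg => ?_⟩
    obtain ⟨r, hr, r', hr', e⟩ := h g hg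
    exact ⟨1, Subgroup.one_mem _, fun y => by rw [one_mul, mul_one], r, hr, r', hr', by
      rw [one_mul]; exact e⟩
  exact h1.transport (IG.congr Φ hΦ)

/-- The main theorem for quadratic forms over all finite fields. -/
theorem main_QA {K V : Type*} [Field K] [Finite K] [AddCommGroup V] [Module K V] [Finite V]
    (q : QF K V) (hq : q.ND ⊤) {m : ℕ} (hm : 4 ≤ m) (hV : finrank K V = 2 * m) : TP (IG q) := by
  by_cases h3 : ∃ c : K, c ≠ 0 ∧ c ≠ 1
  · exact main_Q h3 q hq hm hV
  · push Not at h3
    -- `K` is the field with two elements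
    have hcard : Nat.card K = 2 := by
      rw [Nat.card_eq_two_iff]
      refine ⟨0, 1, zero_ne_one, ?_⟩
      ext c
      simp only [Set.mem_insert_iff, Set.mem_singleton_iff, Set.mem_univ, iff_true]
      by_cases hc : c = 0
      · exact Or.inl hc
      · exact Or.inr (h3 c hc)
    have : Fintype K := Fintype.ofFinite K
    have hcard' : Fintype.card K = 2 := by rw [← Nat.card_eq_fintype_card, hcard]
    let e : ZMod 2 ≃+* K := ZMod.ringEquivOfPrime K Nat.prime_two hcard'
    let inst : Module (ZMod 2) V := Module.compHom V (e : ZMod 2 →+* K)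
    have hs : ∀ (c : ZMod 2) (v : V), c • v = e c • v := fun c v => rfl
    have hs' : ∀ (c : K) (v : V), c • v = e.symm c • v := fun c v => by
      rw [hs, e.apply_symm_apply]
    let q' : QF (ZMod 2) V :=
      { h := fun x =>
          { toFun := fun y => e.symm (q.h x y)
            map_add' := fun y z => by rw [map_add, map_add]
            map_smul' := fun c y => by
              rw [hs, map_smul, smul_eq_mul, map_mul, e.symm_apply_apply, RingHom.id_apply,
                smul_eq_mul] }
        Q := fun x => e.symm (q.Q x)
        symm := fun x y => by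
          show e.symm (q.h y x) = e.symm (q.h x y)
          rw [q.symm]
        add := fun x y => by
          show e.symm (q.Q (x + y)) = e.symm (q.Q x) + e.symm (q.Q y) + e.symm (q.h x y)
          rw [q.add, map_add, map_add]
        smul := fun c x => by
          rw [hs, q.smul, map_mul, map_pow, e.symm_apply_apply] }
    have hq' : q'.ND ⊤ := by
      intro x _ hx
      refine hq x trivial fun y _ => ?_
      have h1 : e.symm (q.h x y) = 0 := hx y trivial
      exact (map_eq_zero_iff e.symm e.symm.injective).1 h1
    have hV' : finrank (ZMod 2) V = 2 * m := by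
      rw [← hV]
      unfold finrank
      congr 1
      exact rank_eq_of_equiv_equiv e (AddEquiv.refl V) e.bijective fun c v => rfl
    have h1 : TP (IG q') := main_Q2 q' hq' hm hV'
    refine h1.transport ?_
    exact
      { toFun := fun g => ⟨
          { toFun := fun v => (g : V ≃ₗ[ZMod 2] V) v
            map_add' := fun v w => map_add _ v w
            map_smul' := fun c v => by
              show (g : V ≃ₗ[ZMod 2] V) (c • v) = c • (g : V ≃ₗ[ZMod 2] V) v
              rw [hs', map_smul, ← hs']
            invFun := fun v => (g : V ≃ₗ[ZMod 2] V).symm v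
            left_inv := fun v => LinearEquiv.symm_apply_apply _ v
            right_inv := fun v => LinearEquiv.apply_symm_apply _ v }, fun v => by
              have h2 : e.symm (q.Q ((g : V ≃ₗ[ZMod 2] V) v)) = e.symm (q.Q v) := g.2 v
              exact e.symm.injective h2⟩
        invFun := fun g => ⟨
          { toFun := fun v => (g : V ≃ₗ[K] V) v
            map_add' := fun v w => map_add _ v w
            map_smul' := fun c v => by
              show (g : V ≃ₗ[K] V) (c • v) = c • (g : V ≃ₗ[K] V) v
              rw [hs, map_smul, ← hs]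
            invFun := fun v => (g : V ≃ₗ[K] V).symm v
            left_inv := fun v => LinearEquiv.symm_apply_apply _ v
            right_inv := fun v => LinearEquiv.apply_symm_apply _ v }, fun v => by
              have h2 : q.Q ((g : V ≃ₗ[K] V) v) = q.Q v := g.2 v
              exact congrArg e.symm h2⟩
        left_inv := fun g => Subtype.ext (LinearEquiv.ext fun v => rfl)
        right_inv := fun g => Subtype.ext (LinearEquiv.ext fun v => rfl)
        map_mul' := fun g g' => Subtype.ext (LinearEquiv.ext fun v => rfl) }

end Th2
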