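import Pool.Agent.Th2.Defs

/-! # Module Glue: extension of a cyclic endomorphism by a simple one -/

namespace Th2
open Polynomial Module

variable {F W : Type*} [Field F] [AddCommGroup W] [Module F W]

/-- `q (T)` and the quotient map commute (`mapQ` is multiplicative and additive in `T`) -/
theorem mkQ_aeval (V1 : Submodule F W) (T : Module.End F W) (hT : V1 ≤ V1.comap T) (q : F[X]) (w : W) :
    V1.mkQ (aeval T q w) = aeval (V1.mapQ V1 T hT : Module.End F (W ⧸ V1)) q (V1.mkQ w) := by
  induction q using Polynomial.induction_on generalizing w with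
  | C a => simp [Algebra.algebraMap_eq_smul_one]
  | add p q hp hq =>
    rw [map_add, map_add, LinearMap.add_apply, LinearMap.add_apply, map_add, hp, hq]
  | monomial n a ih =>
    have e1 : (C a * X ^ (n + 1) : F[X]) = (C a * X ^ n) * X := by ring
    rw [e1, map_mul (aeval T) (C a * X ^ n) X, map_mul _ (C a * X ^ n) X, aeval_X, aeval_X, Module.End.mul_apply, Module.End.mul_apply, ih]
    rfl

/-- The degrees add up (`Submodule.finrank_quotient_add_finrank`).  Let `q (T) v = 0`.  Then (`mkQ_aeval`) `q (Tb) (mkQ v) = 0`, so `q = h * q'`.  The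
vector `u = h (T) v` is in `V1`: `mkQ u = h (Tb) (mkQ v) = 0` by `hv0`.  `q' (T) u = 0`, `p (T) u = 0`, `u ≠ 0`; if `p ∤ q'`, then
`p` and `q'` are coprime and `u = 0`, a contradiction.  So `p * h ∣ q`. -/
theorem glue [FiniteDimensional F W] {p h : F[X]} (hp : Irreducible p) (hpm : p.Monic) (hhm : h.Monic)
    (T : Module.End F W) (V1 : Submodule F W) (hT : V1 ≤ V1.comap T)
    (hd : finrank F V1 = p.natDegree) (hk : ∀ x ∈ V1, aeval T p x = 0)
    (hh : h.natDegree = finrank F (W ⧸ V1)) (v : W)
    (hv : ∀ q : F[X], aeval (V1.mapQ V1 T hT : Module.End F (W ⧸ V1)) q (V1.mkQ v) = 0 → h ∣ q)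
    (hv0 : aeval (V1.mapQ V1 T hT : Module.End F (W ⧸ V1)) h (V1.mkQ v) = 0)
    (hv1 : aeval T h v ≠ 0) : Cyc T (p * h) := by
  refine ⟨hpm.mul hhm, ?_, v, ?_⟩
  · rw [hpm.natDegree_mul hhm, ← hd, hh, add_comm, Submodule.finrank_quotient_add_finrank]
  · intro q hq
    have h1 : aeval (V1.mapQ V1 T hT : Module.End F (W ⧸ V1)) q (V1.mkQ v) = 0 := by
      rw [← mkQ_aeval, hq, map_zero]
    obtain ⟨q', hq'⟩ := hv q h1
    have hu : aeval T h v ∈ V1 := by
      rw [← Submodule.Quotient.mk_eq_zero]
      show V1.mkQ (aeval T h v) = 0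
      rw [mkQ_aeval V1 T hT, hv0]
    have hpu : aeval T p (aeval T h v) = 0 := hk _ hu
    have hqu : aeval T q' (aeval T h v) = 0 := by
      rw [← Module.End.mul_apply, ← map_mul, mul_comm, ← hq', hq]
    have hpq : p ∣ q' := by
      by_contra hnd
      have hc : IsCoprime p q' := (EuclideanDomain.dvd_or_coprime p q' hp).resolve_left hnd
      obtain ⟨a, b, hab⟩ := hc
      apply hv1
      have e : aeval T (a * p + b * q') (aeval T h v) = 0 := by
        rw [map_add, map_mul, map_mul, LinearMap.add_apply, Module.End.mul_apply, Module.End.mul_apply, hpu, hqu]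
        simp
      rw [hab] at e
      simpa using e
    obtain ⟨q'', hq''⟩ := hpq
    exact ⟨q'', by rw [hq', hq'']; ring⟩

end Th2
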