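import Pool.Agent.Th2.JorA

/-! # Module Jor: a Jordan basis of a unipotent endomorphism -/

namespace Th2
open Module Matrix

variable {F W : Type*} [Field F] [AddCommGroup W] [Module F W]

/-- Strong induction on `n = finrank F W`: `n = 0` trivial; otherwise let `r` be minimal with `ν ^ r = 0` (`r ≥ 1`), `ν ^ (r - 1) v ≠ 0`, `C'` as in
`inv_compl`; by induction `C'` has such a basis `c` (of length `n - r`); the basis of `W`: `b i = ν ^ (r - 1 - i) v` for `i < r` and
`b (r + i) = c i`.  `I j = true` for `1 ≤ j < r`, `I r = false`, and `I (r + j)` as for `c`. -/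
theorem jordan (n : ℕ) [FiniteDimensional F W] (hn : finrank F W = n) (ν : Module.End F W)
    (hν : IsNilpotent ν) : ∃ (b : Basis (Fin n) F W) (I : Fin n → Bool), ∀ j : Fin n,
      ν (b j) = if h : 0 < (j : ℕ) ∧ I j = true then b ⟨(j : ℕ) - 1, by omega⟩ else 0 := by
  induction n using Nat.strong_induction_on generalizing W with
  | _ n ih =>
    by_cases hn0 : n = 0
    · subst hn0
      exact ⟨Module.finBasisOfFinrankEq F W hn, fun _ => false, fun j => j.elim0⟩
    have hnt : Nontrivial W := Module.finrank_pos_iff.1 (by rw [hn]; omega)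
    have hr1 : 0 < nilpotencyClass ν := pos_nilpotencyClass_iff.2 hν
    have hr0 : ν ^ nilpotencyClass ν = 0 := pow_nilpotencyClass hν
    have hrp : ν ^ (nilpotencyClass ν - 1) ≠ 0 := pow_pred_nilpotencyClass hν
    generalize nilpotencyClass ν = r at hr1 hr0 hrp
    obtain ⟨v, hv⟩ : ∃ v, (ν ^ (r - 1)) v ≠ 0 := by
      by_contra hcon
      push Not at hcon
      exact hrp (LinearMap.ext hcon)
    obtain ⟨C', hC', hcompl, hdim⟩ := inv_compl ν hr1 hr0 hv
    have hnr : finrank F C' = n - r := by omega
    let ν' : Module.End F C' := ν.restrict hC'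
    have hν'v : ∀ x : C', ((ν' x : C') : W) = ν x := fun x => rfl
    have hν'p : ∀ (k : ℕ) (x : C'), (((ν' ^ k) x : C') : W) = (ν ^ k) x := by
      intro k
      induction k with
      | zero => intro x; rfl
      | succ k ihk =>
        intro x
        rw [pow_succ, pow_succ, Module.End.mul_apply, Module.End.mul_apply, ihk, hν'v]
    have hν'n : IsNilpotent ν' := by
      obtain ⟨k, hk⟩ := hν
      refine ⟨k, LinearMap.ext fun x => Subtype.ext ?_⟩
      rw [hν'p, hk]
      rfl
    obtain ⟨c, I', hc⟩ := ih (n - r) (by omega) hnr ν' hν'n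
    let b0 : Fin n → W := fun j =>
      if h : (j : ℕ) < r then (ν ^ (r - 1 - (j : ℕ))) v else (c ⟨(j : ℕ) - r, by omega⟩ : W)
    have hb1 : ∀ (j : ℕ) (hj : j < n) (h : j < r), b0 ⟨j, hj⟩ = (ν ^ (r - 1 - j)) v := by
      intro j hj h
      exact dif_pos h
    have hb2 : ∀ (j : ℕ) (hj : j < n) (h : r ≤ j), b0 ⟨j, hj⟩ = (c ⟨j - r, by omega⟩ : W) := by
      intro j hj h
      exact dif_neg (not_lt.2 h)
    have hspan : ⊤ ≤ Submodule.span F (Set.range b0) := by
      rw [← hcompl.sup_eq_top, sup_le_iff]
      constructor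
      · rw [Submodule.span_le]
        rintro _ ⟨i, rfl⟩
        have hi : (i : ℕ) < r := i.2
        have h1 : r ≤ n := by omega
        refine Submodule.subset_span ⟨⟨r - 1 - i, by omega⟩, ?_⟩
        rw [hb1 _ _ (by omega)]
        have e1 : r - 1 - (r - 1 - (i : ℕ)) = i := by omega
        rw [e1]
      · intro x hx
        have h1 : (⟨x, hx⟩ : C') ∈ Submodule.span F (Set.range c) := by
          rw [c.span_eq]; exact Submodule.mem_top
        have h2 : Submodule.span F (Set.range c) ≤
            (Submodule.span F (Set.range b0)).comap C'.subtype := by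
          rw [Submodule.span_le]
          rintro _ ⟨i, rfl⟩
          have hi : (i : ℕ) < n - r := i.2
          refine Submodule.subset_span ⟨⟨r + i, by omega⟩, ?_⟩
          rw [hb2 _ _ (by omega)]
          have e1 : (⟨r + (i : ℕ) - r, by omega⟩ : Fin (n - r)) = i := Fin.ext (by simp)
          rw [e1]
          rfl
        exact h2 h1
    let b : Basis (Fin n) F W := basisOfTopLeSpanOfCardEqFinrank b0 hspan (by
      rw [Fintype.card_fin, hn])
    have hb : ∀ j, b j = b0 j := fun j => by
      rw [show (b j) = basisOfTopLeSpanOfCardEqFinrank b0 hspan (by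
        rw [Fintype.card_fin, hn]) j from rfl, coe_basisOfTopLeSpanOfCardEqFinrank]
    refine ⟨b, fun j => if h : (j : ℕ) < r then true else if (j : ℕ) = r then false else
      I' ⟨(j : ℕ) - r, by omega⟩, ?_⟩
    rintro ⟨j, hj⟩
    rw [hb]
    by_cases h1 : j < r
    · rw [hb1 j hj h1]
      by_cases h2 : 0 < j
      · have h3 : 0 < ((⟨j, hj⟩ : Fin n) : ℕ) ∧ (if h : ((⟨j, hj⟩ : Fin n) : ℕ) < r then true else
            if ((⟨j, hj⟩ : Fin n) : ℕ) = r then false else
            I' ⟨((⟨j, hj⟩ : Fin n) : ℕ) - r, by simp; omega⟩) = true := ⟨h2, by simp [h1]⟩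
        rw [dif_pos h3, hb, hb1 _ _ (by simp; omega)]
        rw [← Module.End.mul_apply, ← pow_succ']
        congr 2
        simp only
        omega
      · have h3 : ¬ (0 < ((⟨j, hj⟩ : Fin n) : ℕ) ∧
            (if h : ((⟨j, hj⟩ : Fin n) : ℕ) < r then true else
            if ((⟨j, hj⟩ : Fin n) : ℕ) = r then false else
            I' ⟨((⟨j, hj⟩ : Fin n) : ℕ) - r, by simp; omega⟩) = true) := fun h => h2 h.1
        rw [dif_neg h3, ← Module.End.mul_apply, ← pow_succ']
        have e1 : r - 1 - j + 1 = r := by omega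
        rw [e1, hr0, LinearMap.zero_apply]
    · have h1' : r ≤ j := by omega
      rw [hb2 j hj h1', ← hν'v, hc]
      by_cases h2 : j = r
      · have h3 : ¬ (0 < ((⟨j, hj⟩ : Fin n) : ℕ) ∧
            (if h : ((⟨j, hj⟩ : Fin n) : ℕ) < r then true else
            if ((⟨j, hj⟩ : Fin n) : ℕ) = r then false else
            I' ⟨((⟨j, hj⟩ : Fin n) : ℕ) - r, by simp; omega⟩) = true) := by simp [h2]
        rw [dif_neg h3, dif_neg (by simp [h2])]
        rfl
      · by_cases h4 : I' ⟨j - r, by omega⟩ = true
        · have h3 : 0 < ((⟨j, hj⟩ : Fin n) : ℕ) ∧ (if h : ((⟨j, hj⟩ : Fin n) : ℕ) < r then true else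
            if ((⟨j, hj⟩ : Fin n) : ℕ) = r then false else
            I' ⟨((⟨j, hj⟩ : Fin n) : ℕ) - r, by simp; omega⟩) = true :=
            ⟨by simp only; omega, by simp [h1, h2, h4]⟩
          have h5 : 0 < ((⟨j - r, by omega⟩ : Fin (n - r)) : ℕ) ∧
            I' ⟨j - r, by omega⟩ = true := ⟨by simp only; omega, h4⟩
          rw [dif_pos h3, dif_pos h5, hb, hb2 _ _ (by simp only; omega)]
          congr 2
          apply Fin.ext
          simp only
          omega
        · have h3 : ¬ (0 < ((⟨j, hj⟩ : Fin n) : ℕ) ∧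
            (if h : ((⟨j, hj⟩ : Fin n) : ℕ) < r then true else
            if ((⟨j, hj⟩ : Fin n) : ℕ) = r then false else
            I' ⟨((⟨j, hj⟩ : Fin n) : ℕ) - r, by simp; omega⟩) = true) := by
            simp [h1, h2, h4]
          rw [dif_neg h3, dif_neg (fun h => h4 h.2)]
          rfl

/-- the matrix form (`i + 1 = j` implies `0 < j`) -/
theorem jordan_mat (n : ℕ) [FiniteDimensional F W] (hn : finrank F W = n) (a : Module.End F W)
    (ha : IsNilpotent (a - 1)) : ∃ (b : Basis (Fin n) F W) (I : Fin n → Bool),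
      LinearMap.toMatrix b b a = Jm F n I := by
  obtain ⟨b, I, hb⟩ := jordan n hn (a - 1) ha
  refine ⟨b, I, ?_⟩
  ext i j
  have h1 : a (b j) = b j + (a - 1) (b j) := by
    rw [LinearMap.sub_apply, Module.End.one_apply]
    abel
  rw [LinearMap.toMatrix_apply, h1, map_add, Finsupp.add_apply, hb j, Basis.repr_self,
    Finsupp.single_apply]
  unfold Jm
  by_cases hij : i = j
  · subst hij
    rw [if_pos rfl, if_pos rfl]
    by_cases h2 : 0 < (i : ℕ) ∧ I i = true
    · rw [dif_pos h2, Basis.repr_self, Finsupp.single_apply, if_neg, add_zero]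
      intro h3
      have := congrArg Fin.val h3
      simp only at this
      omega
    · rw [dif_neg h2, map_zero, Finsupp.zero_apply, add_zero]
  · rw [if_neg (Ne.symm hij), if_neg hij, zero_add]
    by_cases h2 : 0 < (j : ℕ) ∧ I j = true
    · rw [dif_pos h2, Basis.repr_self, Finsupp.single_apply]
      by_cases h3 : (i : ℕ) + 1 = j
      · have h4 : (⟨(j : ℕ) - 1, by omega⟩ : Fin n) = i := by
          apply Fin.ext
          simp only
          omega
        rw [if_pos h4, if_pos ⟨h3, h2.2⟩]
      · have h4 : ¬ (⟨(j : ℕ) - 1, by omega⟩ : Fin n) = i := by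
          intro h4
          have := congrArg Fin.val h4
          simp only at this
          omega
        rw [if_neg h4, if_neg (fun h => h3 h.1)]
    · rw [dif_neg h2, map_zero, Finsupp.zero_apply, if_neg]
      rintro ⟨h3, h4⟩
      exact h2 ⟨by omega, h4⟩

end Th2
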