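import Pool.Agent.Th2.Defs

/-! # Module JorA: an invariant complement -/

namespace Th2
open Module Matrix

variable {F W : Type*} [Field F] [AddCommGroup W] [Module F W]

/-- Let `ν` be nilpotent, `ν ^ r = 0`, `ν ^ (r - 1) v ≠ 0` (`r ≥ 1`).  There is an invariant complement of the span `C` of
`v, ν v, …, ν ^ (r - 1) v`: take a functional `φ` with `φ (ν ^ (r - 1) v) = 1` and `C' = {w | ∀ j, φ (ν ^ j w) = 0}`.  `C ∩ C' = 0`: if
`w = ∑ c_i ν ^ i v ≠ 0` and `i` is the first index with `c_i ≠ 0`, then `φ (ν ^ (r - 1 - i) w) = c_i`.  `C' ` is defined by the `r` conditions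
`j < r`, so `dim C' ≥ dim W - r`. -/
theorem inv_compl [FiniteDimensional F W] (ν : Module.End F W) {r : ℕ} (hr : 1 ≤ r) (h0 : ν ^ r = 0) {v : W}
    (hv : (ν ^ (r - 1)) v ≠ 0) : ∃ C' : Submodule F W, (∀ x ∈ C', ν x ∈ C') ∧
      IsCompl (Submodule.span F (Set.range fun i : Fin r => (ν ^ (i : ℕ)) v)) C' ∧
      finrank F C' + r = finrank F W := by
  obtain ⟨φ, hφ⟩ : ∃ φ : Module.Dual F W, φ ((ν ^ (r - 1)) v) ≠ 0 :=
    Module.Projective.exists_dual_ne_zero F hv
  let Φ : W →ₗ[F] (Fin r → F) := LinearMap.pi fun j => φ ∘ₗ (ν ^ (j : ℕ))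
  have hΦ : ∀ (w : W) (j : Fin r), Φ w j = φ ((ν ^ (j : ℕ)) w) := fun w j => rfl
  have hz : ∀ k, r ≤ k → ν ^ k = 0 := by
    intro k hk
    obtain ⟨d, rfl⟩ := Nat.exists_eq_add_of_le hk
    rw [pow_add, h0, zero_mul]
  let g : (Fin r → F) →ₗ[F] W := Fintype.linearCombination F fun i : Fin r => (ν ^ (i : ℕ)) v
  have hg : ∀ c : Fin r → F, g c = ∑ i, c i • (ν ^ (i : ℕ)) v := fun c => rfl
  have hrange : LinearMap.range g
      = Submodule.span F (Set.range fun i : Fin r => (ν ^ (i : ℕ)) v) :=
    Fintype.range_linearCombination F _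
  have hinj : ∀ c : Fin r → F, Φ (g c) = 0 → c = 0 := by
    intro c hc
    have key : ∀ n : ℕ, ∀ i : Fin r, (i : ℕ) = n → c i = 0 := by
      intro n
      induction n using Nat.strong_induction_on with
      | _ n ih =>
        intro i hi
        have hir : (i : ℕ) < r := i.2
        have h1 := congrFun hc ⟨r - 1 - i, by omega⟩
        rw [hΦ, hg, map_sum, map_sum] at h1
        rw [Finset.sum_eq_single i] at h1
        · rw [map_smul, map_smul, ← Module.End.mul_apply, ← pow_add] at h1
          have e1 : r - 1 - (i : ℕ) + i = r - 1 := by omega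
          change c i • φ ((ν ^ (r - 1 - (i : ℕ) + i)) v) = 0 at h1
          rw [e1, smul_eq_mul, mul_eq_zero] at h1
          exact h1.resolve_right hφ
        · intro k _ hki
          rw [map_smul, map_smul, ← Module.End.mul_apply, ← pow_add]
          rcases lt_or_gt_of_ne (fun h => hki (Fin.ext h) : (k : ℕ) ≠ i) with h | h
          · rw [ih k (by omega) k rfl, zero_smul]
          · have e2 : r ≤ r - 1 - (i : ℕ) + k := by omega
            change c k • φ ((ν ^ (r - 1 - (i : ℕ) + k)) v) = 0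
            rw [hz _ e2, LinearMap.zero_apply, map_zero, smul_zero]
        · intro h; exact absurd (Finset.mem_univ i) h
    funext i
    exact key i i rfl
  have hinj' : Function.Injective (Φ ∘ₗ g) := by
    rw [← LinearMap.ker_eq_bot, LinearMap.ker_eq_bot']
    exact hinj
  have hsurj : Function.Surjective (Φ ∘ₗ g) := LinearMap.surjective_of_injective hinj'
  refine ⟨LinearMap.ker Φ, ?_, ?_, ?_⟩
  · intro x hx
    rw [LinearMap.mem_ker] at hx ⊢
    funext j
    rw [hΦ, ← Module.End.mul_apply, ← pow_succ]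
    by_cases hj : (j : ℕ) + 1 < r
    · have h1 := congrFun hx ⟨j + 1, hj⟩
      rw [hΦ] at h1
      exact h1
    · rw [hz _ (by omega), LinearMap.zero_apply, map_zero]
      rfl
  · rw [← hrange]
    constructor
    · rw [Submodule.disjoint_def]
      rintro _ ⟨c, rfl⟩ hx
      rw [LinearMap.mem_ker] at hx
      rw [hinj c hx, map_zero]
    · rw [codisjoint_iff, eq_top_iff]
      intro w _
      obtain ⟨c, hc⟩ := hsurj (Φ w)
      rw [Submodule.mem_sup]
      refine ⟨g c, ⟨c, rfl⟩, w - g c, ?_, by abel⟩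
      rw [LinearMap.mem_ker, map_sub, sub_eq_zero]
      exact hc.symm
  · have h1 : Function.Surjective Φ := Function.Surjective.of_comp (g := g) hsurj
    have h2 := LinearMap.finrank_range_add_finrank_ker Φ
    rw [LinearMap.range_eq_top.2 h1, finrank_top, Module.finrank_fin_fun] at h2
    omega

end Th2
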