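import Pool.Agent.Th2.SwapA
import Pool.Agent.Th2.CycC

/-! # Module Swap: partial exchange of `W` and `W'` -/

namespace Th2
open Matrix Module ThQ Polynomial

variable {K D : Type*} [Field K] [AddCommGroup D] [Module K D] {k : ℕ}

private theorem Swap_unit {n : ℕ} {N : Matrix (Fin n) (Fin n) K} {f : K[X]} (h : CycM N f)
    (h0 : f.coeff 0 ≠ 0) : ∃ U : (Matrix (Fin n) (Fin n) K)ˣ, (U : Matrix (Fin n) (Fin n) K) = N := by
  have hk : aeval (Matrix.toLin' N) f = 0 := Cyc.kill h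
  have hinj : Function.Injective N.mulVec := by
    have h1 : Function.Injective (Matrix.toLin' N) := by
      rw [← LinearMap.ker_eq_bot, LinearMap.ker_eq_bot']
      intro v hv
      have h2 : aeval (Matrix.toLin' N) f v = 0 := by rw [hk, LinearMap.zero_apply]
      rw [← Polynomial.divX_mul_X_add f, map_add, map_mul, aeval_X, aeval_C,
        LinearMap.add_apply] at h2
      have h3 : (aeval (Matrix.toLin' N) f.divX * Matrix.toLin' N) v = 0 := by
        show aeval (Matrix.toLin' N) f.divX (Matrix.toLin' N v) = 0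
        rw [hv, map_zero]
      rw [h3, zero_add, Module.algebraMap_end_apply] at h2
      exact (smul_eq_zero.1 h2).resolve_left h0
    intro x y hxy
    apply h1
    rw [Matrix.toLin'_apply, Matrix.toLin'_apply]
    exact hxy
  exact (Matrix.mulVec_injective_iff_isUnit.1 hinj)

/-- Let `C1` be a cyclic matrix with `f1` (`cmp_cyc`), of size `k1 = f1.natDegree`, and `C2` with `f2`, of size `k2`; `k1 + k2 = k`.
They are units (the constant coefficients are not `0`: `q (C) C = - q_0`, or `CycM.inv`).  `B` is conjugate to `dB e C1 C2`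
(`cyc_blocks`, `CycM.reindex`, `CycM.conj`) and `B'` to `dB e (ti C1) C2` (`cyc_ti`).  `mL` is a homomorphism; `swap_ex`. -/
theorem swap_conj (qD : QF K D) {B B' : (Matrix (Fin k) (Fin k) K)ˣ} {f1 f2 : K[X]} (hm1 : f1.Monic)
    (hm2 : f2.Monic) (h1 : f1.coeff 0 ≠ 0) (h2 : f2.coeff 0 ≠ 0)
    (hB : CycM (B : Matrix (Fin k) (Fin k) K) (f1 * f2))
    (hB' : CycM (B' : Matrix (Fin k) (Fin k) K) (rv f1 * f2)) (hc : IsCoprime f1 f2)
    (hc' : IsCoprime (rv f1) f2) :
    ∃ t : IG (q0 qD k), mL qD k B' = t * mL qD k B * t⁻¹ := by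
  have hk : f1.natDegree + f2.natDegree = k := by
    have h3 := hB.2.1
    rw [hm1.natDegree_mul hm2] at h3
    rw [h3]
    simp
  have c1 := cmp_cyc hm1 rfl
  have c2 := cmp_cyc hm2 rfl
  obtain ⟨C1, hC1⟩ := Swap_unit c1 h1
  obtain ⟨C2, hC2⟩ := Swap_unit c2 h2
  rw [← hC1] at c1
  rw [← hC2] at c2
  have c1' := cyc_ti c1 h1
  obtain ⟨e⟩ : Nonempty (Fin f1.natDegree ⊕ Fin f2.natDegree ≃ Fin k) :=
    ⟨finSumFinEquiv.trans (finCongr hk)⟩
  have d1 : CycM ((dB e C1 C2 : (Matrix (Fin k) (Fin k) K)ˣ) : Matrix (Fin k) (Fin k) K) (f1 * f2) :=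
    (cyc_blocks c1 c2 hc).reindex e
  have d2 : CycM ((dB e (ti C1) C2 : (Matrix (Fin k) (Fin k) K)ˣ) : Matrix (Fin k) (Fin k) K)
      (rv f1 * f2) := (cyc_blocks c1' c2 hc').reindex e
  obtain ⟨P, hP⟩ := hB.conj d1
  obtain ⟨P', hP'⟩ := d2.conj hB'
  obtain ⟨t, ht⟩ := swap_ex qD e C1 C2
  have e1 : dB e C1 C2 = P * B * P⁻¹ := Units.ext (by rw [hP, Units.val_mul, Units.val_mul])
  have e2 : B' = P' * dB e (ti C1) C2 * P'⁻¹ := Units.ext (by rw [hP', Units.val_mul, Units.val_mul])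
  refine ⟨mL qD k P' * t * mL qD k P, ?_⟩
  rw [e2, map_mul, map_mul, map_inv, ht, e1, map_mul, map_mul, map_inv]
  group

end Th2
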