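import Pool.Agent.Th2.FacM
import Pool.Agent.Th2.ConjU
import Pool.Agent.Th2.Swap
import Pool.Agent.ThQ.Main

/-! # The main theorem over the field with two elements -/

namespace Th2
open Polynomial Module Matrix ThQ

variable {D : Type*} [AddCommGroup D] [Module (ZMod 2) D] {k : ℕ}

theorem rv_one {F : Type*} [Field F] : rv (1 : F[X]) = 1 := by
  have h : (1 : F[X]).reverse = 1 := by
    rw [← C_1, reverse_C]
  rw [rv, coeff_one_zero, inv_one, C_1, h, one_mul]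

theorem rv_pow (f : (ZMod 2)[X]) (n : ℕ) : rv (f ^ n) = rv f ^ n := by
  induction n with
  | zero => rw [pow_zero, pow_zero, rv_one]
  | succ n ih => rw [pow_succ, pow_succ, rv_mul, ih]

/-- the admissible pairs `j`, `e` -/
def Adm (j e : ℕ) : Prop := (4 ≤ e ∧ e ≤ 6) ∨ (e = 3 ∧ j = 0)

theorem adm_ex {k : ℕ} (hk : 3 ≤ k) : ∃ j e, Adm j e ∧ k = 3 * j + e := by
  by_cases h : k = 3
  · exact ⟨0, 3, Or.inr ⟨rfl, rfl⟩, by omega⟩
  · refine ⟨(k - 4) / 3, (k - 4) % 3 + 4, Or.inl ⟨by omega, by omega⟩, by omega⟩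

theorem Adm.le {j e : ℕ} (h : Adm j e) : 3 ≤ e ∧ e ≤ 6 := by
  rcases h with h | h <;> omega

/-- all coprimality relations -/
theorem Adm.cop {j e : ℕ} (h : Adm j e) :
    IsCoprime (P3 ^ j) (Fe e) ∧ IsCoprime (P3 ^ j) (Fer e) ∧ IsCoprime (P3r ^ j) (Fe e) ∧
      IsCoprime (P3r ^ j) (Fer e) ∧ IsCoprime (P3 ^ j) (P3r ^ j) ∧ IsCoprime (Fe e) (Fer e) := by
  have h5 : IsCoprime (P3 ^ j) (P3r ^ j) := IsCoprime.pow cop_P3
  have h6 : IsCoprime (Fe e) (Fer e) := cop_Fe h.le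
  rcases h with h | ⟨h1, h2⟩
  · obtain ⟨c1, c2, c3, c4⟩ := cop_P3_Fe h
    exact ⟨IsCoprime.pow_left c1, IsCoprime.pow_left c2, IsCoprime.pow_left c3,
      IsCoprime.pow_left c4, h5, h6⟩
  · subst h2
    rw [pow_zero, pow_zero] at *
    exact ⟨isCoprime_one_left, isCoprime_one_left, isCoprime_one_left, isCoprime_one_left,
      isCoprime_one_left, h6⟩

theorem Adm.one {j e : ℕ} (h : Adm j e) :
    IsCoprime (P3 ^ j) (X - 1) ∧ IsCoprime (P3r ^ j) (X - 1) ∧ IsCoprime (Fe e) (X - 1) ∧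
      IsCoprime (Fer e) (X - 1) :=
  ⟨cop_one.1.pow_left, cop_one.2.pow_left, (cop_Fe_one h.le).1, (cop_Fe_one h.le).2⟩

theorem P3_pow_monic (j : ℕ) : (P3 ^ j).Monic ∧ (P3 ^ j).natDegree = 3 * j ∧ (P3 ^ j).coeff 0 = 1 := by
  refine ⟨P3_monic.1.pow j, ?_, ?_⟩
  · rw [P3_monic.1.natDegree_pow, P3_monic.2.1, mul_comm]
  · rw [coeff_zero_eq_eval_zero, eval_pow, ← coeff_zero_eq_eval_zero, P3_monic.2.2, one_pow]

theorem P3r_pow_monic (j : ℕ) : (P3r ^ j).Monic ∧ (P3r ^ j).natDegree = 3 * j ∧ (P3r ^ j).coeff 0 = 1 := by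
  refine ⟨P3r_monic.1.pow j, ?_, ?_⟩
  · rw [P3r_monic.1.natDegree_pow, P3r_monic.2.1, mul_comm]
  · rw [coeff_zero_eq_eval_zero, eval_pow, ← coeff_zero_eq_eval_zero, P3r_monic.2.2, one_pow]

theorem coeff_mul_zero' {f g : (ZMod 2)[X]} (hf : f.coeff 0 = 1) (hg : g.coeff 0 = 1) :
    (f * g).coeff 0 = 1 := by
  rw [mul_coeff_zero, hf, hg, one_mul]

/-- `Sd` for the blocks -/
theorem sd_ff {j e : ℕ} (h : Adm j e) {B : (Matrix (Fin k) (Fin k) (ZMod 2))ˣ}
    (hB : CycM (B : Matrix (Fin k) (Fin k) (ZMod 2)) (P3 ^ j * Fe e)) : Sd B := by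
  obtain ⟨c1, c2, c3, c4, c5, c6⟩ := h.cop
  obtain ⟨o1, o2, o3, o4⟩ := h.one
  refine sd_of_cyc hB ?_ (o1.mul_left o3) ?_
  · rw [coeff_mul_zero' (P3_pow_monic j).2.2 (Fe_monic h.le).2.2]
    exact one_ne_zero
  · rw [rv_mul, rv_pow, rv_P3, rv_Fe h.le]
    exact (c5.mul_right c2).mul_left (c3.symm.mul_right c6)

theorem sd_fr {j e : ℕ} (h : Adm j e) {B : (Matrix (Fin k) (Fin k) (ZMod 2))ˣ}
    (hB : CycM (B : Matrix (Fin k) (Fin k) (ZMod 2)) (P3 ^ j * Fer e)) : Sd B := by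
  obtain ⟨c1, c2, c3, c4, c5, c6⟩ := h.cop
  obtain ⟨o1, o2, o3, o4⟩ := h.one
  refine sd_of_cyc hB ?_ (o1.mul_left o4) ?_
  · rw [coeff_mul_zero' (P3_pow_monic j).2.2 (Fer_monic h.le).2.2]
    exact one_ne_zero
  · rw [rv_mul, rv_pow, rv_P3, rv_Fer h.le]
    exact (c5.mul_right c1).mul_left (c4.symm.mul_right c6.symm)

/-- the big cell -/
theorem main_block2 [Finite D] {j e : ℕ} (h : Adm j e) (qD : QF (ZMod 2) D)
    {B : (Matrix (Fin k) (Fin k) (ZMod 2))ˣ}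
    (hB : CycM (B : Matrix (Fin k) (Fin k) (ZMod 2)) (P3 ^ j * Fe e))
    {l v : IG (q0 qD k)} (hl : l ∈ Nm qD k) (hv : v ∈ Np qD k)
    {u : (Matrix (Fin k) (Fin k) (ZMod 2))ˣ} (hu : Fc k j e (u : Matrix (Fin k) (Fin k) (ZMod 2))) :
    ∃ r r' : IG (q0 qD k), l * mL qD k u * v = r * mL qD k B * r⁻¹ * (r' * mL qD k B * r'⁻¹) := by
  obtain ⟨c1, c2, c3, c4, c5, c6⟩ := h.cop
  obtain ⟨N, S, hNS, hN, hS⟩ := hu
  have huNS : u = N * S := Units.ext hNS
  -- the lower part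
  obtain ⟨w1, -, e1⟩ := conj_low2 qD (sd_ff h hN) hl
  obtain ⟨P1, hP1⟩ := hB.conj hN
  have hP1' : N = P1 * B * P1⁻¹ := Units.ext hP1
  -- the upper part
  have hSti : Sd (ti S) ∧ ∃ t : IG (q0 qD k), mL qD k S = t * mL qD k B * t⁻¹ := by
    rcases hS with hS | hS
    · have h0 : (P3r ^ j * Fer e).coeff 0 ≠ 0 := by
        rw [coeff_mul_zero' (P3r_pow_monic j).2.2 (Fer_monic h.le).2.2]
        exact one_ne_zero
      have ht := cyc_ti hS h0
      rw [rv_mul, rv_pow, rv_P3r, rv_Fer h.le] at ht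
      refine ⟨sd_ff h ht, ?_⟩
      refine swap_conj qD (f1 := P3 ^ j * Fe e) (f2 := 1)
        ((P3_pow_monic j).1.mul (Fe_monic h.le).1) monic_one ?_ ?_ ?_ ?_ isCoprime_one_right
        isCoprime_one_right
      · rw [coeff_mul_zero' (P3_pow_monic j).2.2 (Fe_monic h.le).2.2]
        exact one_ne_zero
      · rw [coeff_one_zero]
        exact one_ne_zero
      · rw [mul_one]
        exact hB
      · rw [mul_one, rv_mul, rv_pow, rv_P3, rv_Fe h.le]
        exact hS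
    · have h0 : (P3r ^ j * Fe e).coeff 0 ≠ 0 := by
        rw [coeff_mul_zero' (P3r_pow_monic j).2.2 (Fe_monic h.le).2.2]
        exact one_ne_zero
      have ht := cyc_ti hS h0
      rw [rv_mul, rv_pow, rv_P3r, rv_Fe h.le] at ht
      refine ⟨sd_fr h ht, ?_⟩
      refine swap_conj qD (f1 := P3 ^ j) (f2 := Fe e) (P3_pow_monic j).1 (Fe_monic h.le).1 ?_ ?_ hB ?_ c1 ?_
      · rw [(P3_pow_monic j).2.2]
        exact one_ne_zero
      · rw [(Fe_monic h.le).2.2]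
        exact one_ne_zero
      · rw [rv_pow, rv_P3]
        exact hS
      · rw [rv_pow, rv_P3]
        exact c3
  obtain ⟨hSd, t, ht⟩ := hSti
  obtain ⟨w2, e2⟩ := conj_up2 qD hSd hv
  refine ⟨w1 * mL qD k P1, w2 * t, ?_⟩
  have e3 : l * mL qD k u * v = (l * mL qD k N) * (mL qD k S * v) := by
    rw [huNS, map_mul]
    group
  rw [e3, e1, e2, ht, hP1', map_mul, map_mul, map_inv]
  group

/-- `GL_k (2)` is perfect for `k ≥ 3` -/
theorem mL_comm2 (hk : 3 ≤ k) (qD : QF (ZMod 2) D) (u : (Matrix (Fin k) (Fin k) (ZMod 2))ˣ) :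
    mL qD k u ∈ commutator (IG (q0 qD k)) := by
  refine gl_ind hk (P := fun u => mL qD k u ∈ commutator (IG (q0 qD k))) ?_ ?_ ?_ u
  · intro u hu
    have h1 : (commutator ((Matrix (Fin k) (Fin k) (ZMod 2))ˣ)).map (mL qD k) ≤ commutator (IG (q0 qD k)) := by
      rw [commutator_def, Subgroup.map_commutator, commutator_def]
      exact Subgroup.commutator_mono le_top le_top
    exact h1 (Subgroup.mem_map_of_mem _ hu)
  · intro i t
    have ht : t = 1 := Subsingleton.elim _ _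
    have h1 : dgU i t = (1 : (Matrix (Fin k) (Fin k) (ZMod 2))ˣ) := by
      rw [ht]
      apply Units.ext
      show diagonal (Function.update 1 i ((1 : (ZMod 2)ˣ) : ZMod 2)) = 1
      rw [Units.val_one]
      have h2 : Function.update (1 : Fin k → ZMod 2) i 1 = 1 := by
        funext j
        by_cases hj : j = i
        · subst hj; simp
        · simp [Function.update_of_ne hj]
      rw [h2]
      exact diagonal_one
    show mL qD k (dgU i t) ∈ _
    rw [h1, map_one]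
    exact Subgroup.one_mem _
  · intro u v hu hv
    show mL qD k (u * v) ∈ _
    rw [map_mul]
    exact Subgroup.mul_mem _ hu hv

/-- conjugates of `mL B` are conjugates under the commutator subgroup -/
theorem adj2 [Finite D] (hk : 3 ≤ k) (qD : QF (ZMod 2) D) (hD : qD.ND ⊤)
    (hD2 : finrank (ZMod 2) D = 2) (B : (Matrix (Fin k) (Fin k) (ZMod 2))ˣ)
    (r : IG (q0 qD k)) : ∃ r0 ∈ commutator (IG (q0 qD k)),
      r * mL qD k B * r⁻¹ = r0 * mL qD k B * r0⁻¹ := by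
  obtain ⟨f, B0, -, -, -, -, -, hB0⟩ := seed_ex (K := ZMod 2) hk
  obtain ⟨s, hs⟩ := all_HH hk qD hD hD2 hB0 r
  refine ⟨r * oD qD k s, hs, ?_⟩
  have e : r * oD qD k s * mL qD k B * (r * oD qD k s)⁻¹ =
      r * (oD qD k s * mL qD k B) * (oD qD k s)⁻¹ * r⁻¹ := by group
  rw [e, oD_mL]
  group

theorem prod_of_sys2 [Finite D] (hk : 3 ≤ k) (qD : QF (ZMod 2) D) (hD : qD.ND ⊤)
    (hD2 : finrank (ZMod 2) D = 2) {j e : ℕ} (h : Adm j e) {B : (Matrix (Fin k) (Fin k) (ZMod 2))ˣ}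
    (hB : CycM (B : Matrix (Fin k) (Fin k) (ZMod 2)) (P3 ^ j * Fe e)) (g : IG (q0 qD k))
    {a : Matrix (Fin k) (Fin k) (ZMod 2)}
    (hs : (q0 qD k).Sys1 ⊤ ((g : V0 (ZMod 2) D k ≃ₗ[ZMod 2] V0 (ZMod 2) D k) :
      V0 (ZMod 2) D k →ₗ[ZMod 2] V0 (ZMod 2) D k) a)
    (hfac : Fc k j e a) : ∃ r ∈ commutator (IG (q0 qD k)), ∃ r' ∈ commutator (IG (q0 qD k)),
      g = r * mL qD k B * r⁻¹ * (r' * mL qD k B * r'⁻¹) := by
  have : FiniteDimensional (ZMod 2) D := Module.Finite.of_finite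
  obtain ⟨P, hP⟩ := std_of_sys qD hD g hs
  have ha : IsUnit a.det := by
    obtain ⟨N, S, hNS, -⟩ := hfac
    rw [hNS, ← Units.val_mul]
    exact (Matrix.isUnit_iff_isUnit_det _).1 (N * S).isUnit
  obtain ⟨l, hl, v, hv, u, hu, hg⟩ := ldu qD hP ha
  rw [← hu] at hfac
  obtain ⟨r, r', hr⟩ := main_block2 h qD hB hl hv hfac
  rw [map_one, mul_one, hr] at hg
  obtain ⟨r0, hr0, e0⟩ := adj2 hk qD hD hD2 B (P * r)
  obtain ⟨r1, hr1, e1⟩ := adj2 hk qD hD hD2 B (P * r')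
  refine ⟨r0, hr0, r1, hr1, ?_⟩
  rw [← e0, ← e1]
  have e : g = P * (P⁻¹ * g * P) * P⁻¹ := by group
  rw [e, hg]
  group

/-- nonzero elements of `ZMod 2` -/
theorem zmod2_one {c : ZMod 2} (h : c ≠ 0) : c = 1 := by
  revert c
  decide

theorem fc_one {j e : ℕ} (h : Adm j e) (hk : k = 3 * j + e) :
    Fc k j e (1 : Matrix (Fin k) (Fin k) (ZMod 2)) :=
  fc_uni h hk (fun i j hij => Matrix.one_apply_ne hij.ne') (fun i => Matrix.one_apply_eq i)

/-- The main theorem over the field with two elements for `V0` : every element of the commutator subgroup of the orthogonal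
group is a product of two conjugates (under the commutator subgroup) of a fixed element. -/
theorem main_two [Finite D] (hk : 3 ≤ k) (qD : QF (ZMod 2) D) (hD : qD.ND ⊤)
    (hD2 : finrank (ZMod 2) D = 2) :
    ∃ x ∈ commutator (IG (q0 qD k)), ∀ g ∈ commutator (IG (q0 qD k)),
      ∃ r ∈ commutator (IG (q0 qD k)), ∃ r' ∈ commutator (IG (q0 qD k)),
        g = r * x * r⁻¹ * (r' * x * r'⁻¹) := by
  have : FiniteDimensional (ZMod 2) D := Module.Finite.of_finite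
  obtain ⟨j, e, hadm, hke⟩ := adm_ex hk
  -- the block `B`
  have hmon : (P3 ^ j * Fe e).Monic := (P3_pow_monic j).1.mul (Fe_monic hadm.le).1
  have hdeg : (P3 ^ j * Fe e).natDegree = k := by
    rw [(P3_pow_monic j).1.natDegree_mul (Fe_monic hadm.le).1, (P3_pow_monic j).2.1,
      (Fe_monic hadm.le).2.1, hke]
  obtain ⟨B, hB⟩ : ∃ B : (Matrix (Fin k) (Fin k) (ZMod 2))ˣ,
      CycM (B : Matrix (Fin k) (Fin k) (ZMod 2)) (P3 ^ j * Fe e) := by
    obtain ⟨N, S, -, hN, -⟩ := fc_one hadm hke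
    exact ⟨N, hN⟩
  refine ⟨mL qD k B, mL_comm2 hk qD B, fun g hg => ?_⟩
  have hV : (q0 qD k).ND ⊤ := q0_ND qD hD
  have hfr : finrank (ZMod 2) (V0 (ZMod 2) D k) = 2 * k + 2 := by rw [V0_finrank, hD2]
  have hfrT : finrank (ZMod 2) (⊤ : Submodule (ZMod 2) (V0 (ZMod 2) D k)) = 2 * k + 2 := by
    rw [finrank_top]; exact hfr
  have hGi := IG_iso (q0 qD k) g
  set G : V0 (ZMod 2) D k →ₗ[ZMod 2] V0 (ZMod 2) D k :=
    ((g : V0 (ZMod 2) D k ≃ₗ[ZMod 2] V0 (ZMod 2) D k) : V0 (ZMod 2) D k →ₗ[ZMod 2] V0 (ZMod 2) D k)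
    with hGdef
  by_cases hne : ∃ w ∈ (⊤ : Submodule (ZMod 2) (V0 (ZMod 2) D k)), (q0 qD k).Q w = 0 ∧
      (q0 qD k).h w (G w) ≠ 0
  · -- the generic case
    obtain ⟨w, hw, hw0, hwz⟩ := hne
    obtain ⟨n, rfl⟩ : ∃ n, k = n + 1 := ⟨k - 1, by omega⟩
    have hGw : G w ∈ (⊤ : Submodule (ZMod 2) (V0 (ZMod 2) D (n + 1))) := trivial
    have hGw0 : (q0 qD (n + 1)).Q (G w) = 0 := by rw [hGi.2 w hw, hw0]
    have hU1 := perp2_ND (q0 qD (n + 1)) hV hw hGw hw0 hGw0 hwz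
    have hf1 : finrank (ZMod 2) ((q0 qD (n + 1)).perp2 ⊤ w (G w)) = 2 * n + 2 := by
      have h1 := perp2_finrank (q0 qD (n + 1)) hw hGw hw0 hGw0 hwz
      rw [hfrT] at h1
      omega
    have hG1 := iso_g1 (q0 qD (n + 1)) hGi hw hw0 hwz
    obtain ⟨l, hl, htri⟩ := tri_ex (q0 qD (n + 1)) n _ _ hU1 hf1 hG1
    have hpar := par_g1 (q0 qD (n + 1)) hV hGi hw hw0 hwz
    have heven := comm_even (q0 qD (n + 1)) hV hfr hg
    obtain ⟨κ, hκ, hsys⟩ := sysA (q0 qD (n + 1)) hV hGi hw hw0 hwz (by rw [hfrT]) htri (by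
      rw [← hGdef] at heven
      omega)
    obtain ⟨a, ha, hau, had⟩ := hsys 1 one_ne_zero
    refine prod_of_sys2 hk qD hD hD2 hadm hB g ha (fc_uni hadm hke hau fun i => ?_)
    rw [had i]
    refine Fin.cases ?_ (fun i => ?_) i
    · rw [Fin.cons_zero, one_pow, one_mul]
      exact zmod2_one hκ
    · rw [Fin.cons_succ]
      exact zmod2_one (hl i)
  · -- exceptional isometries
    push Not at hne
    obtain ⟨c, hE⟩ := sym_exc5 (q0 qD k) hV (by rw [hfrT]; omega) hGi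
      (fun w hw h0 => hne w hw h0)
    by_cases hc : c = 0
    · have hc2 : c = 2 := by rw [hc]; decide
      subst hc2
      exact prod_of_sys2 hk qD hD hD2 hadm hB g (exc_two (q0 qD k) k ⊤ _ hV hfrT hGi hE)
        (fc_one hadm hke)
    · have hc1 : c = 1 := zmod2_one hc
      subst hc1
      have hn2 : (1 : ZMod 2) ≠ 2 := by decide
      have hn2' : (1 : ZMod 2) ≠ -2 := by decide
      rcases Nat.even_or_odd' k with ⟨i, hi | hi⟩
      · -- `k` even
        obtain ⟨i', rfl⟩ : ∃ i', i = i' + 1 := ⟨i - 1, by omega⟩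
        have hf6 : finrank (ZMod 2) (⊤ : Submodule (ZMod 2) (V0 (ZMod 2) D k)) = 4 * i' + 6 := by
          rw [hfrT]; omega
        let r : Fin 2 ⊕ Fin (2 * i') ≃ Fin k := finSumFinEquiv.trans (finCongr (by omega))
        have hs1 := sys1_reindex (q0 qD k) r
          (exc_six (q0 qD k) i' ⊤ _ hn2 hn2' one_ne_zero hV hf6 hGi hE)
        have hblk : blk6 (1 : ZMod 2) 1 = !![0, 1; 1, 1] := by
          unfold blk6
          decide
        rw [hblk] at hs1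
        refine prod_of_sys2 hk qD hD hD2 hadm hB g hs1 (fc_o3 ?_ hke r)
        rcases hadm with h | ⟨h1, h2⟩
        · exact h
        · omega
      · -- `k` odd
        have hf4 : finrank (ZMod 2) (⊤ : Submodule (ZMod 2) (V0 (ZMod 2) D k)) = 4 * i + 4 := by
          rw [hfrT]; omega
        let r : Fin (2 * i + 1) ≃ Fin k := finCongr (by omega)
        have hs1 := sys1_reindex (q0 qD k) r (exc_four (q0 qD k) i ⊤ _ hn2 hn2' hV hf4 hGi hE)
        have e1 : Matrix.reindex r r (1 : Matrix (Fin (2 * i + 1)) (Fin (2 * i + 1)) (ZMod 2)) = 1 := by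
          rw [reindex_apply, submatrix_one_equiv]
        rw [e1] at hs1
        exact prod_of_sys2 hk qD hD hD2 hadm hB g hs1 (fc_one hadm hke)

end Th2
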