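import Mathlib

/-! # Module Nil: 3-dimensional invariant subspaces of nilpotent endomorphisms -/

namespace Th2
open Module

variable {F W : Type*} [Field F] [AddCommGroup W] [Module F W]

private theorem Nil_sub [FiniteDimensional F W] (V : Submodule F W) (k : ℕ) (hk : k ≤ finrank F V) :
    ∃ U : Submodule F W, U ≤ V ∧ finrank F U = k := by
  obtain ⟨f, hf⟩ := exists_linearIndependent_of_le_finrank hk
  have hf2 : LinearIndependent F (fun i => ((f i : V) : W)) := hf.map' V.subtype (Submodule.ker_subtype V)
  refine ⟨Submodule.span F (Set.range (fun i => ((f i : V) : W))), ?_, ?_⟩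
  · rw [Submodule.span_le]
    rintro _ ⟨i, rfl⟩
    exact (f i).2
  · rw [finrank_span_eq_card hf2]; simp

/-- If `dim ker ν ≥ 3`: three independent vectors of the kernel (a 3-dimensional subspace of it).  Otherwise there is `x` with `ν (ν x) ≠ 0` and
`ν (ν (ν x)) = 0`: if not, `ker ν ^ 3 ≤ ker ν ^ 2`, so `ker ν ^ n ≤ ker ν ^ 2` for all `n` and `ν ^ 2 = 0`, so `range ν ≤ ker ν` and
`dim W ≤ 2 + 2`.  Now `x, ν x, ν (ν x)` are independent and span the subspace `V1` (basis `b 0 = ν (ν x)`, `b 1 = ν x`, `b 2 = x`). -/
theorem nil3 [FiniteDimensional F W] (ν : Module.End F W) (hν : IsNilpotent ν) (h5 : 5 ≤ finrank F W) :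
    ∃ V1 : Submodule F W, finrank F V1 = 3 ∧ ((∀ x ∈ V1, ν x = 0) ∨
      ∃ b : Basis (Fin 3) F V1, ν (b 0) = 0 ∧ ν (b 1) = b 0 ∧ ν (b 2) = b 1) := by
  classical
  by_cases hk : 3 ≤ finrank F (LinearMap.ker ν)
  · obtain ⟨V, hV⟩ := Nil_sub (LinearMap.ker ν) 3 hk
    exact ⟨V, hV.2, Or.inl fun x hx => hV.1 hx⟩
  · have hex : ∃ x, ν (ν x) ≠ 0 ∧ ν (ν (ν x)) = 0 := by
      by_contra hne
      push Not at hne
      have hall : ∀ n : ℕ, ∀ x, (ν ^ n) x = 0 → ν (ν x) = 0 := by
        intro n
        induction n with
        | zero => intro x hx; have : x = 0 := hx; simp [this]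
        | succ n ih =>
          intro x hx
          have h1 : ν (ν (ν x)) = 0 := by
            have h2 : (ν ^ n) (ν x) = 0 := by rw [← Module.End.mul_apply, ← pow_succ]; exact hx
            exact ih _ h2
          by_contra h2
          exact hne x h2 h1
      obtain ⟨n, hn⟩ := hν
      have h0 : ∀ x, ν (ν x) = 0 := fun x => hall n x (by rw [hn]; rfl)
      have h1 : LinearMap.range ν ≤ LinearMap.ker ν := by
        rintro _ ⟨x, rfl⟩
        exact h0 x
      have h2 := Submodule.finrank_mono h1
      have h3 := LinearMap.finrank_range_add_finrank_ker ν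
      omega
    obtain ⟨x, hx2, hx3⟩ := hex
    have hli : LinearIndependent F (![ν (ν x), ν x, x] : Fin 3 → W) := by
      rw [Fintype.linearIndependent_iff]
      intro g hg
      rw [Fin.sum_univ_three] at hg
      simp only [Matrix.cons_val_zero, Matrix.cons_val_one, Matrix.cons_val] at hg
      have e2 : g 2 = 0 := by
        have := congrArg (fun w => ν (ν w)) hg
        simp only [map_add, map_smul, map_zero, hx3, smul_zero, zero_add] at this
        exact (smul_eq_zero.1 this).resolve_right hx2
      rw [e2, zero_smul, add_zero] at hg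
      have e1 : g 1 = 0 := by
        have := congrArg ν hg
        simp only [map_add, map_smul, map_zero, hx3, smul_zero, zero_add] at this
        exact (smul_eq_zero.1 this).resolve_right hx2
      rw [e1, zero_smul, add_zero] at hg
      have e0 : g 0 = 0 := (smul_eq_zero.1 hg).resolve_right hx2
      intro i
      fin_cases i
      · exact e0
      · exact e1
      · exact e2
    refine ⟨Submodule.span F (Set.range (![ν (ν x), ν x, x] : Fin 3 → W)), ?_, Or.inr ⟨Basis.span hli, ?_, ?_, ?_⟩⟩
    · rw [finrank_eq_card_basis (Basis.span hli)]; simp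
    · rw [Basis.span_apply]; simpa using hx3
    · rw [Basis.span_apply, Basis.span_apply]; simp
    · rw [Basis.span_apply, Basis.span_apply]; simp

end Th2
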