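import Pool.Agent.Th2.Defs

/-! # Module PolyB: the polynomials over the field with two elements

Coprimality by explicit Bezout identities (computer algebra; reduce the coefficients with `2 = 0` in `(ZMod 2)[X]`), or: an irreducible
polynomial of degree 3 which does not divide; or by the order of the roots (`P3 ∣ X ^ 7 - 1`, `P3r ∣ X ^ 7 - 1`, `Fe 4 ∣ X ^ 15 - 1`,
`Fe 5 ∣ X ^ 31 - 1`, `Fe 6 ∣ X ^ 63 - 1`). -/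

namespace Th2
open Polynomial

private theorem PolyB_two : (2 : (ZMod 2)[X]) = 0 := by
  have h1 : ((2 : ZMod 2)) = 0 := by decide
  have h2 : (2 : (ZMod 2)[X]) = C (2 : ZMod 2) := (map_ofNat C 2).symm
  rw [h2, h1, C_0]

private theorem PolyB_p : IsCoprime (X ^ 3 + X + 1 : (ZMod 2)[X]) (X ^ 3 + X ^ 2 + 1) := by
  refine ⟨X, X + 1, ?_⟩
  linear_combination (X ^ 4 + X ^ 3 + X ^ 2 + X) * PolyB_two

private theorem PolyB_f3 : IsCoprime (X ^ 3 + X + 1 : (ZMod 2)[X]) (X ^ 3 + X ^ 2 + 1) := by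
  refine ⟨X, X + 1, ?_⟩
  linear_combination (X ^ 4 + X ^ 3 + X ^ 2 + X) * PolyB_two

private theorem PolyB_f4 : IsCoprime (X ^ 4 + X + 1 : (ZMod 2)[X]) (X ^ 4 + X ^ 3 + 1) := by
  refine ⟨X ^ 3 + X + 1, X ^ 3 + X ^ 2, ?_⟩
  linear_combination (X ^ 7 + X ^ 6 + X ^ 5 + X ^ 4 + X ^ 3 + X ^ 2 + X) * PolyB_two

private theorem PolyB_f5 : IsCoprime (X ^ 5 + X ^ 2 + 1 : (ZMod 2)[X]) (X ^ 5 + X ^ 3 + 1) := by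
  refine ⟨X ^ 2 + X, X ^ 2 + X + 1, ?_⟩
  linear_combination (X ^ 7 + X ^ 6 + X ^ 5 + X ^ 4 + X ^ 3 + X ^ 2 + X) * PolyB_two

private theorem PolyB_f6 : IsCoprime (X ^ 6 + X + 1 : (ZMod 2)[X]) (X ^ 6 + X ^ 5 + 1) := by
  refine ⟨X ^ 4 + X ^ 2 + X, X ^ 4 + X ^ 3 + X + 1, ?_⟩
  linear_combination (X ^ 10 + X ^ 9 + X ^ 8 + X ^ 7 + X ^ 6 + X ^ 5 + X ^ 4 + X ^ 3 + X ^ 2 + X) * PolyB_two

private theorem PolyB_a4 : IsCoprime (X ^ 3 + X + 1 : (ZMod 2)[X]) (X ^ 4 + X + 1) := by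
  refine ⟨X ^ 2 + 1, X, ?_⟩
  linear_combination (X ^ 5 + X ^ 3 + X ^ 2 + X) * PolyB_two

private theorem PolyB_b4 : IsCoprime (X ^ 3 + X + 1 : (ZMod 2)[X]) (X ^ 4 + X ^ 3 + 1) := by
  refine ⟨X ^ 3 + X, X ^ 2 + X + 1, ?_⟩
  linear_combination (X ^ 6 + X ^ 5 + 2 * X ^ 4 + X ^ 3 + X ^ 2 + X) * PolyB_two

private theorem PolyB_c4 : IsCoprime (X ^ 3 + X ^ 2 + 1 : (ZMod 2)[X]) (X ^ 4 + X + 1) := by
  refine ⟨X ^ 2, X + 1, ?_⟩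
  linear_combination (X ^ 5 + X ^ 4 + X ^ 2 + X) * PolyB_two

private theorem PolyB_d4 : IsCoprime (X ^ 3 + X ^ 2 + 1 : (ZMod 2)[X]) (X ^ 4 + X ^ 3 + 1) := by
  refine ⟨X ^ 3 + 1, X ^ 2, ?_⟩
  linear_combination (X ^ 6 + X ^ 5 + X ^ 3 + X ^ 2) * PolyB_two

private theorem PolyB_a5 : IsCoprime (X ^ 3 + X + 1 : (ZMod 2)[X]) (X ^ 5 + X ^ 2 + 1) := by
  refine ⟨X ^ 4, X ^ 2 + 1, ?_⟩
  linear_combination (X ^ 7 + X ^ 5 + X ^ 4 + X ^ 2) * PolyB_two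

private theorem PolyB_b5 : IsCoprime (X ^ 3 + X + 1 : (ZMod 2)[X]) (X ^ 5 + X ^ 3 + 1) := by
  refine ⟨X ^ 3 + 1, X, ?_⟩
  linear_combination (X ^ 6 + X ^ 4 + X ^ 3 + X) * PolyB_two

private theorem PolyB_c5 : IsCoprime (X ^ 3 + X ^ 2 + 1 : (ZMod 2)[X]) (X ^ 5 + X ^ 2 + 1) := by
  refine ⟨X ^ 3 + X ^ 2 + X + 1, X, ?_⟩
  linear_combination (X ^ 6 + X ^ 5 + X ^ 4 + 2 * X ^ 3 + X ^ 2 + X) * PolyB_two

private theorem PolyB_d5 : IsCoprime (X ^ 3 + X ^ 2 + 1 : (ZMod 2)[X]) (X ^ 5 + X ^ 3 + 1) := by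
  refine ⟨X ^ 4 + X ^ 3 + X ^ 2, X ^ 2 + 1, ?_⟩
  linear_combination (X ^ 7 + X ^ 6 + 2 * X ^ 5 + X ^ 4 + X ^ 3 + X ^ 2) * PolyB_two

private theorem PolyB_a6 : IsCoprime (X ^ 3 + X + 1 : (ZMod 2)[X]) (X ^ 6 + X + 1) := by
  refine ⟨X ^ 4 + X ^ 3 + X ^ 2, X + 1, ?_⟩
  linear_combination (X ^ 7 + X ^ 6 + X ^ 5 + X ^ 4 + X ^ 3 + X ^ 2 + X) * PolyB_two

private theorem PolyB_b6 : IsCoprime (X ^ 3 + X + 1 : (ZMod 2)[X]) (X ^ 6 + X ^ 5 + 1) := by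
  refine ⟨X ^ 5 + X ^ 2 + 1, X ^ 2 + X, ?_⟩
  linear_combination (X ^ 8 + X ^ 7 + X ^ 6 + X ^ 5 + X ^ 3 + X ^ 2 + X) * PolyB_two

private theorem PolyB_c6 : IsCoprime (X ^ 3 + X ^ 2 + 1 : (ZMod 2)[X]) (X ^ 6 + X + 1) := by
  refine ⟨X ^ 5 + X ^ 3, X ^ 2 + X + 1, ?_⟩
  linear_combination (X ^ 8 + X ^ 7 + X ^ 6 + X ^ 5 + X ^ 3 + X ^ 2 + X) * PolyB_two

private theorem PolyB_d6 : IsCoprime (X ^ 3 + X ^ 2 + 1 : (ZMod 2)[X]) (X ^ 6 + X ^ 5 + 1) := by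
  refine ⟨X ^ 4 + X ^ 3 + X, X + 1, ?_⟩
  linear_combination (X ^ 7 + 2 * X ^ 6 + X ^ 5 + X ^ 4 + X ^ 3 + X) * PolyB_two

private theorem PolyB_u : IsCoprime (X ^ 3 + X + 1 : (ZMod 2)[X]) (X - 1) := by
  refine ⟨1, X ^ 2 + X, ?_⟩
  linear_combination (X ^ 3) * PolyB_two

private theorem PolyB_v : IsCoprime (X ^ 3 + X ^ 2 + 1 : (ZMod 2)[X]) (X - 1) := by
  refine ⟨1, X ^ 2, ?_⟩
  linear_combination (X ^ 3) * PolyB_two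

private theorem PolyB_g3 : IsCoprime (X ^ 3 + X + 1 : (ZMod 2)[X]) (X - 1) := by
  refine ⟨1, X ^ 2 + X, ?_⟩
  linear_combination (X ^ 3) * PolyB_two

private theorem PolyB_h3 : IsCoprime (X ^ 3 + X ^ 2 + 1 : (ZMod 2)[X]) (X - 1) := by
  refine ⟨1, X ^ 2, ?_⟩
  linear_combination (X ^ 3) * PolyB_two

private theorem PolyB_g4 : IsCoprime (X ^ 4 + X + 1 : (ZMod 2)[X]) (X - 1) := by
  refine ⟨1, X ^ 3 + X ^ 2 + X, ?_⟩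
  linear_combination (X ^ 4) * PolyB_two

private theorem PolyB_h4 : IsCoprime (X ^ 4 + X ^ 3 + 1 : (ZMod 2)[X]) (X - 1) := by
  refine ⟨1, X ^ 3, ?_⟩
  linear_combination (X ^ 4) * PolyB_two

private theorem PolyB_g5 : IsCoprime (X ^ 5 + X ^ 2 + 1 : (ZMod 2)[X]) (X - 1) := by
  refine ⟨1, X ^ 4 + X ^ 3 + X ^ 2, ?_⟩
  linear_combination (X ^ 5) * PolyB_two

private theorem PolyB_h5 : IsCoprime (X ^ 5 + X ^ 3 + 1 : (ZMod 2)[X]) (X - 1) := by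
  refine ⟨1, X ^ 4 + X ^ 3, ?_⟩
  linear_combination (X ^ 5) * PolyB_two

private theorem PolyB_g6 : IsCoprime (X ^ 6 + X + 1 : (ZMod 2)[X]) (X - 1) := by
  refine ⟨1, X ^ 5 + X ^ 4 + X ^ 3 + X ^ 2 + X, ?_⟩
  linear_combination (X ^ 6) * PolyB_two

private theorem PolyB_h6 : IsCoprime (X ^ 6 + X ^ 5 + 1 : (ZMod 2)[X]) (X - 1) := by
  refine ⟨1, X ^ 5, ?_⟩
  linear_combination (X ^ 6) * PolyB_two

private theorem PolyB_e3 : Fe 3 = X ^ 3 + X + 1 ∧ Fer 3 = X ^ 3 + X ^ 2 + 1 := by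
  constructor <;> simp [Fe, Fer]

private theorem PolyB_e4 : Fe 4 = X ^ 4 + X + 1 ∧ Fer 4 = X ^ 4 + X ^ 3 + 1 := by
  constructor <;> simp [Fe, Fer]

private theorem PolyB_e5 : Fe 5 = X ^ 5 + X ^ 2 + 1 ∧ Fer 5 = X ^ 5 + X ^ 3 + 1 := by
  constructor <;> simp [Fe, Fer]

private theorem PolyB_e6 : Fe 6 = X ^ 6 + X + 1 ∧ Fer 6 = X ^ 6 + X ^ 5 + 1 := by
  constructor <;> simp [Fe, Fer]

theorem cop_P3 : IsCoprime P3 P3r := PolyB_p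

theorem cop_Fe {e : ℕ} (he : 3 ≤ e ∧ e ≤ 6) : IsCoprime (Fe e) (Fer e) := by
  obtain ⟨h1, h2⟩ := he
  interval_cases e
  · rw [PolyB_e3.1, PolyB_e3.2]; exact PolyB_f3
  · rw [PolyB_e4.1, PolyB_e4.2]; exact PolyB_f4
  · rw [PolyB_e5.1, PolyB_e5.2]; exact PolyB_f5
  · rw [PolyB_e6.1, PolyB_e6.2]; exact PolyB_f6

theorem cop_P3_Fe {e : ℕ} (he : 4 ≤ e ∧ e ≤ 6) : IsCoprime P3 (Fe e) ∧ IsCoprime P3 (Fer e) ∧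
    IsCoprime P3r (Fe e) ∧ IsCoprime P3r (Fer e) := by
  obtain ⟨h1, h2⟩ := he
  interval_cases e
  · rw [PolyB_e4.1, PolyB_e4.2]; exact ⟨PolyB_a4, PolyB_b4, PolyB_c4, PolyB_d4⟩
  · rw [PolyB_e5.1, PolyB_e5.2]; exact ⟨PolyB_a5, PolyB_b5, PolyB_c5, PolyB_d5⟩
  · rw [PolyB_e6.1, PolyB_e6.2]; exact ⟨PolyB_a6, PolyB_b6, PolyB_c6, PolyB_d6⟩

theorem cop_one : IsCoprime P3 (X - 1) ∧ IsCoprime P3r (X - 1) := ⟨PolyB_u, PolyB_v⟩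

theorem cop_Fe_one {e : ℕ} (he : 3 ≤ e ∧ e ≤ 6) : IsCoprime (Fe e) (X - 1) ∧ IsCoprime (Fer e) (X - 1) := by
  obtain ⟨h1, h2⟩ := he
  interval_cases e
  · rw [PolyB_e3.1, PolyB_e3.2]; exact ⟨PolyB_g3, PolyB_h3⟩
  · rw [PolyB_e4.1, PolyB_e4.2]; exact ⟨PolyB_g4, PolyB_h4⟩
  · rw [PolyB_e5.1, PolyB_e5.2]; exact ⟨PolyB_g5, PolyB_h5⟩
  · rw [PolyB_e6.1, PolyB_e6.2]; exact ⟨PolyB_g6, PolyB_h6⟩

end Th2
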