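import Pool.Agent.Th2.Defs

/-! # Module PolyA: the polynomials over the field with two elements
 -/

namespace Th2
open Polynomial

private theorem PolyA_deg {n k : ℕ} (hk : 0 < k) (hkn : k < n) :
    degree (X ^ k + 1 : (ZMod 2)[X]) < n := by
  have h1 : (X ^ k + 1 : (ZMod 2)[X]) = X ^ k + C 1 := by rw [C_1]
  rw [h1, degree_X_pow_add_C hk]
  exact_mod_cast hkn

private theorem PolyA_tri {n k : ℕ} (hk : 0 < k) (hkn : k < n) :
    (X ^ n + X ^ k + 1 : (ZMod 2)[X]).Monic ∧ (X ^ n + X ^ k + 1 : (ZMod 2)[X]).natDegree = n ∧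
      (X ^ n + X ^ k + 1 : (ZMod 2)[X]).coeff 0 = 1 := by
  refine ⟨?_, ?_, ?_⟩
  · rw [add_assoc]
    exact monic_X_pow_add (PolyA_deg hk hkn)
  · rw [add_assoc]
    apply natDegree_eq_of_degree_eq_some
    rw [degree_add_eq_left_of_degree_lt (by rw [degree_X_pow]; exact PolyA_deg hk hkn),
      degree_X_pow]
  · rw [coeff_add, coeff_add, coeff_X_pow, coeff_X_pow, if_neg (by omega), if_neg (by omega)]
    simp

private theorem PolyA_rv {n k : ℕ} (hk : 0 < k) (hkn : k < n) :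
    rv (X ^ n + X ^ k + 1 : (ZMod 2)[X]) = X ^ n + X ^ (n - k) + 1 := by
  obtain ⟨_, h2, h3⟩ := PolyA_tri hk hkn
  unfold rv
  rw [h3, inv_one, C_1, one_mul]
  unfold reverse
  rw [h2]
  have h4 : (X ^ n + X ^ k + 1 : (ZMod 2)[X]) = X ^ n + X ^ k + X ^ 0 := by rw [pow_zero]
  rw [h4, reflect_add, reflect_add, reflect_monomial, reflect_monomial, reflect_monomial,
    revAt_le le_rfl, revAt_le hkn.le, revAt_le (Nat.zero_le n), Nat.sub_self, Nat.sub_zero,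
    pow_zero]
  ring

private theorem PolyA_P3 : P3 = X ^ 3 + X ^ 1 + 1 := by
  unfold P3
  rw [pow_one]

private theorem PolyA_Fe {e : ℕ} (he : 3 ≤ e ∧ e ≤ 6) :
    ∃ k : ℕ, 0 < k ∧ k < e ∧ Fe e = X ^ e + X ^ k + 1 ∧ Fer e = X ^ e + X ^ (e - k) + 1 := by
  by_cases h5 : e = 5
  · subst h5
    exact ⟨2, by norm_num, by norm_num, by simp [Fe], by simp [Fer]⟩
  · refine ⟨1, by norm_num, by omega, ?_, ?_⟩
    · simp [Fe, h5]
    · simp [Fer, h5]

theorem P3_irr : Irreducible P3 := by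
  have h1 := PolyA_tri (n := 3) (k := 1) (by norm_num) (by norm_num)
  rw [← PolyA_P3] at h1
  rw [h1.1.irreducible_iff_roots_eq_zero_of_degree_le_three (by rw [h1.2.1]; norm_num)
    (by rw [h1.2.1])]
  rw [Multiset.eq_zero_iff_forall_notMem]
  intro a ha
  have h2 := isRoot_of_mem_roots ha
  rw [IsRoot.def] at h2
  unfold P3 at h2
  simp only [eval_add, eval_pow, eval_X, eval_one] at h2
  have h3 : ∀ b : ZMod 2, b ^ 3 + b + 1 ≠ 0 := by decide
  exact h3 a h2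

theorem P3_monic : P3.Monic ∧ P3.natDegree = 3 ∧ P3.coeff 0 = 1 := by
  rw [PolyA_P3]
  exact PolyA_tri (by norm_num) (by norm_num)

theorem P3r_monic : P3r.Monic ∧ P3r.natDegree = 3 ∧ P3r.coeff 0 = 1 := by
  unfold P3r
  exact PolyA_tri (by norm_num) (by norm_num)

theorem Fe_monic {e : ℕ} (he : 3 ≤ e ∧ e ≤ 6) : (Fe e).Monic ∧ (Fe e).natDegree = e ∧ (Fe e).coeff 0 = 1 := by
  obtain ⟨k, h1, h2, h3, h4⟩ := PolyA_Fe he
  rw [h3]
  exact PolyA_tri h1 h2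

theorem Fer_monic {e : ℕ} (he : 3 ≤ e ∧ e ≤ 6) :
    (Fer e).Monic ∧ (Fer e).natDegree = e ∧ (Fer e).coeff 0 = 1 := by
  obtain ⟨k, h1, h2, h3, h4⟩ := PolyA_Fe he
  rw [h4]
  exact PolyA_tri (by omega) (by omega)

theorem rv_P3 : rv P3 = P3r := by
  rw [PolyA_P3, PolyA_rv (by norm_num) (by norm_num)]
  rfl

theorem rv_P3r : rv P3r = P3 := by
  rw [PolyA_P3]
  unfold P3r
  rw [PolyA_rv (by norm_num) (by norm_num)]

theorem rv_Fe {e : ℕ} (he : 3 ≤ e ∧ e ≤ 6) : rv (Fe e) = Fer e := by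
  obtain ⟨k, h1, h2, h3, h4⟩ := PolyA_Fe he
  rw [h3, h4, PolyA_rv h1 h2]

theorem rv_Fer {e : ℕ} (he : 3 ≤ e ∧ e ≤ 6) : rv (Fer e) = Fe e := by
  obtain ⟨k, h1, h2, h3, h4⟩ := PolyA_Fe he
  rw [h3, h4, PolyA_rv (by omega) (by omega)]
  congr 3
  omega

theorem rv_mul {f g : (ZMod 2)[X]} : rv (f * g) = rv f * rv g := by
  unfold rv
  rw [reverse_mul_of_domain, mul_coeff_zero, mul_inv, C_mul]
  ring

end Th2
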