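import Pool.Agent.ThQ.Ldu
import Pool.Agent.Th2.Sd

/-! # Module SwapA: partial exchange of `W` and `W'` -/

namespace Th2
open Matrix Module ThQ Polynomial

variable {K D : Type*} [Field K] [AddCommGroup D] [Module K D] {k : ℕ}

/-- block diagonal units -/
def dB {k1 k2 : ℕ} (e : Fin k1 ⊕ Fin k2 ≃ Fin k) (A1 : (Matrix (Fin k1) (Fin k1) K)ˣ)
    (A2 : (Matrix (Fin k2) (Fin k2) K)ˣ) : (Matrix (Fin k) (Fin k) K)ˣ where
  val := Matrix.reindex e e (fromBlocks (A1 : Matrix (Fin k1) (Fin k1) K) 0 0 A2)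
  inv := Matrix.reindex e e (fromBlocks ((A1⁻¹ : (Matrix (Fin k1) (Fin k1) K)ˣ) : Matrix (Fin k1) (Fin k1) K)
    0 0 ((A2⁻¹ : (Matrix (Fin k2) (Fin k2) K)ˣ) : Matrix (Fin k2) (Fin k2) K))
  val_inv := by
    rw [Matrix.reindex_apply, Matrix.reindex_apply, Matrix.submatrix_mul_equiv, fromBlocks_multiply]
    simp
  inv_val := by
    rw [Matrix.reindex_apply, Matrix.reindex_apply, Matrix.submatrix_mul_equiv, fromBlocks_multiply]
    simp

private theorem SwapA_mv {k1 k2 : ℕ} (e : Fin k1 ⊕ Fin k2 ≃ Fin k) (M1 : Matrix (Fin k1) (Fin k1) K)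
    (M2 : Matrix (Fin k2) (Fin k2) K) (x : Fin k → K) (j : Fin k) :
    (Matrix.reindex e e (fromBlocks M1 0 0 M2) *ᵥ x) j =
      Sum.elim (M1 *ᵥ fun i => x (e (Sum.inl i))) (M2 *ᵥ fun i => x (e (Sum.inr i))) (e.symm j) := by
  rw [Matrix.reindex_apply, Matrix.submatrix_mulVec_equiv, fromBlocks_mulVec]
  simp only [zero_mulVec, add_zero, zero_add, Function.comp_apply]
  rfl

private theorem SwapA_tr {k1 k2 : ℕ} (e : Fin k1 ⊕ Fin k2 ≃ Fin k) (M1 : Matrix (Fin k1) (Fin k1) K)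
    (M2 : Matrix (Fin k2) (Fin k2) K) :
    (Matrix.reindex e e (fromBlocks M1 0 0 M2))ᵀ = Matrix.reindex e e (fromBlocks M1ᵀ 0 0 M2ᵀ) := by
  rw [Matrix.transpose_reindex, fromBlocks_transpose, transpose_zero, transpose_zero]

/-- the exchange -/
private def SwapA_t (qD : QF K D) {k1 k2 : ℕ} (e : Fin k1 ⊕ Fin k2 ≃ Fin k) : IG (q0 qD k) :=
  ⟨{ toFun := fun v => (fun j => Sum.elim (fun _ => v.2.2 j) (fun _ => v.1 j) (e.symm j), v.2.1,
        fun j => Sum.elim (fun _ => v.1 j) (fun _ => v.2.2 j) (e.symm j))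
     map_add' := fun v w => by
       refine Prod.ext ?_ (Prod.ext rfl ?_)
       · funext j
         show Sum.elim (fun _ => v.2.2 j + w.2.2 j) (fun _ => v.1 j + w.1 j) (e.symm j) =
           Sum.elim (fun _ => v.2.2 j) (fun _ => v.1 j) (e.symm j) +
             Sum.elim (fun _ => w.2.2 j) (fun _ => w.1 j) (e.symm j)
         rcases e.symm j with i | i <;> rfl
       · funext j
         show Sum.elim (fun _ => v.1 j + w.1 j) (fun _ => v.2.2 j + w.2.2 j) (e.symm j) =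
           Sum.elim (fun _ => v.1 j) (fun _ => v.2.2 j) (e.symm j) +
             Sum.elim (fun _ => w.1 j) (fun _ => w.2.2 j) (e.symm j)
         rcases e.symm j with i | i <;> rfl
     map_smul' := fun c v => by
       refine Prod.ext ?_ (Prod.ext rfl ?_)
       · funext j
         show Sum.elim (fun _ => c * v.2.2 j) (fun _ => c * v.1 j) (e.symm j) =
           c * Sum.elim (fun _ => v.2.2 j) (fun _ => v.1 j) (e.symm j)
         rcases e.symm j with i | i <;> rfl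
       · funext j
         show Sum.elim (fun _ => c * v.1 j) (fun _ => c * v.2.2 j) (e.symm j) =
           c * Sum.elim (fun _ => v.1 j) (fun _ => v.2.2 j) (e.symm j)
         rcases e.symm j with i | i <;> rfl
     invFun := fun v => (fun j => Sum.elim (fun _ => v.2.2 j) (fun _ => v.1 j) (e.symm j), v.2.1,
        fun j => Sum.elim (fun _ => v.1 j) (fun _ => v.2.2 j) (e.symm j))
     left_inv := fun v => by
       refine Prod.ext ?_ (Prod.ext rfl ?_)
       · funext j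
         show Sum.elim (fun _ => Sum.elim (fun _ => v.1 j) (fun _ => v.2.2 j) (e.symm j))
           (fun _ => Sum.elim (fun _ => v.2.2 j) (fun _ => v.1 j) (e.symm j)) (e.symm j) = v.1 j
         rcases e.symm j with i | i <;> rfl
       · funext j
         show Sum.elim (fun _ => Sum.elim (fun _ => v.2.2 j) (fun _ => v.1 j) (e.symm j))
           (fun _ => Sum.elim (fun _ => v.1 j) (fun _ => v.2.2 j) (e.symm j)) (e.symm j) = v.2.2 j
         rcases e.symm j with i | i <;> rfl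
     right_inv := fun v => by
       refine Prod.ext ?_ (Prod.ext rfl ?_)
       · funext j
         show Sum.elim (fun _ => Sum.elim (fun _ => v.1 j) (fun _ => v.2.2 j) (e.symm j))
           (fun _ => Sum.elim (fun _ => v.2.2 j) (fun _ => v.1 j) (e.symm j)) (e.symm j) = v.1 j
         rcases e.symm j with i | i <;> rfl
       · funext j
         show Sum.elim (fun _ => Sum.elim (fun _ => v.2.2 j) (fun _ => v.1 j) (e.symm j))
           (fun _ => Sum.elim (fun _ => v.1 j) (fun _ => v.2.2 j) (e.symm j)) (e.symm j) = v.2.2 j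
         rcases e.symm j with i | i <;> rfl }, fun v => by
    show (∑ j, Sum.elim (fun _ => v.2.2 j) (fun _ => v.1 j) (e.symm j) *
      Sum.elim (fun _ => v.1 j) (fun _ => v.2.2 j) (e.symm j)) + qD.Q v.2.1 =
        (∑ j, v.1 j * v.2.2 j) + qD.Q v.2.1
    congr 1
    refine Finset.sum_congr rfl fun j _ => ?_
    rcases e.symm j with i | i
    · exact mul_comm _ _
    · rfl⟩

private theorem SwapA_t_apply (qD : QF K D) {k1 k2 : ℕ} (e : Fin k1 ⊕ Fin k2 ≃ Fin k) (v : V0 K D k) :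
    (SwapA_t qD e : V0 K D k ≃ₗ[K] V0 K D k) v =
      (fun j => Sum.elim (fun _ => v.2.2 j) (fun _ => v.1 j) (e.symm j), v.2.1,
        fun j => Sum.elim (fun _ => v.1 j) (fun _ => v.2.2 j) (e.symm j)) := rfl

/-- `t` exchanges the coordinates `e (inl i)` of the two vectors of `K ^ k` and keeps the others:
`t (x, y, x') = (x1, y, x1')` with `x1 j = x' j`, `x1' j = x j` if `e.symm j` is in the left part and `x1 j = x j`, `x1' j = x' j` otherwise.
It is an isometry and an involution, and `t (mL (dB e A1 A2)) t⁻¹ = mL (dB e (ti A1) A2)`. -/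
theorem swap_ex (qD : QF K D) {k1 k2 : ℕ} (e : Fin k1 ⊕ Fin k2 ≃ Fin k)
    (A1 : (Matrix (Fin k1) (Fin k1) K)ˣ) (A2 : (Matrix (Fin k2) (Fin k2) K)ˣ) :
    ∃ t : IG (q0 qD k), mL qD k (dB e (ti A1) A2) = t * mL qD k (dB e A1 A2) * t⁻¹ := by
  refine ⟨SwapA_t qD e, ?_⟩
  apply Subtype.ext
  apply LinearEquiv.ext
  intro v
  show (mL qD k (dB e (ti A1) A2) : V0 K D k ≃ₗ[K] V0 K D k) v =
    (SwapA_t qD e : V0 K D k ≃ₗ[K] V0 K D k) ((mL qD k (dB e A1 A2) : V0 K D k ≃ₗ[K] V0 K D k)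
      ((SwapA_t qD e : V0 K D k ≃ₗ[K] V0 K D k) v))
  rw [mL_apply, mL_apply, SwapA_t_apply, SwapA_t_apply]
  have e1 : ((dB e (ti A1) A2 : (Matrix (Fin k) (Fin k) K)ˣ) : Matrix (Fin k) (Fin k) K) =
      Matrix.reindex e e (fromBlocks
        ((A1⁻¹ : (Matrix (Fin k1) (Fin k1) K)ˣ) : Matrix (Fin k1) (Fin k1) K)ᵀ 0 0 A2) := rfl
  have e2 : (((dB e (ti A1) A2)⁻¹ : (Matrix (Fin k) (Fin k) K)ˣ) : Matrix (Fin k) (Fin k) K)ᵀ =
      Matrix.reindex e e (fromBlocks (A1 : Matrix (Fin k1) (Fin k1) K) 0 0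
        ((A2⁻¹ : (Matrix (Fin k2) (Fin k2) K)ˣ) : Matrix (Fin k2) (Fin k2) K)ᵀ) := by
    have h : (((dB e (ti A1) A2)⁻¹ : (Matrix (Fin k) (Fin k) K)ˣ) : Matrix (Fin k) (Fin k) K) =
      Matrix.reindex e e (fromBlocks (A1 : Matrix (Fin k1) (Fin k1) K)ᵀ 0 0
        ((A2⁻¹ : (Matrix (Fin k2) (Fin k2) K)ˣ) : Matrix (Fin k2) (Fin k2) K)) := rfl
    rw [h, SwapA_tr, transpose_transpose]
  have e3 : ((dB e A1 A2 : (Matrix (Fin k) (Fin k) K)ˣ) : Matrix (Fin k) (Fin k) K) =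
      Matrix.reindex e e (fromBlocks (A1 : Matrix (Fin k1) (Fin k1) K) 0 0 A2) := rfl
  have e4 : (((dB e A1 A2)⁻¹ : (Matrix (Fin k) (Fin k) K)ˣ) : Matrix (Fin k) (Fin k) K)ᵀ =
      Matrix.reindex e e (fromBlocks
        ((A1⁻¹ : (Matrix (Fin k1) (Fin k1) K)ˣ) : Matrix (Fin k1) (Fin k1) K)ᵀ 0 0
        ((A2⁻¹ : (Matrix (Fin k2) (Fin k2) K)ˣ) : Matrix (Fin k2) (Fin k2) K)ᵀ) := by
    have h : (((dB e A1 A2)⁻¹ : (Matrix (Fin k) (Fin k) K)ˣ) : Matrix (Fin k) (Fin k) K) =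
      Matrix.reindex e e (fromBlocks
        ((A1⁻¹ : (Matrix (Fin k1) (Fin k1) K)ˣ) : Matrix (Fin k1) (Fin k1) K) 0 0
        ((A2⁻¹ : (Matrix (Fin k2) (Fin k2) K)ˣ) : Matrix (Fin k2) (Fin k2) K)) := rfl
    rw [h, SwapA_tr]
  rw [e1, e2, e3, e4]
  refine Prod.ext ?_ (Prod.ext rfl ?_)
  · funext j
    show (Matrix.reindex e e _ *ᵥ v.1) j = Sum.elim (fun _ => (Matrix.reindex e e _ *ᵥ _) j)
      (fun _ => (Matrix.reindex e e _ *ᵥ _) j) (e.symm j)
    rw [SwapA_mv, SwapA_mv, SwapA_mv]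
    simp only [Equiv.symm_apply_apply, Sum.elim_inl, Sum.elim_inr]
    rcases e.symm j with i | i <;> rfl
  · funext j
    show (Matrix.reindex e e _ *ᵥ v.2.2) j = Sum.elim (fun _ => (Matrix.reindex e e _ *ᵥ _) j)
      (fun _ => (Matrix.reindex e e _ *ᵥ _) j) (e.symm j)
    rw [SwapA_mv, SwapA_mv, SwapA_mv]
    simp only [Equiv.symm_apply_apply, Sum.elim_inl, Sum.elim_inr]
    rcases e.symm j with i | i <;> rfl

end Th2
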