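import Pool.Agent.Th2.Ext
import Pool.Agent.Th2.Nil
import Pool.Agent.Th2.Jor
import Pool.Agent.Th2.Blk3
import Pool.Agent.Th2.CycB
import Pool.Agent.Th2.Tab

/-! # T1u: unipotent blocks -/

namespace Th2
open Polynomial Module Matrix

universe u

variable {W : Type u} [AddCommGroup W] [Module (ZMod 2) W]

private theorem T1u_cyc {n : ℕ} (b : Basis (Fin n) (ZMod 2) W) {g : Module.End (ZMod 2) W}
    {N : Matrix (Fin n) (Fin n) (ZMod 2)} {f : (ZMod 2)[X]} (h : CycM N f)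
    (hN : LinearMap.toMatrix b b g = N) : Cyc g f := by
  refine Cyc.map (T := Matrix.toLin' N) h b.equivFun.symm fun w => ?_
  apply b.equivFun.injective
  rw [LinearEquiv.apply_symm_apply, Matrix.toLin'_apply, ← hN]
  have h1 := LinearMap.toMatrix_mulVec_repr b b g (b.equivFun.symm w)
  have h2 : ⇑(b.repr (b.equivFun.symm w)) = w := by
    have h3 := b.equivFun.apply_symm_apply w
    exact h3
  rw [h2] at h1
  rw [h1]
  rfl

private theorem T1u_tab {n : ℕ} (b : Basis (Fin n) (ZMod 2) W) {a : Module.End (ZMod 2) W}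
    (h : Tabl n (LinearMap.toMatrix b b a)) :
    ∃ T : Module.End (ZMod 2) W, Cyc (a * T) (Fe n) ∧ (Cyc T (Fe n) ∨ Cyc T (Fer n)) := by
  obtain ⟨T, h1, h2⟩ := h
  have e1 : LinearMap.toMatrix b b (Matrix.toLin b b T) = T := LinearMap.toMatrix_toLin b b T
  refine ⟨Matrix.toLin b b T, ?_, ?_⟩
  · refine T1u_cyc b h1 ?_
    have h3 : LinearMap.toMatrix b b (a * Matrix.toLin b b T) =
        LinearMap.toMatrix b b a * LinearMap.toMatrix b b (Matrix.toLin b b T) :=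
      LinearMap.toMatrix_mul b a (Matrix.toLin b b T)
    rw [h3, e1]
  · rcases h2 with h2 | h2
    · exact Or.inl (T1u_cyc b h2 e1)
    · exact Or.inr (T1u_cyc b h2 e1)

private theorem T1u_step [FiniteDimensional (ZMod 2) W] (j : ℕ) {e : ℕ} (he : 4 ≤ e ∧ e ≤ 6)
    (a : Module.End (ZMod 2) W) (V1 : Submodule (ZMod 2) W) (ha : V1 ≤ V1.comap a)
    (hai : ∀ x ∈ V1, a x = 0 → x = 0) (hd : finrank (ZMod 2) V1 = 3)
    (h3 : ∀ x y : V1, ∃ z : V1, z ≠ x ∧ z ≠ y)
    (T1 : V1 →ₗ[ZMod 2] V1) (hT1 : aeval T1 P3 = 0)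
    (hN1 : aeval ((a.restrict ha : V1 →ₗ[ZMod 2] V1) ∘ₗ T1 : Module.End (ZMod 2) V1) P3 = 0)
    (hb : ∃ Tb : Module.End (ZMod 2) (W ⧸ V1),
      Cyc ((V1.mapQ V1 a ha : Module.End (ZMod 2) (W ⧸ V1)) * Tb) (P3 ^ j * Fe e) ∧
      (Cyc Tb (P3 ^ j * Fe e) ∨ Cyc Tb (P3 ^ j * Fer e))) :
    ∃ T : Module.End (ZMod 2) W, Cyc (a * T) (P3 ^ (j + 1) * Fe e) ∧
      (Cyc T (P3 ^ (j + 1) * Fe e) ∨ Cyc T (P3 ^ (j + 1) * Fer e)) := by
  obtain ⟨Tb, hb1, hb2⟩ := hb
  have hP := P3_irr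
  have hcop := cop_P3_Fe he
  have hn1 : ¬ P3 ∣ Fe e := fun h => hP.not_isUnit (hcop.1.isUnit_of_dvd' dvd_rfl h)
  have hn2 : ¬ P3 ∣ Fer e := fun h => hP.not_isUnit (hcop.2.1.isUnit_of_dvd' dvd_rfl h)
  have hdv : ∀ g g' : (ZMod 2)[X], ¬ P3 ∣ g → ¬ P3 ∣ g' → (P3 ∣ P3 ^ j * g ↔ P3 ∣ P3 ^ j * g') := by
    intro g g' hg hg'
    rcases Nat.eq_zero_or_pos j with hj | hj
    · rw [hj, pow_zero, one_mul, one_mul]
      exact ⟨fun h => absurd h hg, fun h => absurd h hg'⟩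
    · have h4 : P3 ∣ P3 ^ j := dvd_pow_self _ hj.ne'
      exact ⟨fun _ => h4.mul_right _, fun _ => h4.mul_right _⟩
  have hpow : ∀ g : (ZMod 2)[X], P3 ^ (j + 1) * g = P3 * (P3 ^ j * g) := fun g => by
    rw [pow_succ', mul_assoc]
  rw [hpow, hpow]
  have hd' : finrank (ZMod 2) V1 = P3.natDegree := by rw [hd, P3_monic.2.1]
  rcases hb2 with hb2 | hb2
  · obtain ⟨T, hT, haT⟩ := step hP P3_monic.1 a V1 ha hai hd' h3 T1 hT1 hN1 Tb hb2 hb1
      (hdv _ _ hn1 hn1)
    exact ⟨T, haT, Or.inl hT⟩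
  · obtain ⟨T, hT, haT⟩ := step hP P3_monic.1 a V1 ha hai hd' h3 T1 hT1 hN1 Tb hb2 hb1
      (hdv _ _ hn2 hn1)
    exact ⟨T, haT, Or.inr hT⟩

/-- the base of the induction, from `jordan_mat` and `tab_uni` -/
theorem t1u_base [FiniteDimensional (ZMod 2) W] {e : ℕ} (he : 3 ≤ e ∧ e ≤ 6)
    (hW : finrank (ZMod 2) W = e) (a : Module.End (ZMod 2) W) (ha : IsNilpotent (a - 1)) :
    ∃ T : Module.End (ZMod 2) W, Cyc (a * T) (Fe e) ∧ (Cyc T (Fe e) ∨ Cyc T (Fer e)) := by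
  obtain ⟨b, I, hb⟩ := jordan_mat e hW a ha
  refine T1u_tab b ?_
  rw [hb]
  exact tab_uni he I

/-- Induction on `j`; `j = 0`: `t1u_base`.  For `j + 1`: `nil3` for `a - 1` gives `V1`, invariant under `a`; `blk3`; by induction for
`W / V1` (`(V1.mapQ V1 a) - 1` is nilpotent) there is `Tb`; `step` with `p = P3` (`P3` does not divide `Fe e`, `Fer e` for `4 ≤ e`, `cop_P3_Fe`; it
divides the polynomials for `j ≥ 1`); `e ≥ 4` as `j + 1 ≠ 0`. -/
theorem t1u (j : ℕ) {e : ℕ} (he : (4 ≤ e ∧ e ≤ 6) ∨ (e = 3 ∧ j = 0)) [FiniteDimensional (ZMod 2) W]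
    (hW : finrank (ZMod 2) W = 3 * j + e) (a : Module.End (ZMod 2) W) (ha : IsNilpotent (a - 1)) :
    ∃ T : Module.End (ZMod 2) W, Cyc (a * T) (P3 ^ j * Fe e) ∧
      (Cyc T (P3 ^ j * Fe e) ∨ Cyc T (P3 ^ j * Fer e)) := by
  induction j generalizing W with
  | zero =>
    rw [pow_zero, one_mul, one_mul]
    exact t1u_base (by omega) (by omega) a ha
  | succ j ih =>
    have he : 4 ≤ e ∧ e ≤ 6 := by omega
    obtain ⟨V1, hd, hV1⟩ := nil3 (a - 1) ha (by omega)
    have hinv : ∀ x ∈ V1, (a - 1) x ∈ V1 := by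
      rcases hV1 with h | ⟨b, h0, h1, h2⟩
      · intro x hx
        rw [h x hx]
        exact V1.zero_mem
      · intro x hx
        have h4 : x = ∑ i, b.repr ⟨x, hx⟩ i • (b i : W) := by
          have h5 : ((∑ i, b.repr ⟨x, hx⟩ i • b i : V1) : W) = x :=
            congrArg Subtype.val (b.sum_repr ⟨x, hx⟩)
          simp only [Submodule.coe_sum, Submodule.coe_smul] at h5
          exact h5.symm
        rw [h4, map_sum]
        refine V1.sum_mem fun i _ => ?_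
        rw [map_smul]
        refine V1.smul_mem _ ?_
        fin_cases i
        · show (a - 1) (b 0) ∈ V1
          rw [h0]
          exact V1.zero_mem
        · show (a - 1) (b 1) ∈ V1
          rw [h1]
          exact (b 0).2
        · show (a - 1) (b 2) ∈ V1
          rw [h2]
          exact (b 1).2
    have haV : V1 ≤ V1.comap a := by
      intro x hx
      show a x ∈ V1
      have h4 : a x = (a - 1) x + x := by
        rw [LinearMap.sub_apply, Module.End.one_apply]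
        abel
      rw [h4]
      exact V1.add_mem (hinv x hx) hx
    obtain ⟨⟨T1, hT1, hN1⟩, hai, h3⟩ := blk3 V1 hd a haV hV1
    have hq : finrank (ZMod 2) (W ⧸ V1) = 3 * j + e := by
      have h4 := V1.finrank_quotient_add_finrank
      omega
    have hnil : IsNilpotent ((V1.mapQ V1 a haV : Module.End (ZMod 2) (W ⧸ V1)) - 1) := by
      obtain ⟨m, hm⟩ := ha
      have h4 : ∀ (m : ℕ) (w : W),
          (((V1.mapQ V1 a haV : Module.End (ZMod 2) (W ⧸ V1)) - 1) ^ m :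
            Module.End (ZMod 2) (W ⧸ V1)) (V1.mkQ w) =
          V1.mkQ (((a - 1) ^ m : Module.End (ZMod 2) W) w) := by
        intro m
        induction m with
        | zero => intro w; rfl
        | succ m ihm =>
          intro w
          rw [pow_succ, pow_succ, Module.End.mul_apply, Module.End.mul_apply, ← ihm]
          rfl
      refine ⟨m, LinearMap.ext fun z => ?_⟩
      obtain ⟨w, rfl⟩ := V1.mkQ_surjective z
      rw [h4, hm]
      exact map_zero V1.mkQ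
    exact T1u_step j he a V1 haV hai hd h3 T1 hT1 hN1 (ih (Or.inl he) hq _ hnil)

end Th2
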