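import Pool.Agent.Th2.TabDefs
import Pool.Agent.Th2.TabB

/-! # Table for `e = 3` (certificates found by computer, checked by the kernel) -/

namespace Th2
open Polynomial Module Matrix

/-- certificates: `T` is of type `Fe e` (`true`) or `Fer e` (`false`); rows of `T`, `K`, `K⁻¹`, `L`, `L⁻¹` -/
def dat3 : List (Bool × List ℕ × List ℕ × List ℕ × List ℕ × List ℕ) := [
  (true, [3, 5, 7], [3, 2, 6], [3, 2, 6], [3, 2, 6], [3, 2, 6]),
  (false, [2, 7, 3], [5, 2, 6], [7, 2, 6], [3, 6, 2], [5, 4, 6]),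
  (false, [7, 3, 6], [3, 2, 4], [3, 2, 4], [3, 6, 4], [7, 6, 4]),
  (true, [3, 4, 5], [7, 4, 2], [7, 4, 2], [7, 6, 2], [3, 4, 6])]

theorem chk3 : ∀ b1 b2 : Bool, chk 3 (Jm (ZMod 2) 3 ![false, b1, b2]) (dat3.getD ((if b1 then 1 else 0) + (if b2 then 2 else 0)) default) = true := by
  decide +kernel

theorem tab_uni3 (I : Fin 3 → Bool) : Tabl 3 (Jm (ZMod 2) 3 I) := by
  have h : Jm (ZMod 2) 3 I = Jm (ZMod 2) 3 ![false, I 1, I 2] := by
    apply Jm_congr
    intro j hj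
    fin_cases j <;> first | exact absurd hj (by decide) | rfl
  rw [h]
  exact tabl_chk (by decide) (chk3 (I 1) (I 2))

end Th2
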