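import Pool.Agent.Th2.CycC
import Pool.Agent.Th2.Poly

/-! # Tables: the statements -/

namespace Th2
open Polynomial Module Matrix

/-- what we want for a block `a` of size `e` -/
def Tabl (e : ℕ) (a : Matrix (Fin e) (Fin e) (ZMod 2)) : Prop :=
  ∃ T : Matrix (Fin e) (Fin e) (ZMod 2), CycM (a * T) (Fe e) ∧ (CycM T (Fe e) ∨ CycM T (Fer e))

/-- the matrix with an element of order three in the first two rows and columns -/
def O3 (e : ℕ) : Matrix (Fin e) (Fin e) (ZMod 2) :=
  fun i j => if (i : ℕ) = 0 ∧ (j : ℕ) = 0 then 0 else if (i : ℕ) ≤ 1 ∧ (j : ℕ) ≤ 1 then 1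
    else if i = j then 1 else 0

end Th2
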